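import Pool.Agent.Helper84.TR.CE

/-!
# TR-4: masses of events, entropy of an event, medians
-/

set_option autoImplicit false

open Finset

namespace Pool.Agent.Helper84.TR

open Pool.Agent.Helper15.BP

variable {Ω Ω' α β γ δ : Type*} [Fintype Ω] [Fintype Ω']

theorem mass_nonneg {w : Ω → ℝ} (hw : IsPr w) (p : Ω → Prop) : 0 ≤ mass w p := by
  unfold mass
  exact sum_nonneg fun o _ => by split_ifs <;> simp [hw.nonneg]

theorem mass_mono {w : Ω → ℝ} (hw : IsPr w) {p p' : Ω → Prop} (h : ∀ o, p o → p' o) :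
    mass w p ≤ mass w p' := by
  unfold mass
  apply sum_le_sum
  intro o _
  by_cases hp : p o
  · rw [if_pos hp, if_pos (h o hp)]
  · rw [if_neg hp]
    split_ifs <;> simp [hw.nonneg]

theorem mass_le_one {w : Ω → ℝ} (hw : IsPr w) (p : Ω → Prop) : mass w p ≤ 1 := by
  unfold mass
  rw [← hw.sum_one]
  exact sum_le_sum fun o _ => by split_ifs <;> simp [hw.nonneg]

theorem mass_or_le {w : Ω → ℝ} (hw : IsPr w) (p p' : Ω → Prop) :
    mass w (fun o => p o ∨ p' o) ≤ mass w p + mass w p' := by
  unfold mass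
  rw [← sum_add_distrib]
  apply sum_le_sum
  intro o _
  have := hw.nonneg o
  by_cases hp : p o <;> by_cases hp' : p' o <;> simp [hp, hp', this]

theorem mass_not {w : Ω → ℝ} (hw : IsPr w) (p : Ω → Prop) :
    mass w (fun o => ¬ p o) = 1 - mass w p := by
  unfold mass
  rw [eq_sub_iff_add_eq, ← hw.sum_one, ← sum_add_distrib]
  apply sum_congr rfl
  intro o _
  by_cases hp : p o <;> simp [hp]

theorem mass_prod {w : Ω → ℝ} {w' : Ω' → ℝ} (p : Ω → Prop) (p' : Ω' → Prop) :
    mass (prodW w w') (fun o => p o.1 ∧ p' o.2) = mass w p * mass w' p' := by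
  unfold mass prodW
  rw [Fintype.sum_prod_type, sum_mul_sum]
  apply sum_congr rfl
  intro o _
  apply sum_congr rfl
  intro o' _
  by_cases hp : p o <;> by_cases hp' : p' o' <;> simp [hp, hp']

theorem mass_true {w : Ω → ℝ} (hw : IsPr w) : mass w (fun _ => True) = 1 := by
  unfold mass
  rw [← hw.sum_one]
  apply sum_congr rfl
  intro o _
  simp

theorem mass_fst {w : Ω → ℝ} {w' : Ω' → ℝ} (hw' : IsPr w') (p : Ω → Prop) :
    mass (prodW w w') (fun o => p o.1) = mass w p := by
  have h := mass_prod (w := w) (w' := w') p (fun _ => True)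
  rw [mass_true hw', mul_one] at h
  rw [← h]
  congr 1
  ext o
  simp

theorem mass_snd {w : Ω → ℝ} {w' : Ω' → ℝ} (hw : IsPr w) (p : Ω' → Prop) :
    mass (prodW w w') (fun o => p o.2) = mass w' p := by
  have h := mass_prod (w := w) (w' := w') (fun _ => True) p
  rw [mass_true hw, one_mul] at h
  rw [← h]
  congr 1
  ext o
  simp

/-- entropy of an event -/
theorem Ent_event {w : Ω → ℝ} (hw : IsPr w) (J : Ω → Prop) :
    Ent w J = Real.binEntropy (mass w J) := by
  classical
  have h1 : ∀ o, J o → pr w J (J o) = mass w J := by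
    intro o ho
    unfold pr mass
    apply sum_congr rfl
    intro x _
    by_cases hx : J x
    · rw [if_pos (by rw [eq_true hx, eq_true ho]), if_pos hx]
    · rw [if_neg (by rw [eq_false hx, eq_true ho]; simp), if_neg hx]
  have h2 : ∀ o, ¬ J o → pr w J (J o) = 1 - mass w J := by
    intro o ho
    rw [← mass_not hw]
    unfold pr mass
    apply sum_congr rfl
    intro x _
    by_cases hx : J x
    · rw [if_neg (by rw [eq_true hx, eq_false ho]; simp), if_neg (by simpa using hx)]
    · rw [if_pos (by rw [eq_false hx, eq_false ho]), if_pos hx]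
  have h3 : ∀ o, w o * (-Real.log (pr w J (J o))) =
      (if J o then w o else 0) * (-Real.log (mass w J)) +
        (if ¬ J o then w o else 0) * (-Real.log (1 - mass w J)) := by
    intro o
    by_cases ho : J o
    · rw [h1 o ho, if_pos ho, if_neg (by simpa using ho)]
      ring
    · rw [h2 o ho, if_neg ho, if_pos ho]
      ring
  unfold Ent
  rw [sum_congr rfl fun o _ => h3 o, sum_add_distrib, ← sum_mul, ← sum_mul]
  have h4 : ∑ o, (if J o then w o else 0) = mass w J := by
    unfold mass
    apply sum_congr rfl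
    intro o _
    congr
  have h5 : ∑ o, (if ¬ J o then w o else 0) = 1 - mass w J := by
    rw [← mass_not hw]
    unfold mass
    apply sum_congr rfl
    intro o _
    congr
  rw [h4, h5, Real.binEntropy_eq_negMulLog_add_negMulLog_one_sub, Real.negMulLog, Real.negMulLog]
  ring

theorem median {w : Ω → ℝ} (hw : IsPr w) (X : Ω → ℤ) :
    ∃ v : ℤ, mass w (fun o => v + 1 ≤ X o) ≤ 1 / 2 ∧ mass w (fun o => X o ≤ v - 1) ≤ 1 / 2 := by
  classical
  -- bounds for the values of `X`
  obtain ⟨B, hB⟩ : ∃ B : ℤ, ∀ o, -B < X o ∧ X o < B := by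
    refine ⟨(∑ o, |X o|) + 1, fun o => ?_⟩
    have h := single_le_sum (f := fun o => |X o|) (fun _ _ => abs_nonneg _) (mem_univ o)
    have h' := abs_le.1 (show |X o| ≤ ∑ o, |X o| from h)
    constructor <;> linarith [h'.1, h'.2]
  have hex : ∃ v : ℤ, mass w (fun o => v + 1 ≤ X o) ≤ 1 / 2 := by
    refine ⟨B, ?_⟩
    have h0 : mass w (fun o => B + 1 ≤ X o) = 0 := by
      unfold mass
      apply sum_eq_zero
      intro o _
      rw [if_neg]
      intro h
      linarith [(hB o).2]
    rw [h0]
    norm_num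
  have hbd : ∃ b : ℤ, ∀ z : ℤ, mass w (fun o => z + 1 ≤ X o) ≤ 1 / 2 → b ≤ z := by
    refine ⟨-B, fun z hz => ?_⟩
    by_contra hlt
    push Not at hlt
    have h1 : mass w (fun o => z + 1 ≤ X o) = 1 := by
      rw [← mass_true hw]
      unfold mass
      apply sum_congr rfl
      intro o _
      rw [if_pos (by linarith [(hB o).1]), if_pos trivial]
    rw [h1] at hz
    norm_num at hz
  obtain ⟨v, hv, hmin⟩ := Int.exists_least_of_bdd hbd hex
  refine ⟨v, hv, ?_⟩
  by_contra hlt
  push Not at hlt
  have h2 : mass w (fun o => X o ≤ v - 1) = 1 - mass w (fun o => v ≤ X o) := by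
    rw [← mass_not hw]
    congr 1
    ext o
    constructor
    · intro h h'; linarith
    · intro h
      have := not_le.1 h
      linarith [Int.le_sub_one_of_lt this]
  have h3 : mass w (fun o => (v - 1) + 1 ≤ X o) ≤ 1 / 2 := by
    have h4 : mass w (fun o => (v - 1) + 1 ≤ X o) = mass w (fun o => v ≤ X o) := by
      congr 1
      ext o
      rw [sub_add_cancel]
    rw [h4]
    rw [h2] at hlt
    linarith
  have := hmin (v - 1) h3
  linarith

end Pool.Agent.Helper84.TR
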