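import Pool.Agent.Helper84.TR.Defs

/-!
# TR-19: valuations of integers
-/

set_option autoImplicit false

open Finset

namespace Pool.Agent.Helper84.TR

/-- the vector of valuations at the primes below `n` -/
noncomputable def vv (n : ℕ) (b : ℤ) : Fin n → ℤ :=
  fun q => if (q : ℕ).Prime then (padicValInt q b : ℤ) else 0

private theorem vv_eq_fact (n : ℕ) (b : ℤ) (q : Fin n) :
    vv n b q = ((b.natAbs.factorization (q : ℕ) : ℕ) : ℤ) := by
  unfold vv
  by_cases hq : (q : ℕ).Prime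
  · rw [if_pos hq, Nat.factorization_def _ hq]
    rfl
  · rw [if_neg hq, Nat.factorization_eq_zero_of_not_prime _ hq]
    rfl

theorem vv_mul (n : ℕ) {b b' : ℤ} (hb : b ≠ 0) (hb' : b' ≠ 0) :
    vv n (b * b') = vv n b + vv n b' := by
  funext q
  rw [Pi.add_apply, vv_eq_fact, vv_eq_fact, vv_eq_fact, Int.natAbs_mul,
    Nat.factorization_mul (Int.natAbs_ne_zero.mpr hb) (Int.natAbs_ne_zero.mpr hb')]
  simp

theorem vv_nonneg (n : ℕ) (b : ℤ) (q : Fin n) : 0 ≤ vv n b q := by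
  rw [vv_eq_fact]
  positivity

/-- `v_q(b) > l` iff `q ^ (l + 1) ∣ b` -/
theorem vv_lt_iff (n : ℕ) {b : ℤ} (hb : b ≠ 0) (q : Fin n) (hq : (q : ℕ).Prime) (l : ℕ) :
    (l : ℤ) < vv n b q ↔ ((q : ℕ) : ℤ) ^ (l + 1) ∣ b := by
  rw [vv_eq_fact]
  have h1 : ((l : ℤ) < ((b.natAbs.factorization (q : ℕ) : ℕ) : ℤ)) ↔
      l + 1 ≤ b.natAbs.factorization (q : ℕ) := by
    constructor
    · intro h
      have : l < b.natAbs.factorization (q : ℕ) := by exact_mod_cast h
      omega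
    · intro h
      have : l < b.natAbs.factorization (q : ℕ) := by omega
      exact_mod_cast this
  rw [h1, ← hq.pow_dvd_iff_le_factorization (Int.natAbs_ne_zero.mpr hb)]
  rw [← Int.natCast_dvd_natCast, Int.natCast_pow, Int.dvd_natAbs]

private theorem log_eq_sum (n a : ℕ) (hn : ∀ q : ℕ, q.Prime → q ∣ a → q < n) :
    Real.log (a : ℝ) = ∑ q : Fin n, (a.factorization (q : ℕ) : ℝ) * Real.log ((q : ℕ) : ℝ) := by
  rw [Real.log_nat_eq_sum_factorization, Finsupp.sum,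
    Fin.sum_univ_eq_sum_range (fun q => (a.factorization q : ℝ) * Real.log (q : ℝ)) n]
  apply Finset.sum_subset
  · intro p hp
    rw [Nat.support_factorization, Nat.mem_primeFactors] at hp
    exact Finset.mem_range.mpr (hn p hp.1 hp.2.1)
  · intro p _ hp
    rw [Finsupp.notMem_support_iff] at hp
    rw [hp]
    simp

/-- the distance as a sum over the primes below `n` -/
theorem dst_eq (n : ℕ) {b b' : ℤ} (hb : b ≠ 0) (hb' : b' ≠ 0)
    (hn : ∀ q : ℕ, q.Prime → ((q : ℤ) ∣ b ∨ (q : ℤ) ∣ b') → q < n) :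
    dst b b' = ∑ q : Fin n, |((vv n b q - vv n b' q : ℤ) : ℝ)| * Real.log (q : ℕ) := by
  have h1 : Real.log |(b : ℝ)| = Real.log ((b.natAbs : ℕ) : ℝ) := by
    rw [Nat.cast_natAbs, Int.cast_abs]
  have h2 : Real.log |(b' : ℝ)| = Real.log ((b'.natAbs : ℕ) : ℝ) := by
    rw [Nat.cast_natAbs, Int.cast_abs]
  have hb0 : b.natAbs ≠ 0 := Int.natAbs_ne_zero.mpr hb
  have hb0' : b'.natAbs ≠ 0 := Int.natAbs_ne_zero.mpr hb'
  have hg : Int.gcd b b' = Nat.gcd b.natAbs b'.natAbs := rfl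
  unfold dst
  rw [h1, h2, hg, log_eq_sum n _ (fun q hq hd => hn q hq (Or.inl (Int.natCast_dvd.mpr hd))),
    log_eq_sum n _ (fun q hq hd => hn q hq (Or.inr (Int.natCast_dvd.mpr hd))),
    log_eq_sum n _ (fun q hq hd => hn q hq (Or.inl (Int.natCast_dvd.mpr
      (hd.trans (Nat.gcd_dvd_left _ _))))),
    Finset.mul_sum, ← Finset.sum_add_distrib, ← Finset.sum_sub_distrib]
  apply Finset.sum_congr rfl
  intro q _
  rw [vv_eq_fact, vv_eq_fact, Nat.factorization_gcd hb0 hb0', Finsupp.inf_apply]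
  have h3 : ∀ x y : ℕ, ((x ⊓ y : ℕ) : ℝ) * 2 = (x : ℝ) + y - |(((x : ℤ) - (y : ℤ) : ℤ) : ℝ)| := by
    intro x y
    rcases le_total x y with h | h
    · have h' : (x : ℝ) ≤ y := by exact_mod_cast h
      rw [inf_eq_left.mpr h]
      push_cast
      rw [abs_of_nonpos (by linarith)]
      ring
    · have h' : (y : ℝ) ≤ x := by exact_mod_cast h
      rw [inf_eq_right.mpr h]
      push_cast
      rw [abs_of_nonneg (by linarith)]
      ring
  have h4 := h3 (b.natAbs.factorization (q : ℕ)) (b'.natAbs.factorization (q : ℕ))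
  have h5 : |(((b.natAbs.factorization (q : ℕ) : ℤ) - (b'.natAbs.factorization (q : ℕ) : ℤ) : ℤ)
      : ℝ)| = (b.natAbs.factorization (q : ℕ) : ℝ) + b'.natAbs.factorization (q : ℕ)
        - ((b.natAbs.factorization (q : ℕ) ⊓ b'.natAbs.factorization (q : ℕ) : ℕ) : ℝ) * 2 := by
    linarith
  rw [h5]
  ring

end Pool.Agent.Helper84.TR
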