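import Pool.Agent.Helper84.TR.Mass

/-!
# TR-7: conditional entropy of an event given an event
-/

set_option autoImplicit false

open Finset

namespace Pool.Agent.Helper84.TR

open Pool.Agent.Helper15.BP

variable {Ω Ω' α β γ δ : Type*} [Fintype Ω] [Fintype Ω']

private theorem ev_mass_congr (w : Ω → ℝ) {p q : Ω → Prop} (h : ∀ o, p o ↔ q o) :
    mass w p = mass w q := by
  have : p = q := funext fun o => propext (h o)
  rw [this]

private theorem ev_mass_nonneg {w : Ω → ℝ} (hw : IsPr w) (p : Ω → Prop) : 0 ≤ mass w p := by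
  classical
  unfold mass
  apply sum_nonneg
  intro o _
  split_ifs
  · exact hw.1 o
  · exact le_rfl

private theorem ev_pr_pair (w : Ω → ℝ) (J D : Ω → Prop) (x y : Prop) :
    pr w (fun o => (J o, D o)) (x, y) = mass w (fun o => (J o ↔ x) ∧ (D o ↔ y)) := by
  classical
  unfold pr mass
  apply sum_congr rfl
  intro o _
  congr 1
  simp [Prod.ext_iff]

private theorem ev_pr_one (w : Ω → ℝ) (D : Ω → Prop) (y : Prop) :
    pr w D y = mass w (fun o => (D o ↔ y)) := by
  classical
  unfold pr mass
  apply sum_congr rfl
  intro o _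
  congr 1
  simp

private theorem ev_split (w : Ω → ℝ) (J D : Ω → Prop) :
    mass w D = mass w (fun o => J o ∧ D o) + mass w (fun o => ¬ J o ∧ D o) := by
  classical
  unfold mass
  rw [← sum_add_distrib]
  apply sum_congr rfl
  intro o _
  by_cases hJ : J o <;> by_cases hD : D o <;> simp [hJ, hD]

private theorem ev_phi {x y : ℝ} (hx : 0 ≤ x) (hy : 0 ≤ y) :
    phi x y = x * (Real.log (x + y) - Real.log x) + y * (Real.log (x + y) - Real.log y) := by
  unfold phi
  rcases hx.eq_or_lt with h | h
  · rcases hy.eq_or_lt with h' | h'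
    · simp [← h, ← h']
    · rw [Real.log_div (by linarith) h'.ne', ← h]
      simp
  · rcases hy.eq_or_lt with h' | h'
    · rw [Real.log_div (by linarith) h.ne', ← h']
      simp
    · rw [Real.log_div (by linarith) h.ne', Real.log_div (by linarith) h'.ne']

theorem CE_event {w : Ω → ℝ} (hw : IsPr w) (J D : Ω → Prop) :
    CE w J D = phi (mass w (fun o => J o ∧ ¬ D o)) (mass w (fun o => ¬ J o ∧ ¬ D o)) +
      phi (mass w (fun o => J o ∧ D o)) (mass w (fun o => ¬ J o ∧ D o)) := by
  classical
  rw [ev_phi (ev_mass_nonneg hw _) (ev_mass_nonneg hw _),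
    ev_phi (ev_mass_nonneg hw _) (ev_mass_nonneg hw _)]
  have h1 := ev_split w J (fun o => ¬ D o)
  have h2 := ev_split w J D
  rw [← h1, ← h2]
  set a := mass w (fun o => J o ∧ ¬ D o) with ha
  set b := mass w (fun o => ¬ J o ∧ ¬ D o) with hb
  set c := mass w (fun o => J o ∧ D o) with hc
  set d := mass w (fun o => ¬ J o ∧ D o) with hd
  set e := mass w (fun o => ¬ D o) with he
  set g := mass w D with hg
  have key : ∀ o, w o * (-Real.log (pr w (fun o => (J o, D o)) (J o, D o))) -
      w o * (-Real.log (pr w D (D o))) =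
      (if J o ∧ ¬ D o then w o else 0) * (Real.log e - Real.log a) +
      (if ¬ J o ∧ ¬ D o then w o else 0) * (Real.log e - Real.log b) +
      ((if J o ∧ D o then w o else 0) * (Real.log g - Real.log c) +
      (if ¬ J o ∧ D o then w o else 0) * (Real.log g - Real.log d)) := by
    intro o
    rw [ev_pr_pair, ev_pr_one]
    by_cases hJ : J o <;> by_cases hD : D o
    · have e1 : mass w (fun o' => (J o' ↔ J o) ∧ (D o' ↔ D o)) = c :=
        ev_mass_congr w (by intro o'; simp [hJ, hD])
      have e2 : mass w (fun o' => (D o' ↔ D o)) = g := ev_mass_congr w (by intro o'; simp [hD])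
      rw [e1, e2]
      simp only [hJ, hD, not_true_eq_false, and_false, and_self, if_true, if_false, and_true]
      ring
    · have e1 : mass w (fun o' => (J o' ↔ J o) ∧ (D o' ↔ D o)) = a :=
        ev_mass_congr w (by intro o'; simp [hJ, hD])
      have e2 : mass w (fun o' => (D o' ↔ D o)) = e := ev_mass_congr w (by intro o'; simp [hD])
      rw [e1, e2]
      simp only [hJ, hD, not_true_eq_false, not_false_eq_true, and_false, and_self, if_true,
        if_false, and_true]
      ring
    · have e1 : mass w (fun o' => (J o' ↔ J o) ∧ (D o' ↔ D o)) = d :=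
        ev_mass_congr w (by intro o'; simp [hJ, hD])
      have e2 : mass w (fun o' => (D o' ↔ D o)) = g := ev_mass_congr w (by intro o'; simp [hD])
      rw [e1, e2]
      simp only [hJ, hD, not_true_eq_false, not_false_eq_true, and_false, and_self, if_true,
        if_false, and_true, false_and]
      ring
    · have e1 : mass w (fun o' => (J o' ↔ J o) ∧ (D o' ↔ D o)) = b :=
        ev_mass_congr w (by intro o'; simp [hJ, hD])
      have e2 : mass w (fun o' => (D o' ↔ D o)) = e := ev_mass_congr w (by intro o'; simp [hD])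
      rw [e1, e2]
      simp only [hJ, hD, not_true_eq_false, not_false_eq_true, and_false, and_self, if_true,
        if_false, and_true, false_and]
      ring
  have hs : CE w J D = ∑ o, (w o * (-Real.log (pr w (fun o => (J o, D o)) (J o, D o))) -
      w o * (-Real.log (pr w D (D o)))) := by
    unfold CE Ent
    rw [sum_sub_distrib]
  rw [hs, sum_congr rfl (fun o _ => key o), sum_add_distrib, sum_add_distrib, sum_add_distrib,
    ← sum_mul, ← sum_mul, ← sum_mul, ← sum_mul]
  have m1 : ∑ o, (if J o ∧ ¬ D o then w o else 0) = a := by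
    rw [ha]; unfold mass; exact sum_congr rfl fun o _ => by congr
  have m2 : ∑ o, (if ¬ J o ∧ ¬ D o then w o else 0) = b := by
    rw [hb]; unfold mass; exact sum_congr rfl fun o _ => by congr
  have m3 : ∑ o, (if J o ∧ D o then w o else 0) = c := by
    rw [hc]; unfold mass; exact sum_congr rfl fun o _ => by congr
  have m4 : ∑ o, (if ¬ J o ∧ D o then w o else 0) = d := by
    rw [hd]; unfold mass; exact sum_congr rfl fun o _ => by congr
  rw [m1, m2, m3, m4]

end Pool.Agent.Helper84.TR
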