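import Pool.Agent.Helper84.TR.CE

/-!
# TR-2: decomposition along the fibres of a function
-/

set_option autoImplicit false

open Finset

namespace Pool.Agent.Helper84.TR

open Pool.Agent.Helper15.BP

variable {Ω Ω' α β γ δ : Type*} [Fintype Ω] [Fintype Ω']

private theorem Fib_cw_of {w : Ω → ℝ} {A : Ω → α} {a : α} {o : Ω} (h : A o = a) :
    cw w A a o = w o / pr w A a := by
  unfold cw
  rw [if_pos h]

private theorem Fib_cw_of_not {w : Ω → ℝ} {A : Ω → α} {a : α} {o : Ω} (h : A o ≠ a) :
    cw w A a o = 0 := by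
  unfold cw
  rw [if_neg h]

private theorem Fib_pr_cw (w : Ω → ℝ) (A : Ω → α) (a : α) (f : Ω → β) (b : β) :
    pr (cw w A a) f b = pr w (fun o => (f o, A o)) (b, a) / pr w A a := by
  classical
  have h1 : pr (cw w A a) f b = ∑ o, if f o = b then cw w A a o else 0 := by
    unfold pr
    exact sum_congr rfl fun o _ => by split_ifs <;> rfl
  have h2 : pr w (fun o => (f o, A o)) (b, a) = ∑ o, if (f o, A o) = (b, a) then w o else 0 := by
    unfold pr
    exact sum_congr rfl fun o _ => by split_ifs <;> rfl
  rw [h1, h2, sum_div]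
  apply sum_congr rfl
  intro o _
  by_cases hf : f o = b
  · by_cases hA : A o = a
    · rw [if_pos hf, if_pos (by rw [hf, hA]), Fib_cw_of hA]
    · rw [if_pos hf, if_neg (fun h => hA (congrArg Prod.snd h)), Fib_cw_of_not hA, zero_div]
  · rw [if_neg hf, if_neg (fun h => hf (congrArg Prod.fst h)), zero_div]

private theorem Fib_zero {w : Ω → ℝ} (hw : IsPr w) {A : Ω → α} {a : α} (ha : pr w A a = 0)
    {o : Ω} (h : A o = a) : w o = 0 := by
  have h1 := le_pr hw A o
  rw [h, ha] at h1
  exact le_antisymm h1 (hw.nonneg o)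

private theorem Fib_sum [DecidableEq α] (A : Ω → α) (F : Ω → ℝ) :
    ∑ a ∈ univ.image A, ∑ o, (if A o = a then F o else 0) = ∑ o, F o := by
  rw [sum_comm]
  apply sum_congr rfl
  intro o _
  rw [sum_ite_eq, if_pos (mem_image_of_mem A (mem_univ o))]

/-- a weighted sum over the fibre -/
private theorem Fib_mul {w : Ω → ℝ} (hw : IsPr w) [DecidableEq α] (A : Ω → α) (a : α) (G : Ω → ℝ) :
    pr w A a * ∑ o, cw w A a o * G o = ∑ o, (if A o = a then w o * G o else 0) := by
  rw [mul_sum]
  apply sum_congr rfl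
  intro o _
  by_cases h : A o = a
  · rw [if_pos h, Fib_cw_of h]
    by_cases hp : pr w A a = 0
    · rw [Fib_zero hw hp h]
      simp
    · field_simp
  · rw [if_neg h, Fib_cw_of_not h]
    simp

theorem cw_isPr {w : Ω → ℝ} (hw : IsPr w) (A : Ω → α) (a : α) (ha : pr w A a ≠ 0) :
    IsPr (cw w A a) := by
  classical
  constructor
  · intro o
    by_cases h : A o = a
    · rw [Fib_cw_of h]
      exact div_nonneg (hw.nonneg o) (pr_nonneg hw A a)
    · rw [Fib_cw_of_not h]
  · have h1 := Fib_mul hw A a (fun _ => 1)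
    simp only [mul_one] at h1
    have h2 : ∑ o, (if A o = a then w o else 0) = pr w A a := by
      unfold pr
      exact sum_congr rfl fun o _ => by split_ifs <;> rfl
    rw [h2] at h1
    exact mul_left_cancel₀ ha (by rw [h1, mul_one])

theorem CE_fib [DecidableEq α] {w : Ω → ℝ} (hw : IsPr w) (f : Ω → β) (g : Ω → γ) (A : Ω → α) :
    CE w f (fun o => (g o, A o)) = ∑ a ∈ univ.image A, pr w A a * CE (cw w A a) f g := by
  rw [CE_eq_sum, ← Fib_sum A]
  apply sum_congr rfl
  intro a _
  rw [CE_eq_sum, Fib_mul hw A a]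
  apply sum_congr rfl
  intro o _
  by_cases h : A o = a
  · rw [if_pos h, if_pos h]
    rcases (hw.nonneg o).eq_or_lt with h0 | h0
    · rw [← h0, zero_mul, zero_mul]
    · congr 1
      have hp : 0 < pr w A a := by
        have := pr_pos hw A h0
        rwa [h] at this
      have h1 : 0 < pr w (fun o => (g o, A o)) (g o, a) := by
        have := pr_pos hw (fun o => (g o, A o)) h0
        simp only [h] at this
        exact this
      have h2 : 0 < pr w (fun o => ((f o, g o), A o)) ((f o, g o), a) := by
        have := pr_pos hw (fun o => ((f o, g o), A o)) h0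
        simp only [h] at this
        exact this
      have h3 : pr w (fun o => (f o, (g o, A o))) (f o, (g o, A o)) =
          pr w (fun o => ((f o, g o), A o)) ((f o, g o), a) := by
        have h4 := pr_congr (w := w) (f := fun o => (f o, (g o, A o)))
          (g := fun o => ((f o, g o), A o)) (fun o o' => by
            simp only [Prod.mk.injEq]
            tauto) o
        simp only [h] at h4 ⊢
        exact h4
      rw [Fib_pr_cw, Fib_pr_cw, Real.log_div h1.ne' hp.ne', Real.log_div h2.ne' hp.ne', h3, h]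
      ring
  · rw [if_neg h, if_neg h]

theorem Ent_fib [DecidableEq α] {w : Ω → ℝ} (hw : IsPr w) (f : Ω → β) (A : Ω → α) :
    CE w f A = ∑ a ∈ univ.image A, pr w A a * Ent (cw w A a) f := by
  have h1 : CE w f A = CE w f (fun o => ((), A o)) := by
    apply CE_congr
    · intro o o'
      simp
    · intro o o' _
      exact Iff.rfl
  rw [h1, CE_fib hw]
  apply sum_congr rfl
  intro a _
  by_cases ha : pr w A a = 0
  · rw [ha, zero_mul, zero_mul]
  · congr 1
    have hc := cw_isPr hw A a ha
    unfold CE
    have h2 : Ent (cw w A a) (fun _ : Ω => ()) = 0 := by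
      unfold Ent
      have h3 : pr (cw w A a) (fun _ : Ω => ()) () = 1 := by
        unfold pr
        rw [← hc.sum_one]
        exact sum_congr rfl fun o _ => by rw [if_pos rfl]
      apply sum_eq_zero
      intro o _
      rw [h3, Real.log_one, neg_zero, mul_zero]
    rw [h2, sub_zero]
    apply Ent_congr
    intro o o'
    simp

theorem mass_fib [DecidableEq α] {w : Ω → ℝ} (hw : IsPr w) (p : Ω → Prop) (A : Ω → α) :
    mass w p = ∑ a ∈ univ.image A, pr w A a * mass (cw w A a) p := by
  classical
  have h1 : ∀ v : Ω → ℝ, mass v p = ∑ o, v o * (if p o then 1 else 0) := by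
    intro v
    unfold mass
    apply sum_congr rfl
    intro o _
    by_cases h : p o
    · rw [if_pos h, if_pos h, mul_one]
    · rw [if_neg h, if_neg h, mul_zero]
  rw [h1 w, ← Fib_sum A]
  apply sum_congr rfl
  intro a _
  rw [h1, Fib_mul hw A a]

theorem sum_pr_one [DecidableEq α] {w : Ω → ℝ} (hw : IsPr w) (A : Ω → α) :
    ∑ a ∈ univ.image A, pr w A a = 1 := by
  have h := sum_w_comp w A (fun _ => (1 : ℝ))
  simp only [mul_one] at h
  rw [← h, hw.sum_one]

theorem cw_prod (w : Ω → ℝ) (w' : Ω' → ℝ) (A : Ω → α) (B : Ω' → β) (a : α) (b : β) :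
    cw (prodW w w') (fun p => (A p.1, B p.2)) (a, b) = prodW (cw w A a) (cw w' B b) := by
  funext p
  unfold prodW
  by_cases hA : A p.1 = a
  · by_cases hB : B p.2 = b
    · rw [Fib_cw_of hA, Fib_cw_of hB, Fib_cw_of (by rw [hA, hB])]
      have h1 : pr (fun p : Ω × Ω' => w p.1 * w' p.2) (fun p => (A p.1, B p.2)) (a, b) =
          pr w A a * pr w' B b := pr_prod w w' A B a b
      rw [h1, mul_div_mul_comm]
    · rw [Fib_cw_of_not hB, mul_zero, Fib_cw_of_not (fun h => hB (congrArg Prod.snd h))]
  · rw [Fib_cw_of_not hA, zero_mul, Fib_cw_of_not (fun h => hA (congrArg Prod.fst h))]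

end Pool.Agent.Helper84.TR
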