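import Pool.Agent.Helper84.TR.Defs

/-!
# TR-14: averages over the dithers
-/

set_option autoImplicit false

open Finset

namespace Pool.Agent.Helper84.TR

variable {n : ℕ}

theorem avg_mono (U : ℕ → ℕ) {F G : ((q : Fin n) → Fin (U q)) → ℝ} (h : ∀ θ, F θ ≤ G θ) :
    avg U F ≤ avg U G := by
  unfold avg
  exact div_le_div_of_nonneg_right (sum_le_sum fun θ _ => h θ)
    (prod_nonneg fun q _ => Nat.cast_nonneg _)

theorem avg_const (U : ℕ → ℕ) (hU : ∀ q, 0 < U q) (c : ℝ) :
    avg (n := n) U (fun _ => c) = c := by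
  have h : (∏ q : Fin n, (U q : ℝ)) ≠ 0 :=
    prod_ne_zero_iff.2 fun q _ => by exact_mod_cast (hU q).ne'
  unfold avg
  rw [sum_const, card_univ, Fintype.card_pi, nsmul_eq_mul, div_eq_iff h]
  simp only [Fintype.card_fin, Nat.cast_prod]
  ring

theorem avg_add (U : ℕ → ℕ) (F G : ((q : Fin n) → Fin (U q)) → ℝ) :
    avg U (fun θ => F θ + G θ) = avg U F + avg U G := by
  unfold avg
  rw [sum_add_distrib, add_div]

theorem avg_mul (U : ℕ → ℕ) (c : ℝ) (F : ((q : Fin n) → Fin (U q)) → ℝ) :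
    avg U (fun θ => c * F θ) = c * avg U F := by
  unfold avg
  rw [← mul_sum, mul_div_assoc]

theorem avg_sum {ι : Type*} (s : Finset ι) (U : ℕ → ℕ) (F : ι → ((q : Fin n) → Fin (U q)) → ℝ) :
    avg U (fun θ => ∑ i ∈ s, F i θ) = ∑ i ∈ s, avg U (F i) := by
  unfold avg
  rw [sum_comm, sum_div]

/-- averaging one coordinate first -/
theorem avg_update (U : ℕ → ℕ) (hU : ∀ q, 0 < U q) (F : ((q : Fin n) → Fin (U q)) → ℝ)
    (q : Fin n) :
    avg U F = avg U (fun θ => (∑ t : Fin (U q), F (Function.update θ q t)) / U q) := by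
  have key : ∑ θ : ((q : Fin n) → Fin (U q)), ∑ t : Fin (U q), F (Function.update θ q t) =
      (U q : ℝ) * ∑ θ, F θ := by
    rw [← Fintype.sum_prod_type' (f := fun θ t => F (Function.update θ q t))]
    have inv : Function.Involutive (fun x : ((q : Fin n) → Fin (U q)) × Fin (U q) =>
        (Function.update x.1 q x.2, x.1 q)) := by
      rintro ⟨θ, t⟩
      simp
    have e : ∑ x : ((q : Fin n) → Fin (U q)) × Fin (U q), F (Function.update x.1 q x.2) =
        ∑ x : ((q : Fin n) → Fin (U q)) × Fin (U q), F x.1 :=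
      Fintype.sum_equiv inv.toPerm _ _ (fun x => rfl)
    rw [e, Fintype.sum_prod_type]
    simp only [sum_const, card_univ, Fintype.card_fin, nsmul_eq_mul]
    rw [← mul_sum]
  have h : (U q : ℝ) ≠ 0 := by exact_mod_cast (hU q).ne'
  unfold avg
  rw [← sum_div, key, mul_div_cancel_left₀ _ h]

end Pool.Agent.Helper84.TR
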