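import Pool.Agent.Helper84.TR.Defs

/-!
# TR-1: conditional entropy, basic facts
-/

set_option autoImplicit false

open Finset

namespace Pool.Agent.Helper84.TR

open Pool.Agent.Helper15.BP

variable {Ω Ω' α β γ δ α' β' : Type*} [Fintype Ω] [Fintype Ω']

theorem CE_eq_sum (w : Ω → ℝ) (f : Ω → α) (g : Ω → β) :
    CE w f g = ∑ o, w o * (Real.log (pr w g (g o)) -
      Real.log (pr w (fun o => (f o, g o)) (f o, g o))) := by
  unfold CE Ent
  rw [← Finset.sum_sub_distrib]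
  refine Finset.sum_congr rfl fun o _ => ?_
  ring

theorem CE_congr {w : Ω → ℝ} {f : Ω → α} {f' : Ω → α'} {g : Ω → β} {g' : Ω → β'}
    (hg : ∀ o o', g o = g o' ↔ g' o = g' o')
    (hf : ∀ o o', g o = g o' → (f o = f o' ↔ f' o = f' o')) : CE w f g = CE w f' g' := by
  unfold CE
  rw [Ent_congr (f := g) (g := g') hg,
    Ent_congr (f := fun o => (f o, g o)) (g := fun o => (f' o, g' o)) ?_]
  intro o o'
  simp only [Prod.mk.injEq]
  constructor
  · rintro ⟨h1, h2⟩
    exact ⟨(hf o o' h2).1 h1, (hg o o').1 h2⟩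
  · rintro ⟨h1, h2⟩
    exact ⟨(hf o o' ((hg o o').2 h2)).2 h1, (hg o o').2 h2⟩

theorem CE_nonneg {w : Ω → ℝ} (hw : IsPr w) (f : Ω → α) (g : Ω → β) : 0 ≤ CE w f g := by
  unfold CE
  rw [sub_nonneg]
  exact Ent_mono hw fun o o' h => (Prod.mk.injEq _ _ _ _ ▸ h).2

/-- chain rule -/
theorem CE_chain (w : Ω → ℝ) (f : Ω → α) (f' : Ω → α') (g : Ω → β) :
    CE w (fun o => (f o, f' o)) g = CE w f' g + CE w f (fun o => (f' o, g o)) := by
  unfold CE
  rw [Ent_congr (f := fun o => ((f o, f' o), g o)) (g := fun o => (f o, (f' o, g o))) ?_]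
  · ring
  · intro o o'
    simp only [Prod.mk.injEq, and_assoc]

/-- conditioning on more -/
theorem CE_anti {w : Ω → ℝ} (hw : IsPr w) (f : Ω → α) {g : Ω → β} {g' : Ω → β'}
    (h : ∀ o o', g o = g o' → g' o = g' o') : CE w f g ≤ CE w f g' := by
  have h1 := Ent_submod hw f g g'
  have h2 : Ent w (fun o => (f o, g o, g' o)) = Ent w (fun o => (f o, g o)) :=
    Ent_congr fun o o' => by
      simp only [Prod.mk.injEq]
      exact ⟨fun hh => ⟨hh.1, hh.2.1⟩, fun hh => ⟨hh.1, hh.2, h o o' hh.2⟩⟩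
  have h3 : Ent w (fun o => (g o, g' o)) = Ent w g :=
    Ent_congr fun o o' => by
      simp only [Prod.mk.injEq]
      exact ⟨fun hh => hh.1, fun hh => ⟨hh, h o o' hh⟩⟩
  unfold CE
  linarith

/-- coarser functions -/
theorem CE_mono {w : Ω → ℝ} (hw : IsPr w) {f : Ω → α} {f' : Ω → α'} {g : Ω → β}
    (h : ∀ o o', g o = g o' → f o = f o' → f' o = f' o') : CE w f' g ≤ CE w f g := by
  unfold CE
  have h1 : Ent w (fun o => (f' o, g o)) ≤ Ent w (fun o => (f o, g o)) :=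
    Ent_mono hw fun o o' hh => by
      simp only [Prod.mk.injEq] at hh ⊢
      exact ⟨h o o' hh.2 hh.1, hh.2⟩
  linarith

theorem CE_le_Ent {w : Ω → ℝ} (hw : IsPr w) (f : Ω → α) (g : Ω → β) : CE w f g ≤ Ent w f := by
  have h1 := CE_anti hw f (g := g) (g' := fun _ => ()) fun _ _ _ => rfl
  have h2 : CE w f (fun _ => ()) = Ent w f := by
    unfold CE
    rw [Ent_const hw, sub_zero]
    exact Ent_congr fun o o' => by simp
  rw [h2] at h1
  exact h1

theorem CE_pair_le {w : Ω → ℝ} (hw : IsPr w) (f : Ω → α) (f' : Ω → α') (g : Ω → β) :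
    CE w (fun o => (f o, f' o)) g ≤ CE w f g + CE w f' g := by
  rw [CE_chain]
  have h1 := CE_anti hw f (g := fun o => (f' o, g o)) (g' := g) fun o o' hh =>
    (Prod.mk.injEq _ _ _ _ ▸ hh).2
  linarith

/-- information on the other factor of a product does not help -/
theorem CE_prod_fst {w : Ω → ℝ} {w' : Ω' → ℝ} (hw : IsPr w) (hw' : IsPr w') (f : Ω → α)
    (g : Ω → β) (g' : Ω' → γ) :
    CE (prodW w w') (fun p => f p.1) (fun p => (g p.1, g' p.2)) = CE w f g := by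
  unfold CE
  rw [Ent_prod hw hw' g g',
    Ent_congr (f := fun p : Ω × Ω' => (f p.1, (g p.1, g' p.2)))
      (g := fun p : Ω × Ω' => ((f p.1, g p.1), g' p.2)) ?_,
    Ent_prod hw hw' (fun o => (f o, g o)) g']
  · ring
  · intro o o'
    simp only [Prod.mk.injEq, and_assoc]

theorem CE_prod_snd {w : Ω → ℝ} {w' : Ω' → ℝ} (hw : IsPr w) (hw' : IsPr w') (f : Ω' → α)
    (g : Ω → β) (g' : Ω' → γ) :
    CE (prodW w w') (fun p => f p.2) (fun p => (g p.1, g' p.2)) = CE w' f g' := by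
  unfold CE
  rw [Ent_prod hw hw' g g',
    Ent_congr (f := fun p : Ω × Ω' => (f p.2, (g p.1, g' p.2)))
      (g := fun p : Ω × Ω' => (g p.1, (f p.2, g' p.2))) ?_,
    Ent_prod hw hw' g (fun o => (f o, g' o))]
  · ring
  · intro o o'
    simp only [Prod.mk.injEq]
    tauto

/-- at most `N` values on every fibre -/
theorem CE_le_log {w : Ω → ℝ} (hw : IsPr w) (f : Ω → α) (g : Ω → β) (N : ℕ)
    (hN : ∀ o, {a : α | ∃ o', g o' = g o ∧ f o' = a}.ncard ≤ N) :
    CE w f g ≤ Real.log N := by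
  unfold CE
  have h1 := Ent_le_add_log hw f g N hN
  linarith

end Pool.Agent.Helper84.TR
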