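import Pool.Agent.Helper84.TR.CE

/-!
# TR-13: the chain rule over the columns, for fixed dithers
-/

set_option autoImplicit false

open Finset

namespace Pool.Agent.Helper84.TR

open Pool.Agent.Helper15.BP

private theorem labs_eq_iff {Ω : Type*} {n : ℕ} (U : ℕ → ℕ) (θ : (q : Fin n) → Fin (U q)) (p : ℕ)
    (X : Ω → Fin n → ℤ) (o o' : Ω) :
    labs U θ p X o = labs U θ p X o' ↔
      ∀ q : Fin n, (q : ℕ) < p → lb (U q) (θ q) (X o q) = lb (U q) (θ q) (X o' q) := by
  constructor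
  · intro h q hq
    have h1 := congrFun h q
    simpa only [labs, if_pos hq] using h1
  · intro h
    funext q
    by_cases hq : (q : ℕ) < p
    · simpa only [labs, if_pos hq] using h q hq
    · simp only [labs, if_neg hq]

private theorem labs_succ_iff {Ω : Type*} {n : ℕ} (U : ℕ → ℕ) (θ : (q : Fin n) → Fin (U q)) (p : Fin n)
    (X : Ω → Fin n → ℤ) (o o' : Ω) :
    labs U θ (p + 1) X o = labs U θ (p + 1) X o' ↔
      lb (U p) (θ p) (X o p) = lb (U p) (θ p) (X o' p) ∧
        labs U θ p X o = labs U θ p X o' := by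
  rw [labs_eq_iff, labs_eq_iff]
  constructor
  · intro h
    exact ⟨h p (Nat.lt_succ_self _), fun q hq => h q (Nat.lt_succ_of_lt hq)⟩
  · rintro ⟨h1, h2⟩ q hq
    rcases Nat.lt_succ_iff_lt_or_eq.mp hq with h3 | h3
    · exact h2 q h3
    · have h4 : q = p := Fin.ext h3
      subst h4
      exact h1

private theorem filter_succ {n : ℕ} (p : Fin n) :
    (univ.filter (fun q : Fin n => (q : ℕ) < (p : ℕ) + 1)) =
      insert p (univ.filter (fun q : Fin n => (q : ℕ) < (p : ℕ))) := by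
  ext q
  simp only [mem_filter, mem_univ, true_and, mem_insert]
  rw [Nat.lt_succ_iff_lt_or_eq, or_comm]
  exact or_congr Fin.val_inj Iff.rfl

private theorem notMem_filter_self {n : ℕ} (p : Fin n) :
    p ∉ (univ.filter (fun q : Fin n => (q : ℕ) < (p : ℕ))) := by
  simp

private theorem filter_all {n : ℕ} :
    (univ.filter (fun q : Fin n => (q : ℕ) < n)) = univ := by
  ext q
  simp

variable {Ω Ω' α β γ δ : Type*} [Fintype Ω] [Fintype Ω']

theorem chain_pair {n : ℕ} {w : Ω → ℝ} {w' : Ω' → ℝ} (hw : IsPr w) (hw' : IsPr w')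
    (X : Ω → Fin n → ℤ) (Z : Ω' → Fin n → ℤ) (U : ℕ → ℕ) (θ φ : (q : Fin n) → Fin (U q)) :
    CE (prodW w w') (fun p => (labs U θ n X p.1, labs U φ n Z p.2))
        (fun p => X p.1 + Z p.2) ≤
      ∑ q : Fin n, CE (prodW w w')
        (fun p => (lb (U q) (θ q) (X p.1 q), lb (U q) (φ q) (Z p.2 q)))
        (fun p => (X p.1 q + Z p.2 q, labs U θ q X p.1, labs U φ q Z p.2)) := by
  have hW : IsPr (prodW w w') := IsPr.prod hw hw'
  have key : ∀ p : ℕ, p ≤ n →
      CE (prodW w w') (fun pt => (labs U θ p X pt.1, labs U φ p Z pt.2))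
        (fun pt => X pt.1 + Z pt.2) ≤
      ∑ q ∈ univ.filter (fun q : Fin n => (q : ℕ) < p), CE (prodW w w')
        (fun pt => (lb (U q) (θ q) (X pt.1 q), lb (U q) (φ q) (Z pt.2 q)))
        (fun pt => (X pt.1 q + Z pt.2 q, labs U θ q X pt.1, labs U φ q Z pt.2)) := by
    intro p
    induction p with
    | zero =>
      intro _
      have h0 : CE (prodW w w') (fun pt => (labs U θ 0 X pt.1, labs U φ 0 Z pt.2))
          (fun pt => X pt.1 + Z pt.2) = 0 := by
        unfold CE
        rw [sub_eq_zero]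
        apply Ent_congr
        intro o o'
        constructor
        · intro h
          exact (Prod.ext_iff.mp h).2
        · intro h
          refine Prod.ext (Prod.ext ?_ ?_) h
          · exact (labs_eq_iff U θ 0 X o.1 o'.1).mpr (fun q hq => absurd hq (Nat.not_lt_zero _))
          · exact (labs_eq_iff U φ 0 Z o.2 o'.2).mpr (fun q hq => absurd hq (Nat.not_lt_zero _))
      rw [h0]
      simp
    | succ p ih =>
      intro hp
      have hpn : p < n := hp
      have ih' := ih (Nat.le_of_lt hpn)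
      have hf := filter_succ (⟨p, hpn⟩ : Fin n)
      have hnm := notMem_filter_self (⟨p, hpn⟩ : Fin n)
      have e1 : CE (prodW w w')
          (fun pt => (labs U θ (p + 1) X pt.1, labs U φ (p + 1) Z pt.2))
          (fun pt => X pt.1 + Z pt.2) =
          CE (prodW w w')
          (fun pt => ((lb (U p) (θ ⟨p, hpn⟩) (X pt.1 ⟨p, hpn⟩),
              lb (U p) (φ ⟨p, hpn⟩) (Z pt.2 ⟨p, hpn⟩)),
            (labs U θ p X pt.1, labs U φ p Z pt.2)))
          (fun pt => X pt.1 + Z pt.2) := by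
        apply CE_congr
        · intro o o'
          exact Iff.rfl
        · intro o o' _
          have h1 := labs_succ_iff U θ ⟨p, hpn⟩ X o.1 o'.1
          have h2 := labs_succ_iff U φ ⟨p, hpn⟩ Z o.2 o'.2
          simp only [Prod.mk.injEq]
          constructor
          · rintro ⟨h3, h4⟩
            have h5 := h1.mp h3
            have h6 := h2.mp h4
            exact ⟨⟨h5.1, h6.1⟩, h5.2, h6.2⟩
          · rintro ⟨⟨h3, h4⟩, h5, h6⟩
            exact ⟨h1.mpr ⟨h3, h5⟩, h2.mpr ⟨h4, h6⟩⟩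
      have e2 := CE_chain (prodW w w')
          (fun pt : Ω × Ω' => (lb (U p) (θ ⟨p, hpn⟩) (X pt.1 ⟨p, hpn⟩),
              lb (U p) (φ ⟨p, hpn⟩) (Z pt.2 ⟨p, hpn⟩)))
          (fun pt : Ω × Ω' => (labs U θ p X pt.1, labs U φ p Z pt.2))
          (fun pt : Ω × Ω' => X pt.1 + Z pt.2)
      have e3 : CE (prodW w w')
          (fun pt : Ω × Ω' => (lb (U p) (θ ⟨p, hpn⟩) (X pt.1 ⟨p, hpn⟩),
              lb (U p) (φ ⟨p, hpn⟩) (Z pt.2 ⟨p, hpn⟩)))
          (fun pt : Ω × Ω' => ((labs U θ p X pt.1, labs U φ p Z pt.2), X pt.1 + Z pt.2)) ≤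
          CE (prodW w w')
          (fun pt : Ω × Ω' => (lb (U p) (θ ⟨p, hpn⟩) (X pt.1 ⟨p, hpn⟩),
              lb (U p) (φ ⟨p, hpn⟩) (Z pt.2 ⟨p, hpn⟩)))
          (fun pt : Ω × Ω' => (X pt.1 ⟨p, hpn⟩ + Z pt.2 ⟨p, hpn⟩,
            labs U θ p X pt.1, labs U φ p Z pt.2)) := by
        apply CE_anti hW
        intro o o' h
        have h1 := (Prod.ext_iff.mp h).1
        have h2 := (Prod.ext_iff.mp h).2
        have h3 : X o.1 ⟨p, hpn⟩ + Z o.2 ⟨p, hpn⟩ = X o'.1 ⟨p, hpn⟩ + Z o'.2 ⟨p, hpn⟩ :=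
          congrFun h2 ⟨p, hpn⟩
        exact Prod.ext h3 h1
      rw [e1, e2]
      have hs : (∑ q ∈ univ.filter (fun q : Fin n => (q : ℕ) < p + 1), CE (prodW w w')
          (fun pt => (lb (U q) (θ q) (X pt.1 q), lb (U q) (φ q) (Z pt.2 q)))
          (fun pt => (X pt.1 q + Z pt.2 q, labs U θ q X pt.1, labs U φ q Z pt.2))) =
          CE (prodW w w')
          (fun pt : Ω × Ω' => (lb (U p) (θ ⟨p, hpn⟩) (X pt.1 ⟨p, hpn⟩),
              lb (U p) (φ ⟨p, hpn⟩) (Z pt.2 ⟨p, hpn⟩)))
          (fun pt : Ω × Ω' => (X pt.1 ⟨p, hpn⟩ + Z pt.2 ⟨p, hpn⟩,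
            labs U θ p X pt.1, labs U φ p Z pt.2)) +
          ∑ q ∈ univ.filter (fun q : Fin n => (q : ℕ) < p), CE (prodW w w')
          (fun pt => (lb (U q) (θ q) (X pt.1 q), lb (U q) (φ q) (Z pt.2 q)))
          (fun pt => (X pt.1 q + Z pt.2 q, labs U θ q X pt.1, labs U φ q Z pt.2)) := by
        have hf' : (univ.filter (fun q : Fin n => (q : ℕ) < p + 1)) =
          insert ⟨p, hpn⟩ (univ.filter (fun q : Fin n => (q : ℕ) < p)) := hf
        rw [hf', sum_insert hnm]
      rw [hs]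
      linarith
  have hfin := key n le_rfl
  rw [filter_all] at hfin
  exact hfin

theorem chain_one {n : ℕ} {w : Ω → ℝ} (hw : IsPr w) (X : Ω → Fin n → ℤ) (U : ℕ → ℕ)
    (θ : (q : Fin n) → Fin (U q)) :
    ∑ q : Fin n, CE w (fun o => lb (U q) (θ q) (X o q)) (labs U θ q X) ≤ Ent w X := by
  have key : ∀ p : ℕ, p ≤ n →
      ∑ q ∈ univ.filter (fun q : Fin n => (q : ℕ) < p),
        CE w (fun o => lb (U q) (θ q) (X o q)) (labs U θ q X) = Ent w (labs U θ p X) := by
    intro p
    induction p with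
    | zero =>
      intro _
      have h0 : Ent w (labs U θ 0 X) = 0 := by
        have h1 : Ent w (labs U θ 0 X) = Ent w (fun _ : Ω => (0 : ℕ)) := by
          apply Ent_congr
          intro o o'
          constructor
          · intro _
            rfl
          · intro _
            exact (labs_eq_iff U θ 0 X o o').mpr (fun q hq => absurd hq (Nat.not_lt_zero _))
        rw [h1]
        exact Ent_const hw 0
      rw [h0]
      simp
    | succ p ih =>
      intro hp
      have hpn : p < n := hp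
      have ih' := ih (Nat.le_of_lt hpn)
      have hf' : (univ.filter (fun q : Fin n => (q : ℕ) < p + 1)) =
          insert ⟨p, hpn⟩ (univ.filter (fun q : Fin n => (q : ℕ) < p)) :=
        filter_succ (⟨p, hpn⟩ : Fin n)
      have hnm := notMem_filter_self (⟨p, hpn⟩ : Fin n)
      rw [hf', sum_insert hnm, ih']
      have h1 : Ent w (fun o => (lb (U p) (θ ⟨p, hpn⟩) (X o ⟨p, hpn⟩), labs U θ p X o)) =
          Ent w (labs U θ (p + 1) X) := by
        apply Ent_congr
        intro o o'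
        rw [labs_succ_iff U θ ⟨p, hpn⟩ X o o']
        exact Prod.mk.injEq _ _ _ _ ▸ Iff.rfl
      have h2 : CE w (fun o => lb (U p) (θ ⟨p, hpn⟩) (X o ⟨p, hpn⟩)) (labs U θ p X) =
          Ent w (fun o => (lb (U p) (θ ⟨p, hpn⟩) (X o ⟨p, hpn⟩), labs U θ p X o)) -
            Ent w (labs U θ p X) := rfl
      have h3 : CE w (fun o => lb (U (⟨p, hpn⟩ : Fin n)) (θ ⟨p, hpn⟩) (X o ⟨p, hpn⟩))
          (labs U θ (⟨p, hpn⟩ : Fin n) X) =
          CE w (fun o => lb (U p) (θ ⟨p, hpn⟩) (X o ⟨p, hpn⟩)) (labs U θ p X) := rfl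
      rw [h3, h2, h1]
      ring
  have hfin := key n le_rfl
  rw [filter_all] at hfin
  rw [hfin]
  apply Ent_mono hw
  intro o o' h
  rw [labs_eq_iff]
  intro q _
  rw [h]

end Pool.Agent.Helper84.TR
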