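import Pool.Agent.Helper84.TR.Defs

/-!
# TR-6: numerical inequalities
-/

set_option autoImplicit false

namespace Pool.Agent.Helper84.TR

private theorem num_eq {x y : ℝ} (hx : 0 ≤ x) (hy : 0 ≤ y) :
    phi x y = (x + y) * Real.log (x + y) - x * Real.log x - y * Real.log y := by
  unfold phi
  rcases hx.eq_or_lt with rfl | hx
  · rcases hy.eq_or_lt with rfl | hy
    · simp
    · rw [zero_add, div_self hy.ne']
      simp
  · rcases hy.eq_or_lt with rfl | hy
    · rw [add_zero, div_self hx.ne']
      simp
    · rw [Real.log_div (by positivity) hx.ne', Real.log_div (by positivity) hy.ne']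
      ring

private theorem num_comm {x y : ℝ} : phi x y = phi y x := by
  unfold phi
  rw [add_comm x y, add_comm (x * _)]

private theorem num_zero_left (y : ℝ) : phi 0 y = 0 := by
  unfold phi
  rw [zero_mul, zero_add, zero_add]
  rcases eq_or_ne y 0 with rfl | h
  · simp
  · rw [div_self h, Real.log_one, mul_zero]

/-- increments of a convex function -/
private theorem num_incr {x y d : ℝ} (hx : 0 ≤ x) (hy : 0 ≤ y) (hd : 0 ≤ d) :
    (x + y) * Real.log (x + y) + (x + d) * Real.log (x + d) ≤
      x * Real.log x + (x + y + d) * Real.log (x + y + d) := by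
  rcases hy.eq_or_lt with rfl | hy
  · rw [add_zero]
  have hc := Real.convexOn_mul_log.2 (x := x) (y := x + y + d) (Set.mem_Ici.2 hx)
    (Set.mem_Ici.2 (by linarith))
  have h1 := hc (a := d / (y + d)) (b := y / (y + d)) (by positivity) (by positivity)
    (by field_simp; ring)
  have h2 := hc (a := y / (y + d)) (b := d / (y + d)) (by positivity) (by positivity)
    (by field_simp)
  simp only [smul_eq_mul] at h1 h2
  rw [show d / (y + d) * x + y / (y + d) * (x + y + d) = x + y by field_simp; ring] at h1
  rw [show y / (y + d) * x + d / (y + d) * (x + y + d) = x + d by field_simp; ring] at h2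
  have h3 : d / (y + d) + y / (y + d) = 1 := by field_simp; ring
  have h4 : d / (y + d) * (x * Real.log x) + y / (y + d) * (x * Real.log x) = x * Real.log x := by
    rw [← add_mul, h3, one_mul]
  have h5 : d / (y + d) * ((x + y + d) * Real.log (x + y + d)) +
      y / (y + d) * ((x + y + d) * Real.log (x + y + d)) =
      (x + y + d) * Real.log (x + y + d) := by
    rw [← add_mul, h3, one_mul]
  linarith

private theorem num_mono_left {x x' y : ℝ} (hx : 0 ≤ x) (hx' : x ≤ x') (hy : 0 ≤ y) :
    phi x y ≤ phi x' y := by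
  have h := num_incr (x := x) (y := y) (d := x' - x) hx hy (by linarith)
  rw [show x + (x' - x) = x' by ring, show x + y + (x' - x) = x' + y by ring] at h
  rw [num_eq hx hy, num_eq (hx.trans hx') hy]
  linarith

private theorem num_smul {c x y : ℝ} (hc : 0 < c) : phi (c * x) (c * y) = c * phi x y := by
  unfold phi
  rw [← mul_add, mul_div_mul_left _ _ hc.ne', mul_div_mul_left _ _ hc.ne']
  ring

theorem phi_mono {x x' y y' : ℝ} (hx : 0 ≤ x) (hx' : x ≤ x') (hy : 0 ≤ y) (hy' : y ≤ y') :
    phi x y ≤ phi x' y' := by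
  refine (num_mono_left hx hx' hy).trans ?_
  rw [num_comm (x := x') (y := y), num_comm (x := x') (y := y')]
  exact num_mono_left hy hy' (hx.trans hx')

theorem phi_add_le {x y y' : ℝ} (hx : 0 ≤ x) (hy : 0 ≤ y) (hy' : 0 ≤ y') :
    phi x (y + y') ≤ phi x y + phi x y' := by
  rcases hy.eq_or_lt with rfl | hy
  · rw [zero_add, num_comm (x := x) (y := 0), num_zero_left, zero_add]
  rcases hy'.eq_or_lt with rfl | hy'
  · rw [add_zero, num_comm (x := x) (y := 0), num_zero_left, add_zero]
  have key : ∀ z : ℝ, 0 < z → z ≤ y + y' → z * phi (x / (y + y')) 1 ≤ phi x z := by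
    intro z hz hz'
    have h1 : phi x z = z * phi (x / z) 1 := by
      rw [← num_smul hz, mul_one, mul_div_cancel₀ x hz.ne']
    rw [h1]
    apply mul_le_mul_of_nonneg_left _ hz.le
    apply num_mono_left (by positivity) _ zero_le_one
    exact div_le_div_of_nonneg_left hx hz hz'
  have h2 := key y hy (by linarith)
  have h3 := key y' hy' (by linarith)
  have h4 : phi x (y + y') = (y + y') * phi (x / (y + y')) 1 := by
    rw [← num_smul (by positivity), mul_one, mul_div_cancel₀ x (by positivity)]
  rw [h4]
  linarith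

private theorem num_log_le {t : ℝ} (ht : 0 ≤ t) : Real.log (1 + t) ≤ 2 * Real.sqrt t := by
  have h1 : Real.log (1 + t) = 2 * Real.log (Real.sqrt (1 + t)) := by
    rw [Real.log_sqrt (by linarith)]
    ring
  have h2 : Real.log (Real.sqrt (1 + t)) ≤ Real.sqrt (1 + t) - 1 :=
    Real.log_le_sub_one_of_pos (Real.sqrt_pos.2 (by linarith))
  have h3 : Real.sqrt (1 + t) ≤ 1 + Real.sqrt t := by
    rw [Real.sqrt_le_left (by positivity)]
    nlinarith [Real.sqrt_nonneg t, Real.sq_sqrt ht]
  rw [h1]
  linarith

/-- `b log (1 / b)` is at most the entropy -/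
private theorem num_ent {b : ℝ} (hb : 0 ≤ b) (hb1 : b ≤ 1 / 2) :
    b * Real.log b⁻¹ ≤ Real.binEntropy b := by
  unfold Real.binEntropy
  have h1 : 0 ≤ Real.log (1 - b)⁻¹ := by
    apply Real.log_nonneg
    apply (one_le_inv₀ (by linarith)).2
    linarith
  have h2 : 0 ≤ (1 - b) * Real.log (1 - b)⁻¹ := mul_nonneg (by linarith) h1
  linarith

private theorem num_half {a : ℝ} (ha : 0 ≤ a) (ha1 : a ≤ 1 / 2) : a ≤ 2 * Real.binEntropy a := by
  rcases ha.eq_or_lt with rfl | ha
  · simp
  have h1 := num_ent ha.le ha1
  have h2 : (1 : ℝ) / 2 ≤ Real.log a⁻¹ := by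
    have h3 : Real.log 2 ≤ Real.log a⁻¹ := by
      apply Real.log_le_log (by norm_num)
      rw [le_inv_comm₀ (by norm_num) ha]
      linarith
    have := Real.log_two_gt_d9
    linarith
  nlinarith

/-- the inequality behind the test `X + Z ≥ v + 2 m - 1` for `Z ≥ u` -/
theorem phi_num (η : ℝ) (hη : 0 < η) : ∃ σ : ℝ, 0 < σ ∧ σ ≤ 1 / 2 ∧
    (∀ b : ℝ, 0 ≤ b → b ≤ σ → b ≤ η * Real.binEntropy b) ∧
    ∀ b b' am ap : ℝ, 0 ≤ b → b ≤ σ → b ≤ b' → b' ≤ 1 → 0 ≤ am → am ≤ 1 / 2 → 0 ≤ ap → ap ≤ 1 / 2 →
      phi (b * am) 1 + phi b (b' + ap) ≤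
        η * (Real.binEntropy am + Real.binEntropy ap + Real.binEntropy b) + 5 * b' := by
  set e : ℝ := min (η / 10) 1 with he
  have he0 : 0 < e := by
    rw [he]
    positivity
  have he1 : e ≤ 1 := min_le_right _ _
  have he2 : e ≤ η / 10 := min_le_left _ _
  set M : ℝ := 1 / η + (Real.log (1 + 1 / e ^ 2) + 1) / η with hM
  have hlog0 : 0 ≤ Real.log (1 + 1 / e ^ 2) := by
    apply Real.log_nonneg
    have : 0 ≤ 1 / e ^ 2 := by positivity
    linarith
  set σ : ℝ := min (1 / 2) (min (η / 2) (min (η ^ 2 / 64) (Real.exp (-M)))) with hσ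
  have s0 : 0 < σ := by
    rw [hσ]
    have := Real.exp_pos (-M)
    positivity
  have s1 : σ ≤ 1 / 2 := min_le_left _ _
  have s2 : σ ≤ η / 2 := (min_le_right _ _).trans (min_le_left _ _)
  have s3 : σ ≤ η ^ 2 / 64 :=
    (min_le_right _ _).trans ((min_le_right _ _).trans (min_le_left _ _))
  have s4 : σ ≤ Real.exp (-M) :=
    (min_le_right _ _).trans ((min_le_right _ _).trans (min_le_right _ _))
  -- the logarithm is large
  have hL : ∀ b : ℝ, 0 < b → b ≤ σ → M ≤ Real.log b⁻¹ := by
    intro b hb hbσ
    rw [Real.log_inv]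
    have : Real.log b ≤ -M := by
      rw [Real.log_le_iff_le_exp hb]
      exact hbσ.trans s4
    linarith
  have hM1 : 1 / η ≤ M := by
    have : 0 ≤ (Real.log (1 + 1 / e ^ 2) + 1) / η := by positivity
    rw [hM]
    linarith
  have hM2 : (Real.log (1 + 1 / e ^ 2) + 1) / η ≤ M := by
    have : 0 ≤ 1 / η := by positivity
    rw [hM]
    linarith
  have big : ∀ b : ℝ, 0 ≤ b → b ≤ σ → ∀ T : ℝ, T / η ≤ M → b * T ≤ η * Real.binEntropy b := by
    intro b hb hbσ T hT
    rcases hb.eq_or_lt with rfl | hb
    · simp
    have h1 := num_ent hb.le (hbσ.trans s1)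
    have h2 : T / η ≤ Real.log b⁻¹ := hT.trans (hL b hb hbσ)
    rw [div_le_iff₀ hη] at h2
    calc b * T ≤ b * (Real.log b⁻¹ * η) := mul_le_mul_of_nonneg_left h2 hb.le
      _ = η * (b * Real.log b⁻¹) := by ring
      _ ≤ η * Real.binEntropy b := mul_le_mul_of_nonneg_left h1 hη.le
  refine ⟨σ, s0, s1, fun b hb hbσ => ?_, ?_⟩
  · have := big b hb hbσ 1 hM1
    linarith
  intro b b' am ap hb hbσ hbb' hb' ham ham1 hap hap1
  have eam : 0 ≤ Real.binEntropy am := Real.binEntropy_nonneg ham (by linarith)
  have eap : 0 ≤ Real.binEntropy ap := Real.binEntropy_nonneg hap (by linarith)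
  have eb : 0 ≤ Real.binEntropy b := Real.binEntropy_nonneg hb (by linarith)
  rcases hb.eq_or_lt with rfl | hb
  · rw [zero_mul, num_zero_left, num_zero_left]
    have h1 : 0 ≤ η * (Real.binEntropy am + Real.binEntropy ap + Real.binEntropy 0) := by
      positivity
    linarith
  -- first term
  have f1 : phi (b * am) 1 ≤ η * Real.binEntropy am + b' := by
    rcases ham.eq_or_lt with rfl | ham
    · rw [mul_zero, num_zero_left]
      simp only [Real.binEntropy_zero]
      linarith
    have hu : 0 < b * am := by positivity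
    have g1 : phi (b * am) 1 = (b * am + 1) * Real.log (b * am + 1) +
        b * (am * Real.log am⁻¹) + am * (b * Real.log b⁻¹) := by
      rw [num_eq hu.le zero_le_one, Real.log_mul hb.ne' ham.ne', Real.log_inv, Real.log_inv,
        Real.log_one]
      ring
    have g2 : (b * am + 1) * Real.log (b * am + 1) ≤ b := by
      have h1 : Real.log (b * am + 1) ≤ b * am := by
        have := Real.log_le_sub_one_of_pos (show 0 < b * am + 1 by linarith)
        linarith
      have h2 : (b * am + 1) * Real.log (b * am + 1) ≤ (b * am + 1) * (b * am) :=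
        mul_le_mul_of_nonneg_left h1 (by linarith)
      have h3 : b * am ≤ b * (1 / 2) := mul_le_mul_of_nonneg_left ham1 hb.le
      have h4 : b * am ≤ 1 := by nlinarith
      nlinarith
    have g3 : b * (am * Real.log am⁻¹) ≤ η / 2 * Real.binEntropy am := by
      have h1 := num_ent ham.le ham1
      have h2 : 0 ≤ am * Real.log am⁻¹ := by
        apply mul_nonneg ham.le
        apply Real.log_nonneg
        apply (one_le_inv₀ ham).2
        linarith
      calc b * (am * Real.log am⁻¹) ≤ (η / 2) * (am * Real.log am⁻¹) :=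
            mul_le_mul_of_nonneg_right (hbσ.trans s2) h2
        _ ≤ η / 2 * Real.binEntropy am := mul_le_mul_of_nonneg_left h1 (by positivity)
    have g4 : b * Real.log b⁻¹ ≤ η / 4 := by
      have h1 : Real.log b⁻¹ ≤ 2 * (Real.sqrt b)⁻¹ := by
        have h2 : Real.log b⁻¹ = 2 * Real.log (Real.sqrt b)⁻¹ := by
          rw [Real.log_inv, Real.log_inv, Real.log_sqrt hb.le]
          ring
        have h3 := Real.log_le_sub_one_of_pos (inv_pos.2 (Real.sqrt_pos.2 hb))
        rw [h2]
        linarith
      have h4 : b * Real.log b⁻¹ ≤ 2 * Real.sqrt b := by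
        calc b * Real.log b⁻¹ ≤ b * (2 * (Real.sqrt b)⁻¹) := mul_le_mul_of_nonneg_left h1 hb.le
          _ = 2 * (b * (Real.sqrt b)⁻¹) := by ring
          _ = 2 * Real.sqrt b := by
            have h5 := Real.mul_self_sqrt hb.le
            have h6 : Real.sqrt b ≠ 0 := (Real.sqrt_pos.2 hb).ne'
            congr 1
            rw [← div_eq_mul_inv, div_eq_iff h6]
            exact h5.symm
      have h7 : Real.sqrt b ≤ η / 8 := by
        rw [Real.sqrt_le_left (by positivity)]
        have := hbσ.trans s3
        nlinarith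
      linarith
    have g5 : am * (b * Real.log b⁻¹) ≤ η / 2 * Real.binEntropy am := by
      have h1 := num_half ham.le ham1
      calc am * (b * Real.log b⁻¹) ≤ am * (η / 4) := mul_le_mul_of_nonneg_left g4 ham.le
        _ ≤ (2 * Real.binEntropy am) * (η / 4) := mul_le_mul_of_nonneg_right h1 (by positivity)
        _ = η / 2 * Real.binEntropy am := by ring
    rw [g1]
    linarith
  -- second term
  have f2 : phi b b' ≤ 2 * b' := by
    have h1 := num_mono_left hb.le hbb' (hb.le.trans hbb')
    have hb'0 : 0 < b' := hb.trans_le hbb'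
    have h2 : phi b' b' = 2 * b' * Real.log 2 := by
      unfold phi
      rw [show (b' + b') / b' = 2 by field_simp; norm_num]
      ring
    have h3 := Real.log_two_lt_d9
    rw [h2] at h1
    nlinarith
  have f3 : phi b ap ≤ η * Real.binEntropy ap + η * Real.binEntropy b := by
    rcases hap.eq_or_lt with rfl | hap
    · rw [num_comm, num_zero_left]
      positivity
    have h1 : phi b ap ≤ b * Real.log (1 + ap / b) + b := by
      unfold phi
      rw [show (b + ap) / b = 1 + ap / b by field_simp, show (b + ap) / ap = 1 + b / ap by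
        field_simp; ring]
      have h2 := Real.log_le_sub_one_of_pos (show 0 < 1 + b / ap by positivity)
      have h3 : ap * Real.log (1 + b / ap) ≤ ap * (b / ap) :=
        mul_le_mul_of_nonneg_left (by linarith) hap.le
      rw [mul_div_cancel₀ b hap.ne'] at h3
      linarith
    rcases le_or_gt b (e ^ 2 * ap) with hc | hc
    · have h4 : b * Real.log (1 + ap / b) ≤ 2 * e * ap := by
        have h5 := num_log_le (t := ap / b) (by positivity)
        have h6 : b * Real.sqrt (ap / b) ≤ e * ap := by
          have h7 : b * Real.sqrt (ap / b) = Real.sqrt (b * ap) := by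
            rw [show b * ap = b ^ 2 * (ap / b) by field_simp, Real.sqrt_mul (by positivity),
              Real.sqrt_sq hb.le]
          rw [h7, Real.sqrt_le_left (by positivity)]
          nlinarith
        calc b * Real.log (1 + ap / b) ≤ b * (2 * Real.sqrt (ap / b)) :=
              mul_le_mul_of_nonneg_left h5 hb.le
          _ = 2 * (b * Real.sqrt (ap / b)) := by ring
          _ ≤ 2 * (e * ap) := by linarith
          _ = 2 * e * ap := by ring
      have h8 : b ≤ e * ap := by
        refine hc.trans ?_
        have : e ^ 2 ≤ e := by nlinarith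
        exact mul_le_mul_of_nonneg_right this hap.le
      have h10 := num_half hap.le hap1
      have h11 : 3 * e * ap ≤ η * Real.binEntropy ap := by
        calc 3 * e * ap ≤ 3 * (η / 10) * ap :=
              mul_le_mul_of_nonneg_right (by linarith) hap.le
          _ ≤ 3 * (η / 10) * (2 * Real.binEntropy ap) :=
              mul_le_mul_of_nonneg_left h10 (by positivity)
          _ ≤ η * Real.binEntropy ap := by
            have : 0 ≤ η * Real.binEntropy ap := by positivity
            linarith
      have h12 : 0 ≤ η * Real.binEntropy b := by positivity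
      linarith
    · have h4 : ap / b ≤ 1 / e ^ 2 := by
        rw [div_le_div_iff₀ hb (by positivity)]
        linarith
      have h5 : Real.log (1 + ap / b) ≤ Real.log (1 + 1 / e ^ 2) := by
        apply Real.log_le_log (by positivity)
        linarith
      have h6 := big b hb.le hbσ _ hM2
      have h7 : b * Real.log (1 + ap / b) ≤ b * Real.log (1 + 1 / e ^ 2) :=
        mul_le_mul_of_nonneg_left h5 hb.le
      have h8 : 0 ≤ η * Real.binEntropy ap := by positivity
      linarith
  have f4 := phi_add_le hb.le (hb.le.trans hbb') hap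
  linarith

end Pool.Agent.Helper84.TR
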