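import Pool.Agent.Helper84.TR.Mass

/-!
# TR-5: thresholds seen by the dithered labels

`lb U t x ≥ (v + r + t) / U` iff `x ≥ v + r` when `U ∣ v + r + t`; `r ↦ t = (-(v + r)) mod U` is a
bijection of `range U`.  `P (X ≤ v - r) = 1 - P (X ≥ v - r + 1)`.
-/

set_option autoImplicit false

open Finset

namespace Pool.Agent.Helper84.TR

open Pool.Agent.Helper15.BP

variable {Ω Ω' α β γ δ : Type*} [Fintype Ω] [Fintype Ω']

/-- the dither which sees the threshold `v + r` -/
private def thT (U : ℕ) (v : ℤ) (r : ℕ) : ℕ := ((-(v + r)) % (U : ℤ)).toNat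

private theorem thT_cast {U : ℕ} (hU : 0 < U) (v : ℤ) (r : ℕ) :
    ((thT U v r : ℕ) : ℤ) = (-(v + r)) % (U : ℤ) := by
  unfold thT
  exact Int.toNat_of_nonneg (Int.emod_nonneg _ (by omega))

private theorem thT_lt {U : ℕ} (hU : 0 < U) (v : ℤ) (r : ℕ) : thT U v r < U := by
  have h1 := thT_cast hU v r
  have h2 : (-(v + r)) % (U : ℤ) < (U : ℤ) := Int.emod_lt_of_pos _ (by exact_mod_cast hU)
  rw [← h1] at h2
  exact_mod_cast h2

private theorem thT_dvd {U : ℕ} (hU : 0 < U) (v : ℤ) (r : ℕ) :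
    v + r + (thT U v r : ℤ) = (-((-(v + r)) / (U : ℤ))) * (U : ℤ) := by
  rw [thT_cast hU, Int.emod_def]
  ring

private theorem thT_event {U : ℕ} (hU : 0 < U) (v : ℤ) (r : ℕ) (x : ℤ) :
    v + r ≤ x ↔ -((-(v + r)) / (U : ℤ)) ≤ lb U (thT U v r) x := by
  unfold lb
  rw [Int.le_ediv_iff_mul_le (by exact_mod_cast hU), ← thT_dvd hU]
  constructor
  · intro h; linarith
  · intro h; linarith

private theorem thT_inj {U : ℕ} (hU : 0 < U) (v : ℤ) :
    Set.InjOn (thT U v) (range U : Finset ℕ) := by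
  intro r hr r' hr' h
  rw [mem_coe, mem_range] at hr hr'
  have h1 := thT_dvd hU v r
  have h2 := thT_dvd hU v r'
  rw [h] at h1
  have h3 : (r : ℤ) - r' = ((-((-(v + r)) / (U : ℤ))) - (-((-(v + r')) / (U : ℤ)))) * (U : ℤ) := by
    rw [sub_mul, ← h1, ← h2]
    ring
  have h4 : (U : ℤ) ∣ (r : ℤ) - r' := Dvd.intro_left _ h3.symm
  have h5 : |(r : ℤ) - r'| < (U : ℤ) := by
    rw [abs_lt]
    constructor
    · have : (r' : ℤ) < U := by exact_mod_cast hr'
      have : (0 : ℤ) ≤ r := Int.natCast_nonneg r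
      linarith
    · have : (r : ℤ) < U := by exact_mod_cast hr
      have : (0 : ℤ) ≤ r' := Int.natCast_nonneg r'
      linarith
  have h6 := Int.eq_zero_of_abs_lt_dvd h4 h5
  omega

/-- the thresholds `v, v + 1, .., v + U - 1` are all seen by the labels -/
theorem thr {w : Ω → ℝ} (hw : IsPr w) (U : ℕ) (hU : 0 < U) (X : Ω → ℤ) (v : ℤ) :
    ∑ r ∈ range U, Real.binEntropy (mass w (fun o => v + r ≤ X o)) ≤
      ∑ t ∈ range U, Ent w (fun o => lb U t (X o)) := by
  have h1 : ∀ r ∈ range U, Real.binEntropy (mass w (fun o => v + r ≤ X o)) ≤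
      Ent w (fun o => lb U (thT U v r) (X o)) := by
    intro r _
    rw [← Ent_event hw]
    apply Ent_mono hw
    intro o o' h
    have h' : lb U (thT U v r) (X o) = lb U (thT U v r) (X o') := h
    apply propext
    rw [thT_event hU v r (X o), thT_event hU v r (X o'), h']
  have h2 : ∑ r ∈ range U, Ent w (fun o => lb U (thT U v r) (X o)) =
      ∑ t ∈ (range U).image (thT U v), Ent w (fun o => lb U t (X o)) :=
    (sum_image (f := fun t : ℕ => Ent w (fun o => lb U t (X o))) (thT_inj hU v)).symm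
  refine (sum_le_sum h1).trans ?_
  rw [h2]
  apply sum_le_sum_of_subset_of_nonneg
  · intro t ht
    rw [mem_image] at ht
    obtain ⟨r, _, rfl⟩ := ht
    exact mem_range.2 (thT_lt hU v r)
  · intro t _ _
    exact Ent_nonneg hw _

theorem thr_low {w : Ω → ℝ} (hw : IsPr w) (U : ℕ) (hU : 0 < U) (X : Ω → ℤ) (v : ℤ) :
    ∑ r ∈ range U, Real.binEntropy (mass w (fun o => X o ≤ v - r)) ≤
      ∑ t ∈ range U, Ent w (fun o => lb U t (X o)) := by
  refine le_trans (le_of_eq ?_) (thr hw U hU X (v - U + 2))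
  rw [← sum_range_reflect (fun r : ℕ => Real.binEntropy
    (mass w (fun o => (v - U + 2) + (r : ℤ) ≤ X o))) U]
  apply sum_congr rfl
  intro r hr
  rw [mem_range] at hr
  rw [← Real.binEntropy_one_sub, ← mass_not hw]
  have hc : ((U - 1 - r : ℕ) : ℤ) = (U : ℤ) - 1 - r := by omega
  rw [hc]
  have h : (fun o => ¬ X o ≤ v - r) = (fun o => v - U + 2 + ((U : ℤ) - 1 - r) ≤ X o) := by
    funext o
    apply propext
    constructor
    · intro h'
      have := not_le.1 h'
      omega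
    · intro h'
      rw [not_le]
      omega
  rw [h]

end Pool.Agent.Helper84.TR
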