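import Pool.Agent.Helper84.TR.Sec
import Pool.Agent.Helper84.TR.Thr
import Pool.Agent.Helper84.TR.Num

/-!
# TR-10: the second part of the column lemma, summed

`∑_t mass (U - t ≤ Z) ≤ lam + σ U` and `≤ lam + η ∑ binEntropy ..` (`phi_num`, `thr` with base point 1).
-/

set_option autoImplicit false

open Finset

namespace Pool.Agent.Helper84.TR

open Pool.Agent.Helper15.BP

/-- the second part, summed -/
theorem cl_second (η : ℝ) (hη : 0 < η) : ∃ (σ : ℝ) (K : ℕ), 0 < σ ∧ σ ≤ 1 / 2 ∧
    ∀ {Ω Ω' : Type} [Fintype Ω] [Fintype Ω'] (w : Ω → ℝ) (w' : Ω' → ℝ), IsPr w → IsPr w' →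
      ∀ (X : Ω → ℤ) (Z : Ω' → ℤ) (U lam : ℕ), 0 < U → K * lam ≤ U → (∀ o, 0 ≤ Z o) →
      mass w' (fun o => (lam : ℤ) < Z o) ≤ σ →
      ∑ t ∈ range U, CE (prodW w w') (fun p => lb U t (Z p.2))
          (fun p => (X p.1 + Z p.2, ((U : ℤ) - t ≤ Z p.2))) ≤
        η * (∑ t ∈ range U, Ent w (fun o => lb U t (X o)) +
          ∑ t ∈ range U, Ent w' (fun o => lb U t (Z o))) + lam := by
  obtain ⟨σ0, h0, h0', hb, -⟩ := phi_num η hη
  refine ⟨min σ0 (η / 2), ⌈2 / η⌉₊, lt_min h0 (by positivity), (min_le_left _ _).trans h0', ?_⟩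
  intro Ω Ω' _ _ w w' hw hw' X Z U lam hU hK hZ hm
  have hUr : (0 : ℝ) < U := by exact_mod_cast hU
  set EX : ℝ := ∑ t ∈ range U, Ent w (fun o => lb U t (X o)) with hEX
  set EZ : ℝ := ∑ t ∈ range U, Ent w' (fun o => lb U t (Z o)) with hEZ
  have hEX0 : 0 ≤ EX := sum_nonneg fun t _ => Ent_nonneg hw _
  have hEZ0 : 0 ≤ EZ := sum_nonneg fun t _ => Ent_nonneg hw' _
  set S : ℝ := ∑ t ∈ range U, mass w' (fun o => (U : ℤ) - t ≤ Z o) with hS
  -- every dither
  have h1 : ∑ t ∈ range U, CE (prodW w w') (fun p => lb U t (Z p.2))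
      (fun p => (X p.1 + Z p.2, ((U : ℤ) - t ≤ Z p.2))) ≤ S * (EX / U + Real.log 2) := by
    rw [hS, sum_mul]
    exact sum_le_sum fun t ht => second hw hw' X Z hZ U t hU (mem_range.1 ht)
  -- the thresholds `1, .., U`
  have h2 : S = ∑ r ∈ range U, mass w' (fun o => (1 : ℤ) + r ≤ Z o) := by
    rw [hS, ← sum_range_reflect]
    apply sum_congr rfl
    intro r hr
    rw [mem_range] at hr
    have hc : ((U - 1 - r : ℕ) : ℤ) = (U : ℤ) - 1 - r := by omega
    rw [hc]
    congr 1
    funext o
    apply propext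
    constructor
    · intro h; linarith
    · intro h; linarith
  have hcount : ∑ r ∈ range U, (if r < lam then (1 : ℝ) else 0) ≤ lam := by
    rw [← sum_filter, sum_const, nsmul_eq_mul, mul_one]
    have : ((range U).filter (fun r => r < lam)).card ≤ lam := by
      calc ((range U).filter (fun r => r < lam)).card ≤ (range lam).card := by
            apply card_le_card
            intro r hr
            exact mem_range.2 (mem_filter.1 hr).2
        _ = lam := card_range lam
    exact_mod_cast this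
  have hsmall : ∀ r : ℕ, ¬ r < lam → mass w' (fun o => (1 : ℤ) + r ≤ Z o) ≤ min σ0 (η / 2) := by
    intro r hr
    refine le_trans (mass_mono hw' ?_) hm
    intro o ho
    have : (lam : ℤ) ≤ r := by exact_mod_cast not_lt.1 hr
    linarith
  have h3 : S ≤ lam + (η / 2) * U := by
    have h4 : S ≤ ∑ r ∈ range U, ((if r < lam then (1 : ℝ) else 0) + η / 2) := by
      rw [h2]
      apply sum_le_sum
      intro r _
      by_cases hr : r < lam
      · rw [if_pos hr]
        have := mass_le_one hw' (fun o => (1 : ℤ) + r ≤ Z o)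
        linarith
      · rw [if_neg hr]
        have := (hsmall r hr).trans (min_le_right _ _)
        linarith
    rw [sum_add_distrib, sum_const, card_range, nsmul_eq_mul] at h4
    linarith
  have h5 : S ≤ lam + η * EZ := by
    have h6 : S ≤ ∑ r ∈ range U, ((if r < lam then (1 : ℝ) else 0) +
        η * Real.binEntropy (mass w' (fun o => (1 : ℤ) + r ≤ Z o))) := by
      rw [h2]
      apply sum_le_sum
      intro r _
      have hnn := mass_nonneg hw' (fun o => (1 : ℤ) + r ≤ Z o)
      have hle := mass_le_one hw' (fun o => (1 : ℤ) + r ≤ Z o)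
      have hbe := Real.binEntropy_nonneg hnn hle
      by_cases hr : r < lam
      · rw [if_pos hr]
        have : 0 ≤ η * Real.binEntropy (mass w' (fun o => (1 : ℤ) + r ≤ Z o)) := by positivity
        linarith
      · rw [if_neg hr, zero_add]
        exact hb _ hnn ((hsmall r hr).trans (min_le_left _ _))
    rw [sum_add_distrib, ← mul_sum] at h6
    have h7 := mul_le_mul_of_nonneg_left (thr hw' U hU Z 1) hη.le
    linarith
  have hS0 : 0 ≤ S := sum_nonneg fun t _ => mass_nonneg hw' _
  -- the resolution is much larger than `lam`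
  have h8 : (lam : ℝ) ≤ (η / 2) * U := by
    have h9 : (2 / η) * lam ≤ U := by
      calc (2 / η) * lam ≤ (⌈2 / η⌉₊ : ℝ) * lam := by
            apply mul_le_mul_of_nonneg_right (Nat.le_ceil _) (Nat.cast_nonneg _)
        _ ≤ U := by exact_mod_cast hK
    have h10 := mul_le_mul_of_nonneg_left h9 (show (0 : ℝ) ≤ η / 2 by positivity)
    have h11 : η / 2 * (2 / η * lam) = lam := by field_simp
    linarith
  have h12 : S * (EX / U) ≤ η * EX := by
    have h13 : S ≤ η * U := by linarith
    calc S * (EX / U) ≤ (η * U) * (EX / U) :=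
          mul_le_mul_of_nonneg_right h13 (by positivity)
      _ = η * EX := by field_simp
  have h14 : S * Real.log 2 ≤ lam + η * EZ := by
    have h15 := Real.log_two_lt_d9
    have h16 : S * Real.log 2 ≤ S * 1 := mul_le_mul_of_nonneg_left (by linarith) hS0
    linarith
  rw [mul_add] at h1
  linarith

end Pool.Agent.Helper84.TR
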