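import Pool.Agent.Helper84.TR.CE

/-!
# TR-3: the complementary dither

`lb U t (X)` is determined by `X + Z = s` and `lb U t' (Z)` with `t' = U - 1 - ((s + t) mod U)`:
`X + t = s + t - Z`, so `lb U t X = (s + t) / U - lb U t' Z`; and `t ↦ t'` permutes `range U` for
every `s`.
-/

set_option autoImplicit false

open Finset

namespace Pool.Agent.Helper84.TR

open Pool.Agent.Helper15.BP

variable {Ω Ω' α β γ δ : Type*} [Fintype Ω] [Fintype Ω']

/-- `lb U t x = (x + z + t) / U - lb U (U - 1 - ((x + z + t) mod U)) z` -/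
theorem lb_compl (U : ℕ) (hU : 0 < U) (t : ℕ) (x z : ℤ) :
    lb U t x = (x + z + t) / (U : ℤ) - lb U (U - 1 - ((x + z + t) % (U : ℤ)).toNat) z := by
  have hU' : (0 : ℤ) < (U : ℤ) := by exact_mod_cast hU
  unfold lb
  set s : ℤ := x + z + t with hs
  have hr0 : 0 ≤ s % (U : ℤ) := Int.emod_nonneg _ hU'.ne'
  have hr1 : s % (U : ℤ) < U := Int.emod_lt_of_pos _ hU'
  have hqr : (U : ℤ) * (s / U) + s % U = s := Int.mul_ediv_add_emod s U
  have hcast : ((U - 1 - (s % (U : ℤ)).toNat : ℕ) : ℤ) = U - 1 - s % U := by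
    have h1 : ((s % (U : ℤ)).toNat : ℤ) = s % U := Int.toNat_of_nonneg hr0
    omega
  rw [hcast]
  set y : ℤ := z + (U - 1 - s % U) with hy
  have hp0 : 0 ≤ y % (U : ℤ) := Int.emod_nonneg _ hU'.ne'
  have hp1 : y % (U : ℤ) < U := Int.emod_lt_of_pos _ hU'
  have hpq : (U : ℤ) * (y / U) + y % U = y := Int.mul_ediv_add_emod y U
  have hmul : (U : ℤ) * (s / U - y / U) = U * (s / U) - U * (y / U) := by ring
  refine ((Int.ediv_emod_unique (a := x + t) (b := U) (q := s / U - y / U)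
    (r := x + t - U * (s / U - y / U)) hU').2 ⟨by ring, ?_, ?_⟩).1
  · rw [hmul]; linarith
  · rw [hmul]; linarith

theorem comp_dither (w : Ω → ℝ) (U : ℕ) (hU : 0 < U) (X Z : Ω → ℤ) (C : Ω → γ) :
    ∑ t ∈ range U, CE w (fun o => lb U t (X o)) (fun o => (X o + Z o, C o)) =
      ∑ t ∈ range U, CE w (fun o => lb U t (Z o)) (fun o => (X o + Z o, C o)) := by
  classical
  have hU' : (0 : ℤ) < (U : ℤ) := by exact_mod_cast hU
  simp only [CE_eq_sum]
  rw [Finset.sum_comm]
  rw [Finset.sum_comm (s := range U)]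
  refine Finset.sum_congr rfl fun o _ => ?_
  rw [← Finset.mul_sum, ← Finset.mul_sum, Finset.sum_sub_distrib, Finset.sum_sub_distrib]
  congr 2
  set s : ℤ := X o + Z o with hs
  refine Finset.sum_nbij' (fun t => U - 1 - ((s + t) % (U : ℤ)).toNat)
    (fun t => (((U : ℤ) - 1 - t - s) % (U : ℤ)).toNat) ?_ ?_ ?_ ?_ ?_
  · intro t _
    rw [Finset.mem_range]
    omega
  · intro t _
    rw [Finset.mem_range]
    have h0 : 0 ≤ ((U : ℤ) - 1 - t - s) % (U : ℤ) := Int.emod_nonneg _ hU'.ne'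
    have h1 : ((U : ℤ) - 1 - t - s) % (U : ℤ) < U := Int.emod_lt_of_pos _ hU'
    omega
  · intro t ht
    rw [Finset.mem_range] at ht
    have hr0 : 0 ≤ (s + t) % (U : ℤ) := Int.emod_nonneg _ hU'.ne'
    have hr1 : (s + t) % (U : ℤ) < U := Int.emod_lt_of_pos _ hU'
    have hqr : (U : ℤ) * ((s + t) / U) + (s + t) % U = s + t := Int.mul_ediv_add_emod _ _
    have hcast : ((U - 1 - ((s + t) % (U : ℤ)).toNat : ℕ) : ℤ) = U - 1 - (s + t) % U := by
      have h1 : (((s + t) % (U : ℤ)).toNat : ℤ) = (s + t) % U := Int.toNat_of_nonneg hr0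
      omega
    simp only [hcast]
    have h2 : (U : ℤ) - 1 - (U - 1 - (s + t) % U) - s = t + U * (-((s + t) / U)) := by
      linarith
    rw [h2, Int.add_mul_emod_self_left, Int.emod_eq_of_lt (by omega) (by omega)]
    simp
  · intro t ht
    rw [Finset.mem_range] at ht
    have hr0 : 0 ≤ ((U : ℤ) - 1 - t - s) % (U : ℤ) := Int.emod_nonneg _ hU'.ne'
    have hr1 : ((U : ℤ) - 1 - t - s) % (U : ℤ) < U := Int.emod_lt_of_pos _ hU'
    have hqr : (U : ℤ) * (((U : ℤ) - 1 - t - s) / U) + ((U : ℤ) - 1 - t - s) % U =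
      (U : ℤ) - 1 - t - s := Int.mul_ediv_add_emod _ _
    have hcast : (((((U : ℤ) - 1 - t - s) % (U : ℤ)).toNat : ℕ) : ℤ) =
        ((U : ℤ) - 1 - t - s) % U := Int.toNat_of_nonneg hr0
    simp only [hcast]
    have h2 : s + ((U : ℤ) - 1 - t - s) % U =
        (U - 1 - t : ℤ) + U * (-(((U : ℤ) - 1 - t - s) / U)) := by linarith
    rw [h2, Int.add_mul_emod_self_left, Int.emod_eq_of_lt (by omega) (by omega)]
    omega
  · intro t ht
    congr 1
    have hkey : ∀ o' : Ω, X o' + Z o' = s →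
        lb U t (X o') = (s + t) / (U : ℤ) -
          lb U (U - 1 - ((s + t) % (U : ℤ)).toNat) (Z o') := by
      intro o' ho'
      rw [lb_compl U hU t (X o') (Z o'), ho']
    unfold pr
    refine Finset.sum_congr rfl fun o' _ => ?_
    have hiff : ((lb U t (X o'), (X o' + Z o', C o')) = (lb U t (X o), (s, C o))) ↔
        ((lb U (U - 1 - ((s + t) % (U : ℤ)).toNat) (Z o'), (X o' + Z o', C o')) =
          (lb U (U - 1 - ((s + t) % (U : ℤ)).toNat) (Z o), (s, C o))) := by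
      simp only [Prod.mk.injEq]
      constructor
      · rintro ⟨h1, h2, h3⟩
        refine ⟨?_, h2, h3⟩
        rw [hkey o' h2, hkey o rfl] at h1
        linarith
      · rintro ⟨h1, h2, h3⟩
        refine ⟨?_, h2, h3⟩
        rw [hkey o' h2, hkey o rfl, h1]
    by_cases hx : (lb U t (X o'), (X o' + Z o', C o')) = (lb U t (X o), (s, C o))
    · rw [if_pos hx, if_pos (hiff.1 hx)]
    · rw [if_neg hx, if_neg fun h' => hx (hiff.2 h')]

end Pool.Agent.Helper84.TR
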