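import Pool.Agent.Helper84.TR.ClTest
import Pool.Agent.Helper84.TR.ClSec
import Pool.Agent.Helper84.TR.Dith

/-!
# TR-11: the column lemma, unconditional form

If `mass (lam < Z) ≤ σ`: `CE_chain` with the event `U - t ≤ Z` (a function of `lb U t Z` as `Z ≥ 0`), `cl_test`,
`cl_second`.  Otherwise `comp_dither` and `CE_le_Ent`.
-/

set_option autoImplicit false

open Finset

namespace Pool.Agent.Helper84.TR

open Pool.Agent.Helper15.BP

private theorem lb_event {U t : ℕ} (hU : 0 < U) {z : ℤ} :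
    ((U : ℤ) - t ≤ z) ↔ 1 ≤ lb U t z := by
  have hU' : (0 : ℤ) < U := by exact_mod_cast hU
  unfold lb
  rw [Int.le_ediv_iff_mul_le hU']
  constructor <;> intro h <;> linarith

/-- the label of `Z` given the sum, split with the event `U - t ≤ Z` -/
private theorem split {Ω Ω' : Type} [Fintype Ω] [Fintype Ω'] (w : Ω → ℝ) (w' : Ω' → ℝ)
    (X : Ω → ℤ) (Z : Ω' → ℤ) (U t : ℕ) (hU : 0 < U) :
    CE (prodW w w') (fun p => lb U t (Z p.2)) (fun p => X p.1 + Z p.2) =
      CE (prodW w w') (fun p => ((U : ℤ) - t ≤ Z p.2)) (fun p => X p.1 + Z p.2) +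
      CE (prodW w w') (fun p => lb U t (Z p.2))
          (fun p => (X p.1 + Z p.2, ((U : ℤ) - t ≤ Z p.2))) := by
  have h1 : CE (prodW w w') (fun p => lb U t (Z p.2)) (fun p => X p.1 + Z p.2) =
      CE (prodW w w') (fun p => (lb U t (Z p.2), ((U : ℤ) - t ≤ Z p.2)))
        (fun p => X p.1 + Z p.2) := by
    refine CE_congr (fun o o' => Iff.rfl) fun o o' _ => ?_
    constructor
    · intro h
      refine Prod.ext h ?_
      simp only
      rw [eq_iff_iff, lb_event hU, lb_event hU, h]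
    · intro h
      exact (Prod.mk.inj h).1
  rw [h1, CE_chain]
  congr 1
  refine CE_congr (fun o o' => ?_) fun o o' _ => Iff.rfl
  constructor
  · intro h
    exact Prod.ext (Prod.mk.inj h).2 (Prod.mk.inj h).1
  · intro h
    exact Prod.ext (Prod.mk.inj h).2 (Prod.mk.inj h).1

/-- **the column lemma** (`X` arbitrary) -/
theorem cl (η : ℝ) (hη : 0 < η) : ∃ (σ : ℝ) (K : ℕ), 0 < σ ∧
    ∀ {Ω Ω' : Type} [Fintype Ω] [Fintype Ω'] (w : Ω → ℝ) (w' : Ω' → ℝ), IsPr w → IsPr w' →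
      ∀ (X : Ω → ℤ) (Z : Ω' → ℤ) (U lam : ℕ), 0 < U → K * lam ≤ U → (∀ o, 0 ≤ Z o) →
      ∑ t ∈ range U, CE (prodW w w') (fun p => lb U t (Z p.2)) (fun p => X p.1 + Z p.2) ≤
        (η + mass w' (fun o => (lam : ℤ) < Z o) / σ) * ∑ t ∈ range U, Ent w (fun o => lb U t (X o))
          + η * ∑ t ∈ range U, Ent w' (fun o => lb U t (Z o)) + 5 * lam := by
  obtain ⟨σ₁, hσ₁, -, h₁⟩ := cl_test (η / 2) (by linarith)
  obtain ⟨σ₂, K, hσ₂, -, h₂⟩ := cl_second (η / 2) (by linarith)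
  refine ⟨min σ₁ σ₂, K, lt_min hσ₁ hσ₂, ?_⟩
  intro Ω Ω' _ _ w w' hw hw' X Z U lam hU hK hZ
  have hEX : 0 ≤ ∑ t ∈ range U, Ent w (fun o => lb U t (X o)) :=
    Finset.sum_nonneg fun t _ => Ent_nonneg hw _
  have hEZ : 0 ≤ ∑ t ∈ range U, Ent w' (fun o => lb U t (Z o)) :=
    Finset.sum_nonneg fun t _ => Ent_nonneg hw' _
  have hσ : 0 < min σ₁ σ₂ := lt_min hσ₁ hσ₂
  have hm : 0 ≤ mass w' (fun o => (lam : ℤ) < Z o) := mass_nonneg hw' _
  have hlam : (0 : ℝ) ≤ lam := Nat.cast_nonneg _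
  by_cases hc : mass w' (fun o => (lam : ℤ) < Z o) ≤ min σ₁ σ₂
  · have e1 := h₁ w w' hw hw' X Z U lam hU hZ (hc.trans (min_le_left _ _))
    have e2 := h₂ w w' hw hw' X Z U lam hU hK hZ (hc.trans (min_le_right _ _))
    rw [Finset.sum_congr rfl fun t _ => split w w' X Z U t hU,
      Finset.sum_add_distrib]
    have e3 : 0 ≤ mass w' (fun o => (lam : ℤ) < Z o) / min σ₁ σ₂ *
        ∑ t ∈ range U, Ent w (fun o => lb U t (X o)) := mul_nonneg (div_nonneg hm hσ.le) hEX
    nlinarith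
  · push Not at hc
    have e1 := comp_dither (prodW w w') U hU (fun p => X p.1) (fun p => Z p.2)
      (fun _ => ())
    have e2 : ∀ (f : Ω × Ω' → ℤ), CE (prodW w w') f (fun p => (X p.1 + Z p.2, ())) =
        CE (prodW w w') f (fun p => X p.1 + Z p.2) := by
      intro f
      refine CE_congr (fun o o' => ?_) fun o o' _ => Iff.rfl
      constructor
      · intro h
        exact (Prod.mk.inj h).1
      · intro h
        exact Prod.ext h rfl
    have e3 : ∑ t ∈ range U, CE (prodW w w') (fun p => lb U t (Z p.2))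
        (fun p => X p.1 + Z p.2) ≤ ∑ t ∈ range U, Ent w (fun o => lb U t (X o)) := by
      rw [← Finset.sum_congr rfl fun t _ => e2 (fun p => lb U t (Z p.2)), ← e1]
      refine Finset.sum_le_sum fun t _ => ?_
      refine (CE_le_Ent (hw.prod hw') _ _).trans (le_of_eq ?_)
      exact Ent_fst hw' (fun o => lb U t (X o))
    have e4 : 1 ≤ mass w' (fun o => (lam : ℤ) < Z o) / min σ₁ σ₂ := by
      rw [le_div_iff₀ hσ, one_mul]
      exact hc.le
    have e5 : ∑ t ∈ range U, Ent w (fun o => lb U t (X o)) ≤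
        mass w' (fun o => (lam : ℤ) < Z o) / min σ₁ σ₂ *
        ∑ t ∈ range U, Ent w (fun o => lb U t (X o)) := le_mul_of_one_le_left hEX e4
    have e6 : 0 ≤ η * ∑ t ∈ range U, Ent w (fun o => lb U t (X o)) := mul_nonneg hη.le hEX
    have e7 : 0 ≤ η * ∑ t ∈ range U, Ent w' (fun o => lb U t (Z o)) := mul_nonneg hη.le hEZ
    nlinarith

end Pool.Agent.Helper84.TR
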