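import Pool.Agent.Helper84.TR.Test
import Pool.Agent.Helper84.TR.Thr

/-!
# TR-9: the test part of the column lemma, summed over the thresholds

`u = U - t` runs through `1 .. U`.  `u ≤ 4 lam`: `CE ≤ log 2 ≤ 1`.  `u > 4 lam`, `m = ⌈u / 4⌉ > lam`: `test`,
`phi_num` (a small parameter `η/100`), `mass (m ≤ Z) ≤ η binEntropy ..`; each `m ∈ 1 .. U` occurs at most 4
times; `thr`, `thr_low` (base points `v + 1`, `v - 1`, and `1` for `Z`).
-/

set_option autoImplicit false

open Finset

namespace Pool.Agent.Helper84.TR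

open Pool.Agent.Helper15.BP

/-- each value of `r / 4` occurs at most four times -/
private theorem sum_div_four (U : ℕ) (g : ℕ → ℝ) (hg : ∀ j, 0 ≤ g j) :
    ∑ r ∈ range U, g (r / 4) ≤ 4 * ∑ j ∈ range U, g j := by
  have hmap : ∀ r ∈ range U, r / 4 ∈ range U := by
    intro r hr
    rw [mem_range] at hr ⊢
    omega
  rw [← sum_fiberwise_of_maps_to hmap, mul_sum]
  refine sum_le_sum ?_
  intro j _
  have h1 : ∑ r ∈ (range U).filter (fun r => r / 4 = j), g (r / 4) =
      (((range U).filter (fun r => r / 4 = j)).card : ℝ) * g j := by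
    rw [← nsmul_eq_mul, ← sum_const]
    refine sum_congr rfl ?_
    intro r hr
    rw [(mem_filter.mp hr).2]
  rw [h1]
  have h2 : ((range U).filter (fun r => r / 4 = j)).card ≤ 4 := by
    calc ((range U).filter (fun r => r / 4 = j)).card ≤ (Ico (4 * j) (4 * j + 4)).card := by
          refine card_le_card ?_
          intro r hr
          have := (mem_filter.mp hr).2
          rw [mem_Ico]
          omega
      _ = 4 := by simp
  have h3 : (((range U).filter (fun r => r / 4 = j)).card : ℝ) ≤ 4 := by exact_mod_cast h2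
  exact mul_le_mul_of_nonneg_right h3 (hg j)

/-- the small thresholds -/
private theorem sum_small (U n : ℕ) :
    ∑ r ∈ range U, (if r + 1 ≤ n then (1 : ℝ) else 0) ≤ n := by
  rw [← sum_filter, sum_const, nsmul_eq_mul, mul_one]
  have : ((range U).filter (fun r => r + 1 ≤ n)).card ≤ n := by
    calc ((range U).filter (fun r => r + 1 ≤ n)).card ≤ (range n).card := by
          refine card_le_card ?_
          intro r hr
          have := (mem_filter.mp hr).2
          rw [mem_range]
          omega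
      _ = n := card_range n
  exact_mod_cast this

/-- reversal of the order of summation -/
private theorem sum_rev (U : ℕ) (g : ℕ → ℝ) :
    ∑ t ∈ range U, g (U - t) = ∑ r ∈ range U, g (r + 1) := by
  rw [← sum_range_reflect]
  refine sum_congr rfl ?_
  intro t ht
  rw [mem_range] at ht
  congr 1
  omega

/-- `H(1[Z ≥ u] | X + Z)` summed over `u ∈ (4 lam, U]`; here `u = U - t`. -/
theorem cl_test (η : ℝ) (hη : 0 < η) : ∃ σ : ℝ, 0 < σ ∧ σ ≤ 1 / 2 ∧
    ∀ {Ω Ω' : Type} [Fintype Ω] [Fintype Ω'] (w : Ω → ℝ) (w' : Ω' → ℝ), IsPr w → IsPr w' →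
      ∀ (X : Ω → ℤ) (Z : Ω' → ℤ) (U lam : ℕ), 0 < U → (∀ o, 0 ≤ Z o) →
      mass w' (fun o => (lam : ℤ) < Z o) ≤ σ →
      ∑ t ∈ range U, CE (prodW w w') (fun p => ((U : ℤ) - t ≤ Z p.2)) (fun p => X p.1 + Z p.2) ≤
        η * (∑ t ∈ range U, Ent w (fun o => lb U t (X o)) +
          ∑ t ∈ range U, Ent w' (fun o => lb U t (Z o))) + 4 * lam := by
  obtain ⟨σ, hσ0, hσ1, hb, hphi⟩ := phi_num (η / 21) (by positivity)
  refine ⟨σ, hσ0, hσ1, ?_⟩
  intro Ω Ω' _ _ w w' hw hw' X Z U lam hU hZ hlam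
  obtain ⟨v, hv1, hv2⟩ := median hw X
  set h := Real.binEntropy with hh
  have hnn : ∀ {Ω₁ : Type} [Fintype Ω₁] {w₁ : Ω₁ → ℝ}, IsPr w₁ → ∀ p : Ω₁ → Prop,
      0 ≤ h (mass w₁ p) := by
    intro Ω₁ _ w₁ hw₁ p
    exact Real.binEntropy_nonneg (mass_nonneg hw₁ p) (mass_le_one hw₁ p)
  set Gx : ℕ → ℝ := fun j => h (mass w (fun o => X o ≤ (v - 1) - (j : ℕ))) +
    h (mass w (fun o => (v + 1) + (j : ℕ) ≤ X o)) +
    5 * h (mass w' (fun o => (1 : ℤ) + (j : ℕ) ≤ Z o)) with hGx
  have hGx0 : ∀ j, 0 ≤ Gx j := by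
    intro j
    have h1 := hnn hw (fun o => X o ≤ (v - 1) - (j : ℕ))
    have h2 := hnn hw (fun o => (v + 1) + (j : ℕ) ≤ X o)
    have h3 := hnn hw' (fun o => (1 : ℤ) + (j : ℕ) ≤ Z o)
    simp only [hGx]
    linarith
  have key : ∀ r : ℕ, CE (prodW w w') (fun p => (((r + 1 : ℕ) : ℤ) ≤ Z p.2))
      (fun p => X p.1 + Z p.2) ≤ (if r + 1 ≤ 4 * lam then (1 : ℝ) else 0) +
        η / 21 * (Gx (r / 4) + h (mass w' (fun o => (1 : ℤ) + (r : ℕ) ≤ Z o))) := by
    intro r
    have hr0 := hGx0 (r / 4)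
    have hr1 := hnn hw' (fun o => (1 : ℤ) + (r : ℕ) ≤ Z o)
    have hη1 : 0 ≤ η / 21 := by positivity
    by_cases hr : r + 1 ≤ 4 * lam
    · rw [if_pos hr]
      have h1 : CE (prodW w w') (fun p => (((r + 1 : ℕ) : ℤ) ≤ Z p.2))
          (fun p => X p.1 + Z p.2) ≤ 1 := by
        refine (CE_le_Ent (hw.prod hw') _ _).trans ?_
        rw [Ent_event (hw.prod hw')]
        refine Real.binEntropy_le_log_two.trans ?_
        have := Real.log_two_lt_d9
        linarith
      have h2 : 0 ≤ η / 21 * (Gx (r / 4) + h (mass w' (fun o => (1 : ℤ) + (r : ℕ) ≤ Z o))) :=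
        mul_nonneg hη1 (by linarith)
      linarith
    · rw [if_neg hr, zero_add]
      set m : ℕ := (r + 1 + 3) / 4 with hm
      have hm1 : m = r / 4 + 1 := by omega
      have hmlam : lam < m := by omega
      have hmr : m ≤ r + 1 := by omega
      refine (test hw hw' X Z v (r + 1) m (by omega) hm).trans ?_
      have hbb' : mass w' (fun o => (((r + 1 : ℕ) : ℤ) ≤ Z o)) ≤
          mass w' (fun o => ((m : ℤ) ≤ Z o)) := by
        refine mass_mono hw' ?_
        intro o ho
        have : (m : ℤ) ≤ ((r + 1 : ℕ) : ℤ) := by exact_mod_cast hmr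
        omega
      have hb'σ : mass w' (fun o => ((m : ℤ) ≤ Z o)) ≤ σ := by
        refine le_trans (mass_mono hw' ?_) hlam
        intro o ho
        have : (lam : ℤ) < (m : ℤ) := by exact_mod_cast hmlam
        omega
      have hm0 : (1 : ℤ) ≤ (m : ℤ) := by omega
      have ham : mass w (fun o => X o ≤ v - m) ≤ 1 / 2 := by
        refine le_trans (mass_mono hw ?_) hv2
        intro o ho
        omega
      have hap : mass w (fun o => v + m ≤ X o) ≤ 1 / 2 := by
        refine le_trans (mass_mono hw ?_) hv1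
        intro o ho
        omega
      refine (hphi _ _ _ _ (mass_nonneg hw' _) (hbb'.trans hb'σ) hbb' (mass_le_one hw' _)
        (mass_nonneg hw _) ham (mass_nonneg hw _) hap).trans ?_
      have h5 := hb _ (mass_nonneg hw' _) hb'σ
      have e1 : mass w (fun o => X o ≤ v - m) = mass w (fun o => X o ≤ (v - 1) - (r / 4 : ℕ)) := by
        congr 1
        funext o
        apply propext
        rw [hm1]
        push_cast
        constructor <;> intro h' <;> omega
      have e2 : mass w (fun o => v + m ≤ X o) =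
          mass w (fun o => (v + 1) + (r / 4 : ℕ) ≤ X o) := by
        congr 1
        funext o
        apply propext
        rw [hm1]
        push_cast
        constructor <;> intro h' <;> omega
      have e3 : mass w' (fun o => ((m : ℤ) ≤ Z o)) =
          mass w' (fun o => (1 : ℤ) + (r / 4 : ℕ) ≤ Z o) := by
        congr 1
        funext o
        apply propext
        rw [hm1]
        push_cast
        constructor <;> intro h' <;> omega
      have e4 : mass w' (fun o => (((r + 1 : ℕ) : ℤ) ≤ Z o)) =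
          mass w' (fun o => (1 : ℤ) + (r : ℕ) ≤ Z o) := by
        congr 1
        funext o
        apply propext
        push_cast
        constructor <;> intro h' <;> omega
      rw [e3] at h5
      rw [e1, e2, e3, e4]
      simp only [hGx]
      linarith
  have hrev : ∑ t ∈ range U, CE (prodW w w') (fun p => ((U : ℤ) - t ≤ Z p.2))
      (fun p => X p.1 + Z p.2) = ∑ r ∈ range U, CE (prodW w w')
        (fun p => (((r + 1 : ℕ) : ℤ) ≤ Z p.2)) (fun p => X p.1 + Z p.2) := by
    rw [← sum_rev U (fun u => CE (prodW w w') (fun p => (((u : ℕ) : ℤ) ≤ Z p.2))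
      (fun p => X p.1 + Z p.2))]
    refine sum_congr rfl ?_
    intro t ht
    rw [mem_range] at ht
    have : (U : ℤ) - t = ((U - t : ℕ) : ℤ) := by
      rw [Nat.cast_sub ht.le]
    simp only [this]
  rw [hrev]
  refine (sum_le_sum (fun r _ => key r)).trans ?_
  rw [sum_add_distrib, ← mul_sum, sum_add_distrib]
  have s1 := sum_small U (4 * lam)
  have s2 := sum_div_four U Gx hGx0
  have s3 : ∑ j ∈ range U, Gx j ≤ 2 * ∑ t ∈ range U, Ent w (fun o => lb U t (X o)) +
      5 * ∑ t ∈ range U, Ent w' (fun o => lb U t (Z o)) := by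
    have t1 := thr_low hw U hU X (v - 1)
    have t2 := thr hw U hU X (v + 1)
    have t3 := thr hw' U hU Z 1
    simp only [hGx, sum_add_distrib, ← mul_sum]
    linarith
  have s4 := thr hw' U hU Z 1
  have hX0 : 0 ≤ ∑ t ∈ range U, Ent w (fun o => lb U t (X o)) :=
    sum_nonneg (fun t _ => Ent_nonneg hw _)
  have hZ0 : 0 ≤ ∑ t ∈ range U, Ent w' (fun o => lb U t (Z o)) :=
    sum_nonneg (fun t _ => Ent_nonneg hw' _)
  set HX := ∑ t ∈ range U, Ent w (fun o => lb U t (X o)) with hHX
  set HZ := ∑ t ∈ range U, Ent w' (fun o => lb U t (Z o)) with hHZ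
  have s5 : ∑ r ∈ range U, Gx (r / 4) +
      ∑ r ∈ range U, h (mass w' (fun o => (1 : ℤ) + (r : ℕ) ≤ Z o)) ≤ 21 * (HX + HZ) := by
    linarith
  have s6 : η / 21 * (∑ r ∈ range U, Gx (r / 4) +
      ∑ r ∈ range U, h (mass w' (fun o => (1 : ℤ) + (r : ℕ) ≤ Z o))) ≤
      η / 21 * (21 * (HX + HZ)) := mul_le_mul_of_nonneg_left s5 (by positivity)
  have s7 : η / 21 * (21 * (HX + HZ)) = η * (HX + HZ) := by ring
  push_cast at s1
  linarith

end Pool.Agent.Helper84.TR
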