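import Pool.Agent.Helper84.TR.Cl
import Pool.Agent.Helper84.TR.Fib

/-!
# TR-12: the column lemma given the past
-/

set_option autoImplicit false

open Finset

namespace Pool.Agent.Helper84.TR

open Pool.Agent.Helper15.BP

private theorem alg {α β : Type} (p E : α → ℝ) (q F m : β → ℝ) (s : Finset α) (t : Finset β)
    (c d : ℝ) :
    ∑ a ∈ s, ∑ b ∈ t, p a * q b * (m b * E a + c * F b + d) =
      (∑ a ∈ s, p a * E a) * (∑ b ∈ t, q b * m b) +
        c * ((∑ a ∈ s, p a) * (∑ b ∈ t, q b * F b)) +
        d * ((∑ a ∈ s, p a) * (∑ b ∈ t, q b)) := by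
  rw [Finset.sum_mul_sum, Finset.sum_mul_sum, Finset.sum_mul_sum, Finset.mul_sum,
    Finset.mul_sum, ← sum_add_distrib, ← sum_add_distrib]
  refine sum_congr rfl fun a _ => ?_
  rw [mul_sum, mul_sum, ← sum_add_distrib, ← sum_add_distrib]
  exact sum_congr rfl fun b _ => by ring

/-- the column lemma, conditionally on a function `A` of the first and `B` of the second factor:
`cl` on every fibre (`CE_fib`, `cw_prod`, `Ent_fib`, `mass_fib`); then `comp_dither` twice. -/
theorem col (η : ℝ) (hη : 0 < η) : ∃ (σ : ℝ) (K : ℕ), 0 < σ ∧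
    ∀ {Ω Ω' α β : Type} [Fintype Ω] [Fintype Ω'] (w : Ω → ℝ) (w' : Ω' → ℝ), IsPr w → IsPr w' →
      ∀ (X : Ω → ℤ) (Z : Ω' → ℤ) (A : Ω → α) (B : Ω' → β) (U lam : ℕ), 0 < U → K * lam ≤ U →
      (∀ o, 0 ≤ Z o) →
      (∑ t ∈ range U, ∑ t' ∈ range U, CE (prodW w w')
          (fun p => (lb U t (X p.1), lb U t' (Z p.2)))
          (fun p => (X p.1 + Z p.2, A p.1, B p.2))) / (U : ℝ) ^ 2 ≤
        (η + mass w' (fun o => (lam : ℤ) < Z o) / σ) * HL w U X A + η * HL w' U Z B +
          10 * ((lam : ℝ) / U) := by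
  obtain ⟨σ, K, hσ, hcl⟩ := cl (η / 2) (by positivity)
  refine ⟨σ / 2, K, by positivity, ?_⟩
  intro Ω Ω' α β _ _ w w' hw hw' X Z A B U lam hU hK hZ
  classical
  have hU' : (0 : ℝ) < U := by exact_mod_cast hU
  have hWp : IsPr (prodW w w') := hw.prod hw'
  -- step 1: the pair costs twice the second label
  have h1 : ∑ t ∈ range U, ∑ t' ∈ range U, CE (prodW w w')
      (fun p => (lb U t (X p.1), lb U t' (Z p.2)))
      (fun p => (X p.1 + Z p.2, A p.1, B p.2)) ≤
      2 * U * ∑ t ∈ range U, CE (prodW w w') (fun p => lb U t (Z p.2))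
        (fun p => (X p.1 + Z p.2, A p.1, B p.2)) := by
    calc _ ≤ ∑ t ∈ range U, ∑ t' ∈ range U, (CE (prodW w w') (fun p => lb U t (X p.1))
            (fun p => (X p.1 + Z p.2, A p.1, B p.2)) +
          CE (prodW w w') (fun p => lb U t' (Z p.2))
            (fun p => (X p.1 + Z p.2, A p.1, B p.2))) :=
        sum_le_sum fun t _ => sum_le_sum fun t' _ => CE_pair_le hWp _ _ _
      _ = U * ∑ t ∈ range U, CE (prodW w w') (fun p => lb U t (X p.1))
            (fun p => (X p.1 + Z p.2, A p.1, B p.2)) +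
          U * ∑ t ∈ range U, CE (prodW w w') (fun p => lb U t (Z p.2))
            (fun p => (X p.1 + Z p.2, A p.1, B p.2)) := by
        simp only [sum_add_distrib, sum_const, card_range, nsmul_eq_mul]
        rw [← Finset.mul_sum]
      _ = _ := by
        rw [comp_dither (prodW w w') U hU (fun p => X p.1) (fun p => Z p.2)
          (fun p => (A p.1, B p.2))]
        ring
  -- step 2: fibres
  have himg : (univ.image fun p : Ω × Ω' => (A p.1, B p.2)) =
      (univ.image A) ×ˢ (univ.image B) := by
    ext ⟨a, b⟩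
    simp only [mem_image, mem_univ, true_and, Prod.exists, Prod.mk.injEq, mem_product]
    constructor
    · rintro ⟨x, y, h1, h2⟩
      exact ⟨⟨x, h1⟩, ⟨y, h2⟩⟩
    · rintro ⟨⟨x, h1⟩, ⟨y, h2⟩⟩
      exact ⟨x, y, h1, h2⟩
  have hfib : ∀ t : ℕ, CE (prodW w w') (fun p => lb U t (Z p.2))
        (fun p => (X p.1 + Z p.2, A p.1, B p.2)) =
      ∑ a ∈ univ.image A, ∑ b ∈ univ.image B, pr w A a * pr w' B b *
        CE (prodW (cw w A a) (cw w' B b)) (fun p => lb U t (Z p.2))
          (fun p => X p.1 + Z p.2) := by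
    intro t
    have h := CE_fib hWp (fun p : Ω × Ω' => lb U t (Z p.2)) (fun p => X p.1 + Z p.2)
      (fun p => (A p.1, B p.2))
    refine h.trans ?_
    rw [himg, sum_product]
    refine sum_congr rfl fun a _ => sum_congr rfl fun b _ => ?_
    rw [pr_prod, cw_prod]
  have hX : ∑ a ∈ univ.image A, pr w A a * ∑ t ∈ range U, Ent (cw w A a)
      (fun o => lb U t (X o)) = U * HL w U X A := by
    have h : (U : ℝ) * HL w U X A = ∑ t ∈ range U, CE w (fun o => lb U t (X o)) A := by
      unfold HL
      field_simp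
    rw [h, Finset.sum_congr rfl fun t _ => Ent_fib hw (fun o => lb U t (X o)) A, sum_comm]
    exact sum_congr rfl fun a _ => by rw [mul_sum]
  have hZ' : ∑ b ∈ univ.image B, pr w' B b * ∑ t ∈ range U, Ent (cw w' B b)
      (fun o => lb U t (Z o)) = U * HL w' U Z B := by
    have h : (U : ℝ) * HL w' U Z B = ∑ t ∈ range U, CE w' (fun o => lb U t (Z o)) B := by
      unfold HL
      field_simp
    rw [h, Finset.sum_congr rfl fun t _ => Ent_fib hw' (fun o => lb U t (Z o)) B, sum_comm]
    exact sum_congr rfl fun a _ => by rw [mul_sum]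
  have h2 : ∑ t ∈ range U, CE (prodW w w') (fun p => lb U t (Z p.2))
        (fun p => (X p.1 + Z p.2, A p.1, B p.2)) ≤
      (U * HL w U X A) * (η / 2 + mass w' (fun o => (lam : ℤ) < Z o) / σ) +
        η / 2 * (U * HL w' U Z B) + 5 * lam := by
    calc ∑ t ∈ range U, CE (prodW w w') (fun p => lb U t (Z p.2))
          (fun p => (X p.1 + Z p.2, A p.1, B p.2))
        = ∑ a ∈ univ.image A, ∑ b ∈ univ.image B, pr w A a * pr w' B b *
          ∑ t ∈ range U, CE (prodW (cw w A a) (cw w' B b)) (fun p => lb U t (Z p.2))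
          (fun p => X p.1 + Z p.2) := by
          rw [Finset.sum_congr rfl fun t _ => hfib t, sum_comm]
          refine sum_congr rfl fun a _ => ?_
          rw [sum_comm]
          exact sum_congr rfl fun b _ => by rw [mul_sum]
      _ ≤ ∑ a ∈ univ.image A, ∑ b ∈ univ.image B, pr w A a * pr w' B b *
          ((η / 2 + mass (cw w' B b) (fun o => (lam : ℤ) < Z o) / σ) *
            ∑ t ∈ range U, Ent (cw w A a) (fun o => lb U t (X o)) +
            η / 2 * ∑ t ∈ range U, Ent (cw w' B b) (fun o => lb U t (Z o)) + 5 * lam) := by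
          refine sum_le_sum fun a _ => sum_le_sum fun b _ => ?_
          by_cases ha : pr w A a = 0
          · rw [ha]; simp
          by_cases hb : pr w' B b = 0
          · rw [hb]; simp
          refine mul_le_mul_of_nonneg_left ?_
            (mul_nonneg (pr_nonneg hw _ _) (pr_nonneg hw' _ _))
          exact hcl (cw w A a) (cw w' B b) (cw_isPr hw A a ha) (cw_isPr hw' B b hb) X Z U lam
            hU hK hZ
      _ = (∑ a ∈ univ.image A, pr w A a * ∑ t ∈ range U, Ent (cw w A a)
              (fun o => lb U t (X o))) *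
            (∑ b ∈ univ.image B, pr w' B b *
              (η / 2 + mass (cw w' B b) (fun o => (lam : ℤ) < Z o) / σ)) +
          η / 2 * ((∑ a ∈ univ.image A, pr w A a) * (∑ b ∈ univ.image B, pr w' B b *
            ∑ t ∈ range U, Ent (cw w' B b) (fun o => lb U t (Z o)))) +
          5 * lam * ((∑ a ∈ univ.image A, pr w A a) * (∑ b ∈ univ.image B, pr w' B b)) := by
          exact alg (pr w A) (fun a => ∑ t ∈ range U, Ent (cw w A a) (fun o => lb U t (X o)))
            (pr w' B) (fun b => ∑ t ∈ range U, Ent (cw w' B b) (fun o => lb U t (Z o)))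
            (fun b => η / 2 + mass (cw w' B b) (fun o => (lam : ℤ) < Z o) / σ) _ _ _ _
      _ = _ := by
          have hm : ∑ b ∈ univ.image B, pr w' B b *
              (η / 2 + mass (cw w' B b) (fun o => (lam : ℤ) < Z o) / σ) =
              η / 2 + mass w' (fun o => (lam : ℤ) < Z o) / σ := by
            have e : ∀ b ∈ univ.image B, pr w' B b *
                (η / 2 + mass (cw w' B b) (fun o => (lam : ℤ) < Z o) / σ) =
                η / 2 * pr w' B b +
                  (pr w' B b * mass (cw w' B b) (fun o => (lam : ℤ) < Z o)) / σ := by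
              intro b _
              ring
            rw [sum_congr rfl e, sum_add_distrib, ← mul_sum, ← sum_div, sum_pr_one hw' B,
              ← mass_fib hw' (fun o => (lam : ℤ) < Z o) B, mul_one]
          rw [hm, hX, hZ', sum_pr_one hw A, sum_pr_one hw' B]
          ring
  -- end
  rw [div_le_iff₀ (by positivity)]
  refine h1.trans ?_
  refine (mul_le_mul_of_nonneg_left h2 (by positivity)).trans (le_of_eq ?_)
  field_simp
  ring

end Pool.Agent.Helper84.TR
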