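import Pool.Agent.Helper84.TR.ColC
import Pool.Agent.Helper84.TR.Chain
import Pool.Agent.Helper84.TR.Avg

/-!
# TR-16: all columns together

Average `chain_pair` over `θ, φ`; in the term of the column `q` average over `θ q` and `φ q` first
(`avg_update`; the pasts `labs U θ q X` do not depend on `θ q`) and use `col`; then `chain_one`.
-/

set_option autoImplicit false

open Finset

namespace Pool.Agent.Helper84.TR

open Pool.Agent.Helper15.BP

private theorem labs_update {Ω : Type*} {n : ℕ} (U : ℕ → ℕ) (θ : (q : Fin n) → Fin (U q))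
    (q : Fin n) (t : Fin (U q)) (X : Ω → Fin n → ℤ) :
    labs U (Function.update θ q t) q X = labs U θ q X := by
  funext o r
  unfold labs
  by_cases h : (r : ℕ) < q
  · have hne : r ≠ q := by
      rintro rfl
      exact lt_irrefl _ h
    rw [if_pos h, if_pos h, Function.update_of_ne hne]
  · rw [if_neg h, if_neg h]

private theorem avg_HL {Ω : Type*} [Fintype Ω] {n : ℕ} (w : Ω → ℝ) (X : Ω → Fin n → ℤ)
    (U : ℕ → ℕ) (hU : ∀ q, 0 < U q) (q : Fin n) :
    avg U (fun θ => HL w (U q) (fun o => X o q) (labs U θ q X)) =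
      avg U (fun θ => CE w (fun o => lb (U q) (θ q) (X o q)) (labs U θ q X)) := by
  rw [avg_update U hU (fun θ => CE w (fun o => lb (U q) (θ q) (X o q)) (labs U θ q X)) q]
  congr 1
  funext θ
  simp only [labs_update, Function.update_self]
  unfold HL
  rw [Finset.sum_range]

private theorem sum_avg_HL_le {Ω : Type*} [Fintype Ω] {n : ℕ} {w : Ω → ℝ} (hw : IsPr w)
    (X : Ω → Fin n → ℤ) (U : ℕ → ℕ) (hU : ∀ q, 0 < U q) :
    ∑ q : Fin n, avg U (fun θ => HL w (U q) (fun o => X o q) (labs U θ q X)) ≤ Ent w X := by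
  rw [sum_congr rfl fun q _ => avg_HL w X U hU q, ← avg_sum]
  refine (avg_mono U fun θ => chain_one hw X U θ).trans ?_
  rw [avg_const U hU]

private theorem HL_nonneg {Ω α : Type*} [Fintype Ω] {w : Ω → ℝ} (hw : IsPr w) (U : ℕ) (X : Ω → ℤ)
    (A : Ω → α) : 0 ≤ HL w U X A :=
  div_nonneg (sum_nonneg fun _ _ => CE_nonneg hw _ _) (Nat.cast_nonneg _)

theorem cols (η : ℝ) (hη : 0 < η) : ∃ (κ : ℝ) (K : ℕ), 0 < κ ∧ 1 ≤ K ∧
    ∀ {Ω Ω' : Type} [Fintype Ω] [Fintype Ω'] (w : Ω → ℝ) (w' : Ω' → ℝ), IsPr w → IsPr w' →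
      ∀ (n : ℕ) (X : Ω → Fin n → ℤ) (Z : Ω' → Fin n → ℤ) (U lam : ℕ → ℕ), (∀ q, 0 < U q) →
      (∀ q, K * lam q ≤ U q) → (∀ o q, 0 ≤ Z o q) →
      (∀ q : Fin n, mass w' (fun o => (lam q : ℤ) < Z o q) ≤ κ) →
      avg U (fun θ => CE (prodW w w') (fun p => labs U θ n X p.1) (fun p => X p.1 + Z p.2)) ≤
        η * (Ent w X + Ent w' Z) + 10 * ∑ q : Fin n, (lam q : ℝ) / U q := by
  obtain ⟨σ, K, hσ, hcol⟩ := col (η / 2) (by positivity)
  refine ⟨σ * (η / 2), K + 1, by positivity, by omega, ?_⟩
  intro Ω Ω' _ _ w w' hw hw' n X Z U lam hU hK hZ hm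
  have hW : IsPr (prodW w w') := hw.prod hw'
  -- the term of the column `q`
  let G : Fin n → ((q : Fin n) → Fin (U q)) → ((q : Fin n) → Fin (U q)) → ℝ := fun q θ φ =>
    CE (prodW w w')
        (fun p => (lb (U q) (θ q) (X p.1 q), lb (U q) (φ q) (Z p.2 q)))
        (fun p => (X p.1 q + Z p.2 q, labs U θ q X p.1, labs U φ q Z p.2))
  have h1 : ∀ θ, CE (prodW w w') (fun p => labs U θ n X p.1) (fun p => X p.1 + Z p.2) ≤
      avg U (fun φ => ∑ q : Fin n, G q θ φ) := by
    intro θ
    rw [← avg_const (n := n) U hU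
      (CE (prodW w w') (fun p => labs U θ n X p.1) (fun p => X p.1 + Z p.2))]
    refine avg_mono U fun φ => ?_
    refine le_trans ?_ (chain_pair hw hw' X Z U θ φ)
    refine CE_mono hW ?_
    intro o o' _ h
    exact (Prod.mk.inj h).1
  have h2 : avg U (fun θ => CE (prodW w w') (fun p => labs U θ n X p.1)
      (fun p => X p.1 + Z p.2)) ≤
      ∑ q : Fin n, avg U (fun θ => avg U (fun φ => G q θ φ)) := by
    refine (avg_mono U h1).trans (le_of_eq ?_)
    have e : ∀ θ : ((q : Fin n) → Fin (U q)), avg U (fun φ => ∑ q : Fin n, G q θ φ) =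
        ∑ q : Fin n, avg U (fun φ => G q θ φ) := fun θ => avg_sum univ U fun q φ => G q θ φ
    simp only [e]
    exact avg_sum univ U fun q θ => avg U (fun φ => G q θ φ)
  have h3 : ∀ q : Fin n, avg U (fun θ => avg U (fun φ => G q θ φ)) ≤
      η * avg U (fun θ => HL w (U q) (fun o => X o q) (labs U θ q X)) +
      η * avg U (fun φ => HL w' (U q) (fun o => Z o q) (labs U φ q Z)) +
      10 * ((lam q : ℝ) / U q) := by
    intro q
    have hUq : (0 : ℝ) < U q := by exact_mod_cast hU q
    have e1 : avg U (fun θ => avg U (fun φ => G q θ φ)) =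
        avg U (fun θ => avg U (fun φ => (∑ t ∈ range (U q), ∑ t' ∈ range (U q),
          CE (prodW w w')
          (fun p => (lb (U q) t (X p.1 q), lb (U q) t' (Z p.2 q)))
          (fun p => (X p.1 q + Z p.2 q, labs U θ q X p.1, labs U φ q Z p.2))) /
            (U q : ℝ) ^ 2)) := by
      rw [avg_update U hU (fun θ => avg U (fun φ => G q θ φ)) q]
      congr 1
      funext θ
      have e2 : ∀ t : Fin (U q), avg U (fun φ => G q (Function.update θ q t) φ) =
          avg U (fun φ => (∑ t' : Fin (U q),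
            G q (Function.update θ q t) (Function.update φ q t')) / U q) := fun t =>
        avg_update U hU (fun φ => G q (Function.update θ q t) φ) q
      rw [sum_congr rfl fun t _ => e2 t, ← avg_sum, div_eq_inv_mul, ← avg_mul]
      congr 1
      funext φ
      rw [Finset.sum_range, ← sum_div, ← div_eq_inv_mul, div_div, ← sq]
      congr 1
      refine sum_congr rfl fun t _ => ?_
      rw [Finset.sum_range]
      refine sum_congr rfl fun t' _ => ?_
      simp only [G, labs_update, Function.update_self]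
    rw [e1]
    have hmq : mass w' (fun o => (lam q : ℤ) < Z o q) / σ ≤ η / 2 := by
      rw [div_le_iff₀ hσ]
      linarith [hm q, mul_comm σ (η / 2)]
    have hKq : K * lam q ≤ U q := le_trans (Nat.mul_le_mul_right _ (Nat.le_succ K)) (hK q)
    have e3 : ∀ θ φ : ((q : Fin n) → Fin (U q)), (∑ t ∈ range (U q), ∑ t' ∈ range (U q),
          CE (prodW w w')
          (fun p => (lb (U q) t (X p.1 q), lb (U q) t' (Z p.2 q)))
          (fun p => (X p.1 q + Z p.2 q, labs U θ q X p.1, labs U φ q Z p.2))) /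
            (U q : ℝ) ^ 2 ≤
        η * HL w (U q) (fun o => X o q) (labs U θ q X) +
        (η * HL w' (U q) (fun o => Z o q) (labs U φ q Z) + 10 * ((lam q : ℝ) / U q)) := by
      intro θ φ
      have h := hcol w w' hw hw' (fun o => X o q) (fun o => Z o q) (labs U θ q X)
        (labs U φ q Z) (U q) (lam q) (hU q) hKq (fun o => hZ o q)
      refine h.trans ?_
      have p1 := HL_nonneg hw (U q) (fun o => X o q) (labs U θ q X)
      have p2 := HL_nonneg hw' (U q) (fun o => Z o q) (labs U φ q Z)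
      have p3 := mul_le_mul_of_nonneg_right hmq p1
      have p4 : 0 ≤ η / 2 * HL w' (U q) (fun o => Z o q) (labs U φ q Z) := by positivity
      nlinarith
    refine (avg_mono U fun θ => avg_mono U fun φ => e3 θ φ).trans (le_of_eq ?_)
    have e4 : ∀ θ : ((q : Fin n) → Fin (U q)), avg U (fun φ : ((q : Fin n) → Fin (U q)) =>
        η * HL w (U q) (fun o => X o q) (labs U θ q X) +
        (η * HL w' (U q) (fun o => Z o q) (labs U φ q Z) + 10 * ((lam q : ℝ) / U q))) =
        η * HL w (U q) (fun o => X o q) (labs U θ q X) +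
        (η * avg U (fun φ => HL w' (U q) (fun o => Z o q) (labs U φ q Z)) +
          10 * ((lam q : ℝ) / U q)) := by
      intro θ
      rw [avg_add, avg_add, avg_const U hU, avg_const U hU, avg_mul]
    simp only [e4]
    rw [avg_add, avg_const U hU, avg_mul]
    ring
  refine h2.trans ((sum_le_sum fun q _ => h3 q).trans ?_)
  rw [sum_add_distrib, sum_add_distrib, ← mul_sum, ← mul_sum, ← mul_sum]
  have q1 := mul_le_mul_of_nonneg_left (sum_avg_HL_le hw X U hU) hη.le
  have q2 := mul_le_mul_of_nonneg_left (sum_avg_HL_le hw' Z U hU) hη.le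
  linarith

end Pool.Agent.Helper84.TR
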