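import Pool.Agent.Helper84.TR.Sep
import Pool.Agent.Helper84.TR.CE

/-!
# TR-17: the fibres of the labels

`a : Ω → α` with at most `exp L` values, `X : Ω → (Fin n → ℤ)` a function of `a`.  With probability
at least `1 - exp (-2 L)` over `θ` equal labels imply `∑ |X_q - Y_q| / U_q ≤ 4 L`; on such `θ` every
fibre has at most `M` values of `a` (`CE_le_log`), on the others use `H(a | ..) ≤ L`.
-/

set_option autoImplicit false

open Finset

namespace Pool.Agent.Helper84.TR

open Pool.Agent.Helper15.BP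

/-- one if all labels of `x` and `y` agree -/
private def eqL {n : ℕ} (U : ℕ → ℕ) (x y : Fin n → ℤ) (θ : (q : Fin n) → Fin (U q)) : ℝ :=
  if ∀ q : Fin n, lb (U q) (θ q) (x q) = lb (U q) (θ q) (y q) then (1 : ℝ) else 0

private theorem eqL_nonneg {n : ℕ} (U : ℕ → ℕ) (x y : Fin n → ℤ)
    (θ : (q : Fin n) → Fin (U q)) : 0 ≤ eqL U x y θ := by
  unfold eqL
  split_ifs
  · exact zero_le_one
  · exact le_rfl

private theorem eqL_avg {n : ℕ} (U : ℕ → ℕ) (hU : ∀ q, 0 < U q) (x y : Fin n → ℤ) :
    avg U (eqL U x y) ≤ Real.exp (-∑ q : Fin n, |((x q - y q : ℤ) : ℝ)| / U q) :=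
  sep_avg U hU x y

theorem fibre {Ω α : Type} [Fintype Ω] [DecidableEq α] (w : Ω → ℝ) (hw : IsPr w) (n : ℕ)
    (a : Ω → α) (X : Ω → Fin n → ℤ) (hX : ∀ o o', a o = a o' → X o = X o') (U : ℕ → ℕ)
    (hU : ∀ q, 0 < U q) (L : ℝ) (hL : 1 ≤ L) (M : ℕ) (hM : 1 ≤ M)
    (hcard : ((univ.image a).card : ℝ) ≤ Real.exp L)
    (hcell : ∀ o, {b : α | ∃ o', a o' = b ∧ (∀ q : Fin n, |X o q - X o' q| < (U q : ℤ)) ∧
      ∑ q : Fin n, |((X o q - X o' q : ℤ) : ℝ)| / U q ≤ 4 * L}.ncard ≤ M) :
    avg U (fun θ => CE w a (labs U θ n X)) ≤ Real.log M + 1 := by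
  have hne : Nonempty Ω := by
    by_contra h
    rw [not_nonempty_iff] at h
    have h1 := hw.sum_one
    simp at h1
  have hr : ∀ o, a (Function.invFun a (a o)) = a o := fun o => Function.invFun_eq ⟨o, rfl⟩
  have hXr : ∀ o, X (Function.invFun a (a o)) = X o := fun o => hX _ _ (hr o)
  have hlogM : 0 ≤ Real.log M := Real.log_nonneg (by exact_mod_cast hM)
  have hL0 : 0 ≤ L := by linarith
  obtain ⟨r, hrdef⟩ : ∃ r : α → Ω, r = Function.invFun a := ⟨_, rfl⟩
  rw [← hrdef] at hr hXr
  obtain ⟨P, hP⟩ : ∃ P : Finset (α × α), ∀ p, p ∈ P ↔ (p.1 ∈ univ.image a ∧ p.2 ∈ univ.image a) ∧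
      4 * L < ∑ q : Fin n, |((X (r p.1) q - X (r p.2) q : ℤ) : ℝ)| / U q := by
    classical
    refine ⟨((univ.image a) ×ˢ (univ.image a)).filter (fun p =>
      4 * L < ∑ q : Fin n, |((X (r p.1) q - X (r p.2) q : ℤ) : ℝ)| / U q), fun p => ?_⟩
    rw [mem_filter, mem_product]
  have hPcard : (P.card : ℝ) ≤ Real.exp L * Real.exp L := by
    have h1 : P ⊆ (univ.image a) ×ˢ (univ.image a) := fun p hp => by
      rw [mem_product]
      exact ((hP p).1 hp).1
    have h2 := card_le_card h1
    rw [card_product] at h2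
    have h3 : (P.card : ℝ) ≤ ((univ.image a).card : ℝ) * (univ.image a).card := by
      exact_mod_cast h2
    exact h3.trans (mul_le_mul hcard hcard (Nat.cast_nonneg _) (Real.exp_pos _).le)
  -- the bound for every dither
  have key : ∀ θ : (q : Fin n) → Fin (U q), CE w a (labs U θ n X) ≤
      Real.log M + L * ∑ p ∈ P, eqL U (X (r p.1)) (X (r p.2)) θ := by
    intro θ
    by_cases hB : ∃ p ∈ P, ∀ q : Fin n, lb (U q) (θ q) (X (r p.1) q) =
        lb (U q) (θ q) (X (r p.2) q)
    · obtain ⟨p, hp, hpq⟩ := hB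
      have h1 : (1 : ℝ) ≤ ∑ p ∈ P, eqL U (X (r p.1)) (X (r p.2)) θ := by
        have h2 := single_le_sum (f := fun p => eqL U (X (r p.1)) (X (r p.2)) θ)
          (fun p _ => eqL_nonneg U _ _ θ) hp
        have h3 : eqL U (X (r p.1)) (X (r p.2)) θ = 1 := by
          unfold eqL
          rw [if_pos hpq]
        rw [h3] at h2
        exact h2
      have h4 : CE w a (labs U θ n X) ≤ L := by
        have h5 := CE_le_log hw a (labs U θ n X) (univ.image a).card (fun o => by
          have h6 : {b : α | ∃ o', labs U θ n X o' = labs U θ n X o ∧ a o' = b} ⊆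
              ((univ.image a : Finset α) : Set α) := by
            rintro b ⟨o', -, rfl⟩
            exact mem_coe.2 (mem_image_of_mem a (mem_univ o'))
          have h7 := Set.ncard_le_ncard h6 (finite_toSet _)
          rwa [Set.ncard_coe_finset] at h7)
        refine h5.trans ?_
        have h8 : (0 : ℝ) < ((univ.image a).card : ℝ) := by
          obtain ⟨o⟩ := hne
          exact_mod_cast card_pos.2 ⟨a o, mem_image_of_mem a (mem_univ o)⟩
        rw [Real.log_le_iff_le_exp h8]
        exact hcard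
      nlinarith
    · push Not at hB
      have h1 : 0 ≤ ∑ p ∈ P, eqL U (X (r p.1)) (X (r p.2)) θ :=
        sum_nonneg fun p _ => eqL_nonneg U _ _ θ
      have h2 : CE w a (labs U θ n X) ≤ Real.log M := by
        refine CE_le_log hw a (labs U θ n X) M fun o => ?_
        refine le_trans (Set.ncard_le_ncard ?_ ?_) (hcell o)
        · rintro b ⟨o', hlab, hb⟩
          have h3 : ∀ q : Fin n, lb (U q) (θ q) (X o' q) = lb (U q) (θ q) (X o q) := by
            intro q
            have h4 := congrFun hlab q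
            unfold labs at h4
            rwa [if_pos q.2, if_pos q.2] at h4
          refine ⟨o', hb, fun q => lb_eq_lt _ _ (hU q) _ _ (h3 q).symm, ?_⟩
          by_contra hcon
          push Not at hcon
          have h5 : ((a o, a o') : α × α) ∈ P := by
            rw [hP]
            refine ⟨⟨mem_image_of_mem a (mem_univ o), mem_image_of_mem a (mem_univ o')⟩, ?_⟩
            simp only [hXr]
            exact hcon
          obtain ⟨q, hq⟩ := hB _ h5
          simp only [hXr] at hq
          exact hq (h3 q).symm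
        · refine Set.Finite.subset (finite_toSet (univ.image a)) ?_
          rintro b ⟨o', hb, -⟩
          rw [← hb]
          exact mem_coe.2 (mem_image_of_mem a (mem_univ o'))
      nlinarith
  refine (avg_mono U key).trans ?_
  rw [avg_add, avg_const U hU, avg_mul, avg_sum]
  have hsum : ∑ p ∈ P, avg U (fun θ => eqL U (X (r p.1)) (X (r p.2)) θ) ≤
      Real.exp L * Real.exp L * Real.exp (-(4 * L)) := by
    have h1 : ∀ p ∈ P, avg U (fun θ => eqL U (X (r p.1)) (X (r p.2)) θ) ≤
        Real.exp (-(4 * L)) := by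
      intro p hp
      refine (eqL_avg U hU (X (r p.1)) (X (r p.2))).trans ?_
      rw [Real.exp_le_exp, neg_le_neg_iff]
      exact ((hP p).1 hp).2.le
    have h2 := sum_le_card_nsmul P _ _ h1
    rw [nsmul_eq_mul] at h2
    exact h2.trans (mul_le_mul_of_nonneg_right hPcard (Real.exp_pos _).le)
  have h3 : Real.exp L * Real.exp L * Real.exp (-(4 * L)) = Real.exp (-(2 * L)) := by
    rw [← Real.exp_add, ← Real.exp_add]
    congr 1
    ring
  rw [h3] at hsum
  have h4 : L * Real.exp (-(2 * L)) ≤ 1 := by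
    have h5 : L ≤ Real.exp (2 * L) := by
      have := Real.add_one_le_exp (2 * L)
      linarith
    have h6 : Real.exp (2 * L) * Real.exp (-(2 * L)) = 1 := by
      rw [← Real.exp_add]
      simp
    calc L * Real.exp (-(2 * L)) ≤ Real.exp (2 * L) * Real.exp (-(2 * L)) :=
          mul_le_mul_of_nonneg_right h5 (Real.exp_pos _).le
      _ = 1 := h6
  have h7 : L * ∑ p ∈ P, avg U (fun θ => eqL U (X (r p.1)) (X (r p.2)) θ) ≤
      L * Real.exp (-(2 * L)) := mul_le_mul_of_nonneg_left hsum hL0
  linarith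

end Pool.Agent.Helper84.TR
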