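import Pool.Agent.Helper84.TR.Cols
import Pool.Agent.Helper84.TR.Fibre

/-!
# TR-18: the decoding lemma, vector form

`U q = UresC K τ L Γ c lam q`, `Γ = ∑ lam_q c_q`: `∑ r lam_q / U_q ≤ r L / τ`, and
`|x_q - y_q| < U_q`, `∑ |x_q - y_q| / U_q ≤ 4 L` give `∑ |x_q - y_q| c_q ≤ (K + 1 + 4 τ) Γ`.
Then `CE a T ≤ CE (labs X) (X + Z) + CE a (labs X)` averaged over `θ`.
-/

set_option autoImplicit false

open Finset

namespace Pool.Agent.Helper84.TR

open Pool.Agent.Helper15.BP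

private theorem decU_zero (K : ℕ) (τ L Γ : ℝ) (c : ℕ → ℝ) (lam : ℕ → ℕ) (q : ℕ)
    (h : lam q = 0) : UresC K τ L Γ c lam q = 1 := by
  unfold UresC
  rw [if_pos h]

private theorem decU_pos (K : ℕ) (hK : 1 ≤ K) (τ L Γ : ℝ) (c : ℕ → ℝ) (lam : ℕ → ℕ) (q : ℕ) :
    0 < UresC K τ L Γ c lam q := by
  unfold UresC
  split_ifs with h
  · exact one_pos
  · have : 0 < K * lam q := Nat.mul_pos hK (Nat.pos_of_ne_zero h)
    omega

private theorem decU_ge_mul (K : ℕ) (τ L Γ : ℝ) (c : ℕ → ℝ) (lam : ℕ → ℕ) (q : ℕ) :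
    K * lam q ≤ UresC K τ L Γ c lam q := by
  unfold UresC
  split_ifs with h
  · rw [h]; simp
  · omega

private theorem decU_ge (K : ℕ) (τ L Γ : ℝ) (c : ℕ → ℝ) (lam : ℕ → ℕ) (q : ℕ)
    (h : lam q ≠ 0) : τ * Γ / (L * c q) ≤ (UresC K τ L Γ c lam q : ℝ) := by
  unfold UresC
  rw [if_neg h]
  push_cast
  have h1 := Nat.le_ceil (τ * Γ / (L * c q))
  have h2 : (0 : ℝ) ≤ (K : ℝ) * (lam q : ℝ) := by positivity
  linarith

private theorem decU_le (K : ℕ) (τ L Γ : ℝ) (c : ℕ → ℝ) (lam : ℕ → ℕ) (q : ℕ)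
    (h : lam q ≠ 0) (h0 : 0 ≤ τ * Γ / (L * c q)) :
    (UresC K τ L Γ c lam q : ℝ) ≤ (K + 1) * lam q + τ * Γ / (L * c q) := by
  unfold UresC
  rw [if_neg h]
  push_cast
  have h1 := (Nat.ceil_lt_add_one h0).le
  have h2 : (1 : ℝ) ≤ (lam q : ℝ) := by exact_mod_cast Nat.one_le_iff_ne_zero.2 h
  linarith

/-- the sum of `lam / U` -/
private theorem dec_sum_lam (n K : ℕ) (hK : 1 ≤ K) (τ L : ℝ) (hτ : 0 < τ) (hL : 1 ≤ L)
    (c : ℕ → ℝ) (hc : ∀ q, 0 < c q) (lam : ℕ → ℕ) :
    ∑ q : Fin n, (lam q : ℝ) /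
      (UresC K τ L (∑ q : Fin n, (lam q : ℝ) * c q) c lam q : ℝ) ≤ L / τ := by
  set Γ : ℝ := ∑ q : Fin n, (lam q : ℝ) * c q with hΓ
  have hL0 : 0 < L := by linarith
  have hterm : ∀ q : Fin n, 0 ≤ (lam q : ℝ) * c q := fun q =>
    mul_nonneg (Nat.cast_nonneg _) (hc q).le
  have hΓ0 : 0 ≤ Γ := Finset.sum_nonneg fun q _ => hterm q
  rcases hΓ0.eq_or_lt with h0 | hpos
  · have hz : ∀ q : Fin n, (lam q : ℝ) = 0 := by
      intro q
      have h1 := (Finset.sum_eq_zero_iff_of_nonneg (s := (Finset.univ : Finset (Fin n)))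
        (f := fun q : Fin n => (lam q : ℝ) * c q) (fun q _ => hterm q)).1 h0.symm q
        (Finset.mem_univ q)
      rcases mul_eq_zero.1 h1 with h2 | h2
      · exact h2
      · exact absurd h2 (hc q).ne'
    have : ∑ q : Fin n, (lam q : ℝ) / (UresC K τ L Γ c lam q : ℝ) = 0 := by
      refine Finset.sum_eq_zero fun q _ => ?_
      rw [hz q, zero_div]
    rw [this]
    positivity
  · have h1 : ∀ q : Fin n, (lam q : ℝ) / (UresC K τ L Γ c lam q : ℝ) ≤
        L / (τ * Γ) * ((lam q : ℝ) * c q) := by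
      intro q
      by_cases h : lam q = 0
      · rw [h]; simp
      · have hU : (0 : ℝ) < (UresC K τ L Γ c lam q : ℝ) := by
          exact_mod_cast decU_pos K hK τ L Γ c lam q
        have h2 := decU_ge K τ L Γ c lam q h
        have hcq := hc q
        rw [div_le_iff₀ hU]
        have h3 : L / (τ * Γ) * ((lam q : ℝ) * c q) * (τ * Γ / (L * c q)) = (lam q : ℝ) := by
          field_simp
        have h4 : 0 ≤ L / (τ * Γ) * ((lam q : ℝ) * c q) := by
          have := hterm q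
          positivity
        calc (lam q : ℝ) = L / (τ * Γ) * ((lam q : ℝ) * c q) * (τ * Γ / (L * c q)) := h3.symm
          _ ≤ _ := mul_le_mul_of_nonneg_left h2 h4
    refine (Finset.sum_le_sum fun q _ => h1 q).trans ?_
    rw [← Finset.mul_sum, ← hΓ]
    rw [div_mul_eq_mul_div, div_le_div_iff₀ (by positivity) hτ]
    nlinarith

/-- closeness in the labels bounds the distance -/
private theorem dec_dist (n K : ℕ) (hK : 1 ≤ K) (τ L : ℝ) (hτ : 0 < τ) (hL : 1 ≤ L)
    (c : ℕ → ℝ) (hc : ∀ q, 0 < c q) (lam : ℕ → ℕ) (D : Fin n → ℤ)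
    (hD : ∀ q : Fin n, |D q| <
      (UresC K τ L (∑ q : Fin n, (lam q : ℝ) * c q) c lam q : ℤ))
    (hS : ∑ q : Fin n, |((D q : ℤ) : ℝ)| /
      (UresC K τ L (∑ q : Fin n, (lam q : ℝ) * c q) c lam q : ℝ) ≤ 4 * L) :
    ∑ q : Fin n, |((D q : ℤ) : ℝ)| * c q ≤
      (K + 1 + 4 * τ) * ∑ q : Fin n, (lam q : ℝ) * c q := by
  set Γ : ℝ := ∑ q : Fin n, (lam q : ℝ) * c q with hΓ
  have hL0 : 0 < L := by linarith
  have hterm : ∀ q : Fin n, 0 ≤ (lam q : ℝ) * c q := fun q =>
    mul_nonneg (Nat.cast_nonneg _) (hc q).le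
  have hΓ0 : 0 ≤ Γ := Finset.sum_nonneg fun q _ => hterm q
  have h1 : ∀ q : Fin n, |((D q : ℤ) : ℝ)| * c q ≤ (K + 1) * ((lam q : ℝ) * c q) +
      τ * Γ / L * (|((D q : ℤ) : ℝ)| / (UresC K τ L Γ c lam q : ℝ)) := by
    intro q
    have hcq := hc q
    have hUq : 0 < UresC K τ L Γ c lam q := decU_pos K hK τ L Γ c lam q
    have hU : (0 : ℝ) < (UresC K τ L Γ c lam q : ℝ) := by exact_mod_cast hUq
    have hDU : |((D q : ℤ) : ℝ)| < (UresC K τ L Γ c lam q : ℝ) := by
      have := hD q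
      have h2 : ((|D q| : ℤ) : ℝ) < (((UresC K τ L Γ c lam q : ℕ) : ℤ) : ℝ) := by
        exact_mod_cast this
      rw [Int.cast_abs] at h2
      simpa using h2
    by_cases h : lam q = 0
    · have h3 : |D q| < 1 := by
        have := hD q
        rw [decU_zero K τ L Γ c lam q h] at this
        simpa using this
      have h4 : D q = 0 := Int.abs_lt_one_iff.1 h3
      rw [h4, h]
      simp
    · have hX0 : 0 ≤ τ * Γ / (L * c q) := by positivity
      have h2 := decU_le K τ L Γ c lam q h hX0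
      set x : ℝ := |((D q : ℤ) : ℝ)| with hx
      have hx0 : 0 ≤ x := abs_nonneg _
      set U : ℝ := (UresC K τ L Γ c lam q : ℝ) with hUdef
      have hxU : x / U ≤ 1 := by rw [div_le_one hU]; exact hDU.le
      have hxU0 : 0 ≤ x / U := by positivity
      have h5 : x * c q = x / U * (U * c q) := by field_simp
      have h6 : U * c q ≤ (K + 1) * ((lam q : ℝ) * c q) + τ * Γ / L := by
        have h7 := mul_le_mul_of_nonneg_right h2 hcq.le
        have h8 : ((K + 1) * (lam q : ℝ) + τ * Γ / (L * c q)) * c q =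
            (K + 1) * ((lam q : ℝ) * c q) + τ * Γ / L := by
          field_simp
        rw [h8] at h7
        exact h7
      rw [h5]
      calc x / U * (U * c q) ≤ x / U * ((K + 1) * ((lam q : ℝ) * c q) + τ * Γ / L) :=
            mul_le_mul_of_nonneg_left h6 hxU0
        _ = x / U * ((K + 1) * ((lam q : ℝ) * c q)) + τ * Γ / L * (x / U) := by ring
        _ ≤ 1 * ((K + 1) * ((lam q : ℝ) * c q)) + τ * Γ / L * (x / U) := by
            have h9 : 0 ≤ ((K : ℝ) + 1) * ((lam q : ℝ) * c q) := by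
              have := hterm q
              positivity
            have := mul_le_mul_of_nonneg_right hxU h9
            linarith
        _ = _ := by ring
  refine (Finset.sum_le_sum fun q _ => h1 q).trans ?_
  rw [Finset.sum_add_distrib, ← Finset.mul_sum, ← Finset.mul_sum, ← hΓ]
  have h2 : τ * Γ / L * ∑ q : Fin n, |((D q : ℤ) : ℝ)| / (UresC K τ L Γ c lam q : ℝ) ≤
      τ * Γ / L * (4 * L) := mul_le_mul_of_nonneg_left hS (by positivity)
  have h3 : τ * Γ / L * (4 * L) = 4 * τ * Γ := by field_simp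
  rw [h3] at h2
  linarith

theorem dec (ζ : ℝ) (hζ : 0 < ζ) (r : ℕ) : ∃ (κ : ℝ) (K : ℕ) (τ C : ℝ), 0 < κ ∧ κ ≤ 1 ∧ 1 ≤ K ∧
    0 < τ ∧ 0 < C ∧
    ∀ {Ω Ω' α δ : Type} [Fintype Ω] [Fintype Ω'] [DecidableEq α] (w : Ω → ℝ) (w' : Ω' → ℝ),
      IsPr w → IsPr w' → ∀ (n : ℕ) (a : Ω → α) (X : Ω → Fin n → ℤ) (Z : Ω' → Fin n → ℤ)
      (T : Ω × Ω' → δ) (lam : ℕ → ℕ) (c : ℕ → ℝ) (L : ℝ) (M : ℕ), 1 ≤ L → 1 ≤ M →
      (∀ q, 0 < c q) → (∀ o o', a o = a o' → X o = X o') → (∀ o q, 0 ≤ Z o q) →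
      (∀ p p', T p = T p' → X p.1 + Z p.2 = X p'.1 + Z p'.2) →
      ((univ.image a).card : ℝ) ≤ Real.exp L → Ent w' Z ≤ r * L →
      (∀ q : Fin n, mass w' (fun o => ((r * lam q : ℕ) : ℤ) < Z o q) ≤ κ) →
      (∀ o, {b : α | ∃ o', a o' = b ∧
        (∀ q : Fin n, |X o q - X o' q| <
          (UresC K τ L (∑ q : Fin n, (lam q : ℝ) * c q) c lam q : ℤ)) ∧
        ∑ q : Fin n, |((X o q - X o' q : ℤ) : ℝ)| * c q ≤
          C * ∑ q : Fin n, (lam q : ℝ) * c q}.ncard ≤ M) →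
      CE (prodW w w') (fun p => a p.1) T ≤ ζ * L + Real.log M + 1 := by
  have hr1 : (0 : ℝ) < (r : ℝ) + 1 := by positivity
  set η : ℝ := ζ / (2 * (r + 1)) with hη
  have hη0 : 0 < η := by positivity
  obtain ⟨κ, Kc, hκ, hKc, hcols⟩ := cols η hη0
  set K : ℕ := Kc * r + 1 with hKdef
  have hK : 1 ≤ K := by omega
  set τ : ℝ := 20 * (r + 1) / ζ with hτdef
  have hτ : 0 < τ := by positivity
  refine ⟨min κ 1, K, τ, K + 1 + 4 * τ, lt_min hκ one_pos, min_le_right _ _, hK, hτ,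
    by positivity, ?_⟩
  intro Ω Ω' α δ _ _ _ w w' hw hw' n a X Z T lam c L M hL hM hc hX hZ hT hcard hEZ hmass hcell
  set Γ : ℝ := ∑ q : Fin n, (lam q : ℝ) * c q with hΓ
  set U : ℕ → ℕ := UresC K τ L Γ c lam with hUdef
  have hL0 : 0 < L := by linarith
  have hU : ∀ q, 0 < U q := fun q => decU_pos K hK τ L Γ c lam q
  -- the entropy of `X`
  have hEa : Ent w a ≤ L := by
    have h1 := Ent_le_add_log hw a (fun _ => ()) (univ.image a).card (fun o => by
      have hsub : ({b : α | ∃ o', (() : Unit) = () ∧ a o' = b} : Set α) ⊆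
          ((univ.image a : Finset α) : Set α) := by
        rintro b ⟨o', -, rfl⟩
        exact Finset.mem_coe.2 (Finset.mem_image_of_mem a (Finset.mem_univ o'))
      have h2 := Set.ncard_le_ncard hsub (Finset.finite_toSet _)
      rw [Set.ncard_coe_finset] at h2
      exact h2)
    rw [Ent_const hw, zero_add] at h1
    have h3 : Ent w a ≤ Ent w (fun o => (a o, ())) :=
      Ent_mono hw fun o o' h => (Prod.ext_iff.1 h).1
    have h4 : Real.log ((univ.image a).card : ℝ) ≤ L := by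
      rcases Nat.eq_zero_or_pos (univ.image a).card with h5 | h5
      · rw [h5]; simp; exact hL0.le
      · have h6 : (0 : ℝ) < ((univ.image a).card : ℝ) := by exact_mod_cast h5
        have := Real.log_le_log h6 hcard
        rwa [Real.log_exp] at this
    linarith
  have hEX : Ent w X ≤ L := (Ent_mono hw fun o o' h => hX o o' h).trans hEa
  -- columns
  have h1 := hcols w w' hw hw' n X Z U (fun q => r * lam q) hU (fun q => by
      have h2 := decU_ge_mul K τ L Γ c lam q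
      have h3 : Kc * (r * lam q) ≤ K * lam q := by
        rw [hKdef, ← mul_assoc]
        exact Nat.mul_le_mul_right _ (Nat.le_succ _)
      exact h3.trans h2) hZ (fun q => (hmass q).trans (min_le_left _ _))
  -- fibres
  have h2 := fibre w hw n a X hX U hU L hL M hM hcard (fun o => by
    refine le_trans (Set.ncard_le_ncard ?_ ?_) (hcell o)
    · rintro b ⟨o', hb, hclose, hsum⟩
      exact ⟨o', hb, hclose, dec_dist n K hK τ L hτ hL c hc lam (fun q => X o q - X o' q)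
        hclose hsum⟩
    · refine Set.Finite.subset (Set.finite_range a) ?_
      rintro b ⟨o', hb, -⟩
      exact ⟨o', hb⟩)
  -- the chain rule for fixed dithers
  have h3 : ∀ θ : (q : Fin n) → Fin (U q), CE (prodW w w') (fun p => a p.1) T ≤
      CE (prodW w w') (fun p => labs U θ n X p.1) (fun p => X p.1 + Z p.2) +
        CE w a (labs U θ n X) := by
    intro θ
    have hpr := hw.prod hw'
    have e1 : CE (prodW w w') (fun p => a p.1) T ≤
        CE (prodW w w') (fun p => a p.1) (fun p => X p.1 + Z p.2) := CE_anti hpr _ hT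
    have e2 : CE (prodW w w') (fun p => a p.1) (fun p => X p.1 + Z p.2) ≤
        CE (prodW w w') (fun p => (a p.1, labs U θ n X p.1)) (fun p => X p.1 + Z p.2) :=
      CE_mono hpr fun p p' _ h => (Prod.ext_iff.1 h).1
    have e3 := CE_chain (prodW w w') (fun p => a p.1) (fun p => labs U θ n X p.1)
      (fun p => X p.1 + Z p.2)
    have e4 : CE (prodW w w') (fun p => a p.1)
        (fun p => (labs U θ n X p.1, X p.1 + Z p.2)) ≤
        CE (prodW w w') (fun p => a p.1) (fun p => (labs U θ n X p.1, (fun _ : Ω' => ()) p.2)) :=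
      CE_anti hpr _ fun p p' h => by
        have := (Prod.ext_iff.1 h).1
        exact Prod.ext this rfl
    have e5 := CE_prod_fst hw hw' a (labs U θ n X) (fun _ : Ω' => ())
    linarith
  have h4 : CE (prodW w w') (fun p => a p.1) T ≤
      avg U (fun θ => CE (prodW w w') (fun p => labs U θ n X p.1) (fun p => X p.1 + Z p.2)) +
        avg U (fun θ => CE w a (labs U θ n X)) := by
    rw [← avg_add, ← avg_const (n := n) U hU (CE (prodW w w') (fun p => a p.1) T)]
    exact avg_mono U h3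
  -- numbers
  have h5 : ∑ q : Fin n, ((r * lam q : ℕ) : ℝ) / (U q : ℝ) ≤ r * (L / τ) := by
    have h6 := dec_sum_lam n K hK τ L hτ hL c hc lam
    have h7 : ∑ q : Fin n, ((r * lam q : ℕ) : ℝ) / (U q : ℝ) =
        r * ∑ q : Fin n, (lam q : ℝ) / (U q : ℝ) := by
      rw [Finset.mul_sum]
      refine Finset.sum_congr rfl fun q _ => ?_
      push_cast
      ring
    rw [h7]
    exact mul_le_mul_of_nonneg_left h6 (Nat.cast_nonneg _)
  have h6 : η * (Ent w X + Ent w' Z) ≤ ζ / 2 * L := by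
    have h7 : Ent w X + Ent w' Z ≤ (r + 1) * L := by linarith
    have h8 := mul_le_mul_of_nonneg_left h7 hη0.le
    have h9 : η * ((r + 1) * L) = ζ / 2 * L := by
      rw [hη]; field_simp
    linarith
  have h7 : 10 * (r * (L / τ)) ≤ ζ / 2 * L := by
    rw [hτdef]
    have h8 : 10 * ((r : ℝ) * (L / (20 * (r + 1) / ζ))) = (r / (r + 1)) * (ζ / 2 * L) := by
      field_simp
      ring
    rw [h8]
    have h9 : (r : ℝ) / (r + 1) ≤ 1 := by
      rw [div_le_one hr1]; linarith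
    have h10 : 0 ≤ ζ / 2 * L := by positivity
    calc (r : ℝ) / (r + 1) * (ζ / 2 * L) ≤ 1 * (ζ / 2 * L) :=
          mul_le_mul_of_nonneg_right h9 h10
      _ = _ := one_mul _
  have h8 : (10 : ℝ) * ∑ q : Fin n, ((r * lam q : ℕ) : ℝ) / (U q : ℝ) ≤ ζ / 2 * L :=
    (mul_le_mul_of_nonneg_left h5 (by norm_num)).trans h7
  linarith

end Pool.Agent.Helper84.TR
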