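import Pool.Agent.Helper15.BP.Ent

/-!
# Project TR (MP_120218_co): definitions

Entropies of functions on finite weighted spaces are taken from `Helper15.BP.Ent`
(`IsPr`, `pr`, `Ent`, `prodW`).
-/

set_option autoImplicit false

open Finset

namespace Pool.Agent.Helper84.TR

open Pool.Agent.Helper15.BP

variable {Ω Ω' α β γ δ : Type*} [Fintype Ω] [Fintype Ω']

/-- conditional entropy `H(f | g)` -/
noncomputable def CE (w : Ω → ℝ) (f : Ω → α) (g : Ω → β) : ℝ :=
  Ent w (fun o => (f o, g o)) - Ent w g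

/-- the mass of an event -/
noncomputable def mass (w : Ω → ℝ) (p : Ω → Prop) : ℝ := by
  classical exact ∑ o, if p o then w o else 0

/-- the weights `w` conditioned on `A = a` -/
noncomputable def cw (w : Ω → ℝ) (A : Ω → α) (a : α) : Ω → ℝ := by
  classical exact fun o => if A o = a then w o / pr w A a else 0

/-- the label `⌊(x + t) / U⌋` of the integer `x` with dither `t` -/
def lb (U t : ℕ) (x : ℤ) : ℤ := (x + t) / (U : ℤ)

/-- entropy of the label of `X` given `A`, averaged over the dither -/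
noncomputable def HL (w : Ω → ℝ) (U : ℕ) (X : Ω → ℤ) (A : Ω → α) : ℝ :=
  (∑ t ∈ range U, CE w (fun o => lb U t (X o)) A) / U

/-- `x log ((x + y) / x) + y log ((x + y) / y)` -/
noncomputable def phi (x y : ℝ) : ℝ :=
  x * Real.log ((x + y) / x) + y * Real.log ((x + y) / y)

/-- the labels of the columns below `p` -/
def labs {n : ℕ} (U : ℕ → ℕ) (θ : (q : Fin n) → Fin (U q)) (p : ℕ) (X : Ω → Fin n → ℤ)
    (o : Ω) : Fin n → ℤ :=
  fun q => if (q : ℕ) < p then lb (U q) (θ q) (X o q) else 0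

/-- average over all dithers -/
noncomputable def avg {n : ℕ} (U : ℕ → ℕ) (F : ((q : Fin n) → Fin (U q)) → ℝ) : ℝ :=
  (∑ θ, F θ) / ∏ q : Fin n, (U q : ℝ)

/-- the resolutions for prices `c` -/
noncomputable def UresC (K : ℕ) (τ L Γ : ℝ) (c : ℕ → ℝ) (lam : ℕ → ℕ) (q : ℕ) : ℕ :=
  if lam q = 0 then 1 else K * lam q + ⌈τ * Γ / (L * c q)⌉₊

/-- the resolutions -/
noncomputable def Ures (K : ℕ) (τ L Γ : ℝ) (lam : ℕ → ℕ) (q : ℕ) : ℕ :=
  if lam q = 0 then 1 else K * lam q + ⌈τ * Γ / (L * Real.log q)⌉₊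

/-- the weight of the exponents `lam` -/
noncomputable def W (n : ℕ) (lam : ℕ → ℕ) : ℝ :=
  ∑ q ∈ (range n).filter Nat.Prime, (lam q : ℝ) * Real.log q

/-- the distance `∑ |v_q(b) - v_q(b')| log q` of two nonzero integers -/
noncomputable def dst (b b' : ℤ) : ℝ :=
  Real.log |(b : ℝ)| + Real.log |(b' : ℝ)| - 2 * Real.log (Int.gcd b b' : ℝ)

/-- closeness of the valuations at every prime -/
def Close (U : ℕ → ℕ) (b b' : ℤ) : Prop :=
  ∀ q : ℕ, q.Prime → |((padicValInt q b : ℤ) - padicValInt q b')| < (U q : ℤ)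

end Pool.Agent.Helper84.TR
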