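import Pool.Agent.Helper84.TR.Dec
import Pool.Agent.Helper84.TR.Val
import Pool.Agent.Helper84.TR.Mass

/-!
# TR-20: the product of `k` sets (interface for sections 3 to 5)
-/

set_option autoImplicit false

open Finset

namespace Pool.Agent.Helper84.TR

open Pool.Agent.Helper15.BP

/-- uniform weights on a finset -/
private noncomputable def uw (Y : Finset ℤ) : {x // x ∈ Y} → ℝ := fun _ => 1 / (Y.card : ℝ)

private theorem uw_isPr {Y : Finset ℤ} (hY : Y.Nonempty) : IsPr (uw Y) := by
  have h0 : (0 : ℝ) < Y.card := by exact_mod_cast hY.card_pos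
  refine ⟨fun _ => by unfold uw; positivity, ?_⟩
  unfold uw
  rw [Finset.sum_const, Finset.card_univ, Fintype.card_coe, nsmul_eq_mul]
  field_simp

private theorem Ent_uw {Y : Finset ℤ} (hY : Y.Nonempty) :
    Ent (uw Y) (fun x => (x : ℤ)) = Real.log Y.card := by
  classical
  have h0 : (0 : ℝ) < Y.card := by exact_mod_cast hY.card_pos
  have hpr : ∀ o : {x // x ∈ Y}, pr (uw Y) (fun x => (x : ℤ)) (o : ℤ) = 1 / (Y.card : ℝ) := by
    intro o
    unfold pr
    rw [Finset.sum_eq_single o]
    · simp [uw]
    · intro b _ hb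
      rw [if_neg]
      intro h
      exact hb (Subtype.ext h)
    · intro h; exact absurd (Finset.mem_univ _) h
  have h1 : Ent (uw Y) (fun x => (x : ℤ)) = ∑ _o : {x // x ∈ Y}, (1 / (Y.card : ℝ)) *
      Real.log Y.card := by
    unfold Ent
    refine Finset.sum_congr rfl fun o _ => ?_
    rw [hpr o, one_div, Real.log_inv, neg_neg]
    simp [uw]
  rw [h1, Finset.sum_const, Finset.card_univ, Fintype.card_coe, nsmul_eq_mul]
  field_simp

private theorem mass_uw {Y : Finset ℤ} (hY : Y.Nonempty) (P : ℤ → Prop) [DecidablePred P] (κ : ℝ)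
    (h : ((Y.filter P).card : ℝ) ≤ κ * Y.card) : mass (uw Y) (fun x => P x) ≤ κ := by
  classical
  have h0 : (0 : ℝ) < Y.card := by exact_mod_cast hY.card_pos
  have h1 : mass (uw Y) (fun x => P x) = ((Y.filter P).card : ℝ) / Y.card := by
    have h2 : mass (uw Y) (fun x => P x) =
        ∑ o : {x // x ∈ Y}, (if P o then 1 / (Y.card : ℝ) else 0) := by
      unfold mass uw
      refine Finset.sum_congr rfl fun o _ => ?_
      by_cases h : P o
      · simp [h]
      · simp [h]
    rw [h2, ← Finset.sum_filter, Finset.sum_const, nsmul_eq_mul, mul_one_div]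
    congr 2
    refine Finset.card_bij (fun x _ => (x : ℤ)) ?_ ?_ ?_
    · intro x hx
      rw [mem_filter] at hx ⊢
      exact ⟨x.2, hx.2⟩
    · intro x _ y _ hxy
      exact Subtype.ext hxy
    · intro b hb
      rw [mem_filter] at hb
      exact ⟨⟨b, hb.1⟩, by rw [mem_filter]; exact ⟨mem_univ _, hb.2⟩, rfl⟩
  rw [h1, div_le_iff₀ h0]
  exact h

/-- what is known after `l` factors -/
private def St {k : ℕ} (Y : Fin k → Finset ℤ) (lam : Fin k → ℕ → ℕ) (κ L B : ℝ) (l : ℕ) : Prop :=
  ∃ (Ω : Type) (_ : Fintype Ω) (w : Ω → ℝ) (S : Ω → ℤ), IsPr w ∧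
    (∀ o, ∃ f : Fin k → ℤ, (∀ i : Fin k, (i : ℕ) < l → f i ∈ Y i) ∧
      (∀ i : Fin k, l ≤ (i : ℕ) → f i = 1) ∧ S o = ∏ i, f i) ∧
    (∑ i : Fin k, (if (i : ℕ) < l then Real.log ((Y i).card) else 0)) - l * B ≤ Ent w S ∧
    Ent w S ≤ l * L ∧
    ∀ m : Fin k, l ≤ (m : ℕ) → ∀ q : ℕ, q.Prime →
      mass w (fun o => ((l * lam m q : ℕ) : ℤ) < padicValInt q (S o)) ≤ l * κ

private theorem st_zero {k : ℕ} (Y : Fin k → Finset ℤ) (lam : Fin k → ℕ → ℕ) (κ L B : ℝ) :
    St Y lam κ L B 0 := by
  classical
  have hw : IsPr (fun _ : Unit => (1 : ℝ)) := ⟨fun _ => by norm_num, by simp⟩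
  refine ⟨Unit, inferInstance, fun _ => 1, fun _ => 1, hw, ?_, ?_, ?_, ?_⟩
  · intro o
    exact ⟨fun _ => 1, fun i hi => absurd hi (by omega), fun _ _ => rfl, by simp⟩
  · rw [Ent_const hw]; simp
  · rw [Ent_const hw]; simp
  · intro m _ q hq
    unfold mass
    simp

private theorem st_step {k : ℕ} (Y : Fin k → Finset ℤ) (lam : Fin k → ℕ → ℕ) (κ L B : ℝ) (l : ℕ)
    (hl : l < k) (hY : ∀ i, (Y i).Nonempty) (hY0 : ∀ i, (0 : ℤ) ∉ Y i)
    (hYL : ∀ i, ((Y i).card : ℝ) ≤ Real.exp L)
    (hlam : ∀ m m' : Fin k, m' < m → ∀ q : ℕ, q.Prime →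
        ((((Y m').filter (fun b => (q : ℤ) ^ (lam m q + 1) ∣ b)).card : ℝ) ≤
          κ * (Y m').card))
    (hCE : ∀ (Ω : Type) (_ : Fintype Ω) (w : Ω → ℝ) (S : Ω → ℤ), IsPr w → (∀ o, S o ≠ 0) →
      (l = 0 → ∀ o, S o = 1) → Ent w S ≤ l * L →
      (∀ q : ℕ, q.Prime →
        mass w (fun o => ((l * lam ⟨l, hl⟩ q : ℕ) : ℤ) < padicValInt q (S o)) ≤ l * κ) →
      CE (prodW (uw (Y ⟨l, hl⟩)) w) (fun p => (p.1 : ℤ)) (fun p => (p.1 : ℤ) * S p.2) ≤ B)
    (h : St Y lam κ L B l) : St Y lam κ L B (l + 1) := by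
  classical
  obtain ⟨Ω, hΩ, w, S, hw, hS, h1, h2, h3⟩ := h
  set i₀ : Fin k := ⟨l, hl⟩ with hi₀
  have hS0 : ∀ o, S o ≠ 0 := by
    intro o
    obtain ⟨f, f1, f2, f3⟩ := hS o
    rw [f3, Finset.prod_ne_zero_iff]
    intro i _ hi
    by_cases hil : (i : ℕ) < l
    · exact hY0 i (hi ▸ f1 i hil)
    · rw [f2 i (by omega)] at hi
      exact one_ne_zero hi
  have hSone : l = 0 → ∀ o, S o = 1 := by
    intro hl0 o
    obtain ⟨f, f1, f2, f3⟩ := hS o
    rw [f3]
    exact Finset.prod_eq_one fun i _ => f2 i (by omega)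
  have hu := uw_isPr (hY i₀)
  have hB := hCE Ω hΩ w S hw hS0 hSone h2 (h3 i₀ (le_refl _))
  have ha0 : ∀ x : {x // x ∈ Y i₀}, (x : ℤ) ≠ 0 := fun x hx => hY0 i₀ (hx ▸ x.2)
  have hpair : Ent (prodW (uw (Y i₀)) w) (fun p => ((p.1 : ℤ), (p.1 : ℤ) * S p.2)) =
      Real.log ((Y i₀).card) + Ent w S := by
    rw [← Ent_uw (hY i₀), ← Ent_prod hu hw]
    refine Ent_congr fun o o' => ?_
    simp only [Prod.mk.injEq]
    constructor
    · rintro ⟨e1, e2⟩
      refine ⟨e1, ?_⟩
      rw [e1] at e2
      exact mul_left_cancel₀ (ha0 _) e2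
    · rintro ⟨e1, e2⟩
      exact ⟨e1, by rw [e1, e2]⟩
  have hlogY : Real.log ((Y i₀).card) ≤ L := by
    have h0 : (0 : ℝ) < (Y i₀).card := by exact_mod_cast (hY i₀).card_pos
    rw [Real.log_le_iff_le_exp h0]
    exact hYL i₀
  refine ⟨{x // x ∈ Y i₀} × Ω, inferInstance, prodW (uw (Y i₀)) w, fun p => (p.1 : ℤ) * S p.2,
    hu.prod hw, ?_, ?_, ?_, ?_⟩
  · rintro ⟨x, o⟩
    obtain ⟨f, f1, f2, f3⟩ := hS o
    refine ⟨Function.update f i₀ x, ?_, ?_, ?_⟩
    · intro i hi
      by_cases hii : i = i₀
      · rw [hii, Function.update_self]; exact x.2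
      · rw [Function.update_of_ne hii]
        refine f1 i ?_
        have : (i : ℕ) ≠ l := fun h => hii (Fin.ext h)
        omega
    · intro i hi
      have hii : i ≠ i₀ := by
        intro h
        rw [h, hi₀] at hi
        simp at hi
      rw [Function.update_of_ne hii]
      exact f2 i (by omega)
    · simp only
      rw [f3, Finset.prod_update_of_mem (mem_univ _), ← Finset.mul_prod_erase univ f (mem_univ i₀),
        f2 i₀ (le_refl _), one_mul, Finset.erase_eq]
  · unfold CE at hB
    rw [hpair] at hB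
    have e1 : (∑ i : Fin k, (if (i : ℕ) < l + 1 then Real.log ((Y i).card) else 0)) =
        (∑ i : Fin k, (if (i : ℕ) < l then Real.log ((Y i).card) else 0)) +
          Real.log ((Y i₀).card) := by
      have e2 : ∀ i : Fin k, (if (i : ℕ) < l + 1 then Real.log ((Y i).card) else 0) =
          (if (i : ℕ) < l then Real.log ((Y i).card) else 0) +
            (if i = i₀ then Real.log ((Y i).card) else 0) := by
        intro i
        by_cases hii : i = i₀
        · rw [hii, hi₀]; simp
        · have : (i : ℕ) ≠ l := fun h => hii (Fin.ext h)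
          rw [if_neg hii, add_zero]
          by_cases h : (i : ℕ) < l
          · rw [if_pos h, if_pos (by omega)]
          · rw [if_neg h, if_neg (by omega)]
      rw [Finset.sum_congr rfl fun i _ => e2 i, Finset.sum_add_distrib]
      simp
    rw [e1]
    push_cast
    linarith
  · have e1 : Ent (prodW (uw (Y i₀)) w) (fun p => (p.1 : ℤ) * S p.2) ≤
        Ent (prodW (uw (Y i₀)) w) (fun p => ((p.1 : ℤ), (p.1 : ℤ) * S p.2)) :=
      Ent_mono (hu.prod hw) fun o o' e => congrArg Prod.snd e
    rw [hpair] at e1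
    push_cast
    linarith
  · intro m hm q hq
    have : Fact q.Prime := ⟨hq⟩
    have e1 : mass (prodW (uw (Y i₀)) w) (fun p => (((l + 1) * lam m q : ℕ) : ℤ) <
        padicValInt q ((p.1 : ℤ) * S p.2)) ≤
        mass (prodW (uw (Y i₀)) w) (fun p => (fun x : {x // x ∈ Y i₀} => ((q : ℤ) ^ (lam m q + 1) ∣ (x : ℤ))) p.1 ∨
          (fun o => ((l * lam m q : ℕ) : ℤ) < padicValInt q (S o)) p.2) := by
      refine mass_mono (hu.prod hw) ?_
      intro p hp
      by_contra hcon
      push Not at hcon
      obtain ⟨c1, c2⟩ := hcon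
      rw [padicValInt.mul (ha0 _) (hS0 _)] at hp
      have c3 : padicValInt q (p.1 : ℤ) ≤ lam m q := by
        by_contra hc
        push Not at hc
        apply c1
        rw [padicValInt_dvd_iff]
        exact Or.inr hc
      push_cast at hp c2
      have c4 : (padicValInt q (p.1 : ℤ) : ℤ) ≤ lam m q := by exact_mod_cast c3
      nlinarith
    refine e1.trans ((mass_or_le (hu.prod hw) _ _).trans ?_)
    rw [mass_fst hw (fun x : {x // x ∈ Y i₀} => ((q : ℤ) ^ (lam m q + 1) ∣ (x : ℤ))),
      mass_snd hu (fun o => ((l * lam m q : ℕ) : ℤ) < padicValInt q (S o))]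
    have e2 := mass_uw (hY i₀) (fun b => (q : ℤ) ^ (lam m q + 1) ∣ b) κ (hlam m i₀ (by
      rw [Fin.lt_def, hi₀]; simp; omega) q hq)
    have e3 := h3 m (by omega) q hq
    push_cast at e2 e3 ⊢
    linarith

theorem cor (k : ℕ) (ζ : ℝ) (hζ : 0 < ζ) : ∃ (κ : ℝ) (K : ℕ) (τ C : ℝ), 0 < κ ∧ κ ≤ 1 ∧ 1 ≤ K ∧
    0 < τ ∧ 0 < C ∧
    ∀ (Y : Fin k → Finset ℤ) (L : ℝ) (M : ℕ) (n : ℕ) (lam : Fin k → ℕ → ℕ), 1 ≤ L → 1 ≤ M →
      (∀ l, (Y l).Nonempty) → (∀ l, (0 : ℤ) ∉ Y l) → (∀ l, ((Y l).card : ℝ) ≤ Real.exp L) →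
      (∀ l q, n ≤ q → lam l q = 0) →
      (∀ l l' : Fin k, l' < l → ∀ q : ℕ, q.Prime →
        ((((Y l').filter (fun b => (q : ℤ) ^ (lam l q + 1) ∣ b)).card : ℝ) ≤
          κ * (Y l').card)) →
      (∀ l : Fin k, 0 < (l : ℕ) → ∀ b ∈ Y l,
        {b' : ℤ | b' ∈ Y l ∧ Close (Ures K τ L (W n (lam l)) (lam l)) b b' ∧
          dst b b' ≤ C * W n (lam l)}.ncard ≤ M) →
      ∑ l, Real.log ((Y l).card) - k * (ζ * L + Real.log M + 1) ≤
        Real.log (((Fintype.piFinset Y).image (fun f => ∏ i, f i)).card) := by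
  classical
  obtain ⟨κ', K, τ, C, hκ', hκ1, hK, hτ, hC, H⟩ := dec ζ hζ k
  have hk1 : (0 : ℝ) < (k : ℝ) + 1 := by positivity
  refine ⟨κ' / (k + 1), K, τ, C, by positivity, ?_, hK, hτ, hC, ?_⟩
  · rw [div_le_one hk1]
    have : (0 : ℝ) ≤ k := Nat.cast_nonneg k
    linarith
  intro Y L M n lam hL hM hY hY0 hYL hn hlam hcell
  have hB0 : 0 ≤ ζ * L + Real.log M + 1 := by
    have : 0 ≤ Real.log M := Real.log_natCast_nonneg M
    nlinarith
  -- all stages
  have hst : ∀ l : ℕ, l ≤ k → St Y lam (κ' / (k + 1)) L (ζ * L + Real.log M + 1) l := by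
    intro l
    induction l with
    | zero => intro _; exact st_zero Y lam _ _ _
    | succ l ih =>
      intro hl
      refine st_step Y lam _ L _ l (by omega) hY hY0 hYL hlam ?_ (ih (by omega))
      intro Ω hΩ w S hw hS0 hSone hSL hSm
      set i₀ : Fin k := ⟨l, by omega⟩ with hi₀
      have hu := uw_isPr (hY i₀)
      rcases Nat.eq_zero_or_pos l with hl0 | hl0
      · -- the first factor is the product itself
        refine le_trans (le_of_eq ?_) hB0
        have e1 : CE (prodW (uw (Y i₀)) w) (fun p => (p.1 : ℤ)) (fun p => (p.1 : ℤ) * S p.2) =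
            CE (prodW (uw (Y i₀)) w) (fun _ => (0 : ℤ)) (fun p => (p.1 : ℤ) * S p.2) := by
          refine CE_congr (fun o o' => Iff.rfl) ?_
          intro o o' e
          simp only [hSone hl0, mul_one] at e
          exact ⟨fun _ => rfl, fun _ => e⟩
        rw [e1]
        unfold CE
        rw [sub_eq_zero]
        refine Ent_congr fun o o' => ?_
        simp
      · -- decoding
        set n' : ℕ := max n ((univ.sup fun i => (Y i).sup Int.natAbs) + 1) with hn'
        set c : ℕ → ℝ := fun q => if q.Prime then Real.log q else 1 with hc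
        set lam' : ℕ → ℕ := fun q => if q.Prime then lam i₀ q else 0 with hlam'
        have hcpos : ∀ q, 0 < c q := by
          intro q
          rw [hc]
          by_cases hq : q.Prime
          · simp only [if_pos hq]
            exact Real.log_pos (by exact_mod_cast hq.one_lt)
          · simp only [if_neg hq]; norm_num
        have hbig : ∀ i, ∀ b ∈ Y i, ∀ q : ℕ, q.Prime → (q : ℤ) ∣ b → q < n' := by
          intro i b hb q hq hqb
          have hb0 : b ≠ 0 := fun h => hY0 i (h ▸ hb)
          have e1 : q ≤ b.natAbs := Nat.le_of_dvd (Int.natAbs_pos.mpr hb0) (Int.natCast_dvd.mp hqb)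
          have e2 : b.natAbs ≤ (Y i).sup Int.natAbs := Finset.le_sup (f := Int.natAbs) hb
          have e3 : (Y i).sup Int.natAbs ≤ univ.sup fun i => (Y i).sup Int.natAbs :=
            Finset.le_sup (f := fun i => (Y i).sup Int.natAbs) (mem_univ i)
          rw [hn']
          exact lt_of_lt_of_le (by omega) (le_max_right _ _)
        -- the weight
        have hΓ : ∑ q : Fin n', (lam' q : ℝ) * c q = W n (lam i₀) := by
          have e1 : ∑ q : Fin n', (lam' q : ℝ) * c q = ∑ q ∈ range n', (lam' q : ℝ) * c q :=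
            (Finset.sum_range (fun q => (lam' q : ℝ) * c q)).symm
          rw [e1]
          unfold W
          have e2 : ∑ q ∈ (range n').filter Nat.Prime, (lam i₀ q : ℝ) * Real.log q =
              ∑ q ∈ range n', (lam' q : ℝ) * c q := by
            rw [Finset.sum_filter]
            refine Finset.sum_congr rfl fun q _ => ?_
            by_cases hq : q.Prime
            · simp [hlam', hc, hq]
            · simp [hlam', hq]
          rw [← e2]
          symm
          refine Finset.sum_subset ?_ ?_
          · intro q hq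
            rw [mem_filter, mem_range] at hq ⊢
            exact ⟨lt_of_lt_of_le hq.1 (le_max_left _ _), hq.2⟩
          · intro q hq hq'
            rw [mem_filter, mem_range] at hq hq'
            have : n ≤ q := by
              by_contra hcon
              push Not at hcon
              exact hq' ⟨hcon, hq.2⟩
            rw [hn i₀ q this]; simp
        have hvv : ∀ b b' : ℤ, b ∈ Y i₀ → b' ∈ Y i₀ →
            dst b b' = ∑ q : Fin n', |((vv n' b q - vv n' b' q : ℤ) : ℝ)| * c q := by
          intro b b' hb hb'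
          rw [dst_eq n' (fun h => hY0 i₀ (h ▸ hb)) (fun h => hY0 i₀ (h ▸ hb'))]
          · refine Finset.sum_congr rfl fun q _ => ?_
            by_cases hq : (q : ℕ).Prime
            · simp [hc, hq]
            · simp [vv, hq]
          · intro q hq hor
            rcases hor with h | h
            · exact hbig i₀ b hb q hq h
            · exact hbig i₀ b' hb' q hq h
        refine H (uw (Y i₀)) w hu hw n' (fun x => (x : ℤ)) (fun x => vv n' x)
          (fun o => vv n' (S o)) (fun p => (p.1 : ℤ) * S p.2) lam' c L M hL hM hcpos ?_ ?_ ?_ ?_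
          ?_ ?_ ?_
        · intro o o' e
          exact congrArg (vv n') e
        · intro o q
          exact vv_nonneg _ _ _
        · intro p p' e
          have hp : ∀ p : {x // x ∈ Y i₀} × Ω, vv n' (p.1 : ℤ) + vv n' (S p.2) =
              vv n' ((p.1 : ℤ) * S p.2) := fun p =>
            (vv_mul n' (fun h => hY0 i₀ (h ▸ p.1.2)) (hS0 p.2)).symm
          rw [hp, hp, e]
        · have e1 : (univ.image (fun x : {x // x ∈ Y i₀} => (x : ℤ))).card ≤ (Y i₀).card := by
            refine Finset.card_le_card ?_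
            intro b hb
            rw [mem_image] at hb
            obtain ⟨x, -, rfl⟩ := hb
            exact x.2
          exact le_trans (by exact_mod_cast e1) (hYL i₀)
        · have e1 : Ent w (fun o => vv n' (S o)) ≤ Ent w S :=
            Ent_mono hw fun o o' e => by rw [e]
          have e2 : (l : ℝ) * L ≤ k * L := by
            have : (l : ℝ) ≤ k := by exact_mod_cast (show l ≤ k by omega)
            nlinarith
          linarith
        · intro q
          by_cases hq : (q : ℕ).Prime
          · have e1 := hSm q hq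
            have e2 : mass w (fun o => ((k * lam' q : ℕ) : ℤ) < vv n' (S o) q) ≤
                mass w (fun o => ((l * lam i₀ q : ℕ) : ℤ) < padicValInt q (S o)) := by
              refine mass_mono hw ?_
              intro o ho
              simp only [hlam', vv, if_pos hq] at ho
              refine lt_of_le_of_lt ?_ ho
              have : l * lam i₀ q ≤ k * lam i₀ q := Nat.mul_le_mul_right _ (by omega)
              exact_mod_cast this
            refine e2.trans (e1.trans ?_)
            have e3 : (l : ℝ) * (κ' / (k + 1)) = κ' * (l / (k + 1)) := by ring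
            rw [e3]
            have e4 : (l : ℝ) / (k + 1) ≤ 1 := by
              rw [div_le_one hk1]
              have : (l : ℝ) ≤ k := by exact_mod_cast (show l ≤ k by omega)
              linarith
            nlinarith
          · have e1 : mass w (fun o => ((k * lam' q : ℕ) : ℤ) < vv n' (S o) q) = 0 := by
              unfold mass
              refine Finset.sum_eq_zero fun o _ => ?_
              rw [if_neg]
              simp [hlam', vv, hq]
            rw [e1]; exact hκ'.le
        · intro o
          refine le_trans (Set.ncard_le_ncard ?_ ?_) (hcell i₀ hl0 o o.2)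
          · rintro b ⟨o', rfl, h1, h2⟩
            refine ⟨o'.2, ?_, ?_⟩
            · intro q hq
              by_cases hqn : q < n'
              · have e1 := h1 ⟨q, hqn⟩
                rw [hΓ] at e1
                simp only [vv, if_pos hq] at e1
                refine lt_of_lt_of_le e1 ?_
                unfold UresC Ures
                simp only [hlam', hc, if_pos hq]
                exact le_refl _
              · have v0 : ∀ x : {x // x ∈ Y i₀}, padicValInt q (x : ℤ) = 0 := by
                  intro x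
                  have : Fact q.Prime := ⟨hq⟩
                  rw [padicValInt.eq_zero_iff]
                  right; right
                  intro hdvd
                  exact hqn (hbig i₀ x x.2 q hq hdvd)
                rw [v0 o, v0 o']
                simp only [Nat.cast_zero, sub_self, abs_zero]
                have : lam i₀ q = 0 := hn i₀ q (by
                  push Not at hqn
                  exact le_trans (le_max_left _ _) hqn)
                unfold Ures
                rw [if_pos this]
                norm_num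
            · rw [hvv o o' o.2 o'.2, ← hΓ]
              exact h2
          · exact Set.Finite.subset (Y i₀).finite_toSet fun b hb => hb.1
  obtain ⟨Ω, hΩ, w, S, hw, hS, h1, h2, h3⟩ := hst k (le_refl _)
  have e1 : (∑ i : Fin k, (if (i : ℕ) < k then Real.log ((Y i).card) else 0)) =
      ∑ l, Real.log ((Y l).card) := Finset.sum_congr rfl fun i _ => by rw [if_pos i.2]
  rw [e1] at h1
  refine h1.trans ?_
  -- entropy at most the logarithm of the number of values
  have e2 : Ent w S ≤ CE w S (fun _ => (0 : ℤ)) := by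
    unfold CE
    rw [Ent_const hw, sub_zero]
    exact Ent_mono hw fun o o' e => congrArg Prod.fst e
  refine e2.trans (CE_le_log hw S _ _ ?_)
  intro o
  have hsub : {a : ℤ | ∃ o', (fun _ : Ω => (0 : ℤ)) o' = (fun _ : Ω => (0 : ℤ)) o ∧ S o' = a} ⊆
      (((Fintype.piFinset Y).image (fun f => ∏ i, f i) : Finset ℤ) : Set ℤ) := by
    rintro a ⟨o', -, rfl⟩
    obtain ⟨f, f1, f2, f3⟩ := hS o'
    rw [Finset.coe_image]
    refine ⟨f, ?_, f3.symm⟩
    rw [Finset.mem_coe, Fintype.mem_piFinset]
    exact fun i => f1 i i.2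
  refine le_trans (Set.ncard_le_ncard hsub (Finset.finite_toSet _)) ?_
  rw [Set.ncard_coe_finset]

end Pool.Agent.Helper84.TR
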