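import Pool.Agent.Helper84.TR.Mass
import Pool.Agent.Helper84.TR.Fib

/-!
# TR-8b: the second part: the label of `Z` when `Z ≥ U - t`

On `Z ≥ U - t` reveal the label `lb U t' X` (its entropy is that of `lb U t' X` because `X` is
independent of `Z`); then `X`, hence `Z`, lies in `U` consecutive integers and `lb U t Z` has at
most two values.  Off this event `lb U t Z = 0`.  Average over `t'` (or use every `t'`).
-/

set_option autoImplicit false

open Finset

namespace Pool.Agent.Helper84.TR

open Pool.Agent.Helper15.BP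

variable {Ω Ω' α β γ δ : Type*} [Fintype Ω] [Fintype Ω']

/-- a function which is constant on the support has conditional entropy zero -/
private theorem CE_zero_of_supp (w : Ω → ℝ) (f : Ω → α) (g : Ω → β) (c : α)
    (h : ∀ o, w o ≠ 0 → f o = c) : CE w f g = 0 := by
  classical
  rw [CE_eq_sum]
  apply sum_eq_zero
  intro o _
  by_cases ho : w o = 0
  · rw [ho, zero_mul]
  · have h1 : pr w g (g o) = pr w (fun o => (f o, g o)) (f o, g o) := by
      unfold pr
      apply sum_congr rfl
      intro x _
      by_cases hx : w x = 0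
      · rw [hx, ite_self, ite_self]
      · by_cases hg : g x = g o
        · have e : (fun o => (f o, g o)) x = (f o, g o) := by
            show (f x, g x) = (f o, g o)
            rw [h x hx, h o ho, hg]
          rw [if_pos hg, if_pos e]
        · rw [if_neg hg, if_neg (fun h2 => hg (congrArg Prod.snd h2))]
    rw [h1, sub_self, mul_zero]

private theorem pr_true (w : Ω → ℝ) (J : Ω → Prop) : pr w J True = mass w J := by
  classical
  unfold pr mass
  apply sum_congr rfl
  intro o _
  by_cases h : J o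
  · rw [if_pos (eq_true h), if_pos h]
  · rw [if_neg (fun h2 => h (of_eq_true h2)), if_neg h]

/-- conditioning a product on an event of the second factor -/
private theorem cw_second {w : Ω → ℝ} (hw : IsPr w) (w' : Ω' → ℝ) (J : Ω' → Prop) :
    cw (prodW w w') (fun p => J p.2) True = prodW w (cw w' J True) := by
  classical
  funext p
  unfold cw
  rw [pr_snd hw]
  unfold prodW
  by_cases h : J p.2 = True
  · rw [if_pos h]
    simp only
    rw [if_pos h, mul_div_assoc]
  · rw [if_neg h]
    simp only
    rw [if_neg h, mul_zero]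

omit [Fintype Ω] [Fintype Ω'] in
/-- given the sum, a label of `X` leaves two labels of `Z` -/
private theorem two_labels (U t t' : ℕ) (hU : 0 < U) (X : Ω → ℤ) (Z : Ω' → ℤ) (o : Ω × Ω') :
    {a : ℤ | ∃ o' : Ω × Ω', (lb U t' (X o'.1), X o'.1 + Z o'.2) = (lb U t' (X o.1), X o.1 + Z o.2) ∧
      lb U t (Z o'.2) = a}.ncard ≤ 2 := by
  have hUz : (0 : ℤ) < U := by exact_mod_cast hU
  -- the least possible value of `Z`
  set c : ℤ := lb U t' (X o.1) with hc
  set s : ℤ := X o.1 + Z o.2 with hs
  -- `U c - t' ≤ X < U c - t' + U`, hence `s - U c + t' - U < Z ≤ s - U c + t'`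
  set z0 : ℤ := s - U * c + t' - U + 1 with hz0
  have hsub : {a : ℤ | ∃ o' : Ω × Ω', (lb U t' (X o'.1), X o'.1 + Z o'.2) = (c, s) ∧
      lb U t (Z o'.2) = a} ⊆ (({(z0 + t) / (U : ℤ), (z0 + t) / (U : ℤ) + 1} : Finset ℤ) : Set ℤ) := by
    rintro a ⟨o', h1, rfl⟩
    have h2 : lb U t' (X o'.1) = c := congrArg Prod.fst h1
    have h3 : X o'.1 + Z o'.2 = s := congrArg Prod.snd h1
    unfold lb at h2
    have h4 := Int.emod_add_mul_ediv (X o'.1 + t') (U : ℤ)
    have h5 := Int.emod_nonneg (X o'.1 + t') hUz.ne'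
    have h6 := Int.emod_lt_of_pos (X o'.1 + t') hUz
    rw [h2] at h4
    have h7 : z0 ≤ Z o'.2 := by
      rw [hz0]
      linarith
    have h8 : Z o'.2 ≤ z0 + U - 1 := by
      rw [hz0]
      linarith
    have h9 : (z0 + t) / (U : ℤ) ≤ (Z o'.2 + t) / (U : ℤ) := by
      apply Int.ediv_le_ediv hUz
      linarith
    have h10 : (Z o'.2 + t) / (U : ℤ) ≤ (z0 + t) / (U : ℤ) + 1 := by
      have h11 : (z0 + t) / (U : ℤ) + 1 = (z0 + t + U) / (U : ℤ) := by
        rw [Int.add_ediv_of_dvd_right (dvd_refl _), Int.ediv_self hUz.ne']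
      rw [h11]
      apply Int.ediv_le_ediv hUz
      linarith
    rw [coe_insert, coe_singleton, Set.mem_insert_iff, Set.mem_singleton_iff]
    unfold lb
    omega
  refine le_trans (Set.ncard_le_ncard hsub (Finset.finite_toSet _)) ?_
  rw [Set.ncard_coe_finset]
  exact card_le_two

/-- without conditioning -/
private theorem second_aux {w : Ω → ℝ} {w' : Ω' → ℝ} (hw : IsPr w) (hw' : IsPr w') (X : Ω → ℤ)
    (Z : Ω' → ℤ) (U t t' : ℕ) (hU : 0 < U) :
    CE (prodW w w') (fun p => lb U t (Z p.2)) (fun p => X p.1 + Z p.2) ≤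
      Ent w (fun o => lb U t' (X o)) + Real.log 2 := by
  have hp := hw.prod hw'
  have h1 : CE (prodW w w') (fun p => lb U t (Z p.2)) (fun p => X p.1 + Z p.2) ≤
      CE (prodW w w') (fun p => (lb U t (Z p.2), lb U t' (X p.1))) (fun p => X p.1 + Z p.2) := by
    apply CE_mono hp
    intro o o' _ h
    exact congrArg Prod.fst h
  have h2 := CE_chain (prodW w w') (fun p => lb U t (Z p.2)) (fun p => lb U t' (X p.1))
    (fun p => X p.1 + Z p.2)
  have h3 := CE_le_Ent hp (fun p => lb U t' (X p.1)) (fun p => X p.1 + Z p.2)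
  have h4 : Ent (prodW w w') (fun p => lb U t' (X p.1)) = Ent w (fun o => lb U t' (X o)) :=
    Ent_fst hw' (fun o => lb U t' (X o))
  have h5 := CE_le_log hp (fun p => lb U t (Z p.2)) (fun p => (lb U t' (X p.1), X p.1 + Z p.2)) 2
    (fun o => two_labels U t t' hU X Z o)
  rw [h4] at h3
  rw [h2] at h1
  push_cast at h5
  linarith

theorem second {w : Ω → ℝ} {w' : Ω' → ℝ} (hw : IsPr w) (hw' : IsPr w') (X : Ω → ℤ) (Z : Ω' → ℤ)
    (hZ : ∀ o, 0 ≤ Z o) (U t : ℕ) (hU : 0 < U) (ht : t < U) :
    CE (prodW w w') (fun p => lb U t (Z p.2))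
        (fun p => (X p.1 + Z p.2, ((U : ℤ) - t ≤ Z p.2))) ≤
      mass w' (fun o => (U : ℤ) - t ≤ Z o) *
        ((∑ t' ∈ range U, Ent w (fun o => lb U t' (X o))) / U + Real.log 2) := by
  classical
  have hUr : (0 : ℝ) < U := by exact_mod_cast hU
  have hp := hw.prod hw'
  have hm := mass_nonneg hw' (fun o => (U : ℤ) - t ≤ Z o)
  have hlog : (0 : ℝ) ≤ Real.log 2 := Real.log_nonneg (by norm_num)
  have hprT : pr (prodW w w') (fun p => ((U : ℤ) - t ≤ Z p.2)) True =
      mass w' (fun o => (U : ℤ) - t ≤ Z o) := by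
    rw [← pr_true w' (fun o => (U : ℤ) - t ≤ Z o)]
    exact pr_snd hw (fun o => (U : ℤ) - t ≤ Z o) True
  -- for every `t'`
  have key : ∀ t' ∈ range U, CE (prodW w w') (fun p => lb U t (Z p.2))
      (fun p => (X p.1 + Z p.2, ((U : ℤ) - t ≤ Z p.2))) ≤
        mass w' (fun o => (U : ℤ) - t ≤ Z o) *
          (Ent w (fun o => lb U t' (X o)) + Real.log 2) := by
    intro t' _
    have hE := Ent_nonneg hw (fun o => lb U t' (X o))
    have hB : 0 ≤ mass w' (fun o => (U : ℤ) - t ≤ Z o) *
          (Ent w (fun o => lb U t' (X o)) + Real.log 2) := by positivity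
    rw [CE_fib hp (fun p => lb U t (Z p.2)) (fun p => X p.1 + Z p.2)
      (fun p => ((U : ℤ) - t ≤ Z p.2))]
    have h1 : ∀ a ∈ univ.image (fun p : Ω × Ω' => ((U : ℤ) - t ≤ Z p.2)),
        pr (prodW w w') (fun p => ((U : ℤ) - t ≤ Z p.2)) a *
          CE (cw (prodW w w') (fun p => ((U : ℤ) - t ≤ Z p.2)) a) (fun p => lb U t (Z p.2))
            (fun p => X p.1 + Z p.2) ≤
        if a = True then mass w' (fun o => (U : ℤ) - t ≤ Z o) *
          (Ent w (fun o => lb U t' (X o)) + Real.log 2) else 0 := by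
      intro a _
      by_cases ha : a
      · have ha' : a = True := eq_true ha
        rw [if_pos ha', ha', hprT]
        by_cases h0 : mass w' (fun o => (U : ℤ) - t ≤ Z o) = 0
        · rw [h0, zero_mul, zero_mul]
        · apply mul_le_mul_of_nonneg_left _ hm
          rw [cw_second hw w' (fun o => (U : ℤ) - t ≤ Z o)]
          have hw'' : IsPr (cw w' (fun o => (U : ℤ) - t ≤ Z o) True) := by
            apply cw_isPr hw'
            rw [pr_true]
            exact h0
          exact second_aux hw hw'' X Z U t t' hU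
      · have ha' : a = False := eq_false ha
        rw [if_neg (fun h => ha (of_eq_true h)), ha']
        apply le_of_eq
        rw [CE_zero_of_supp _ _ _ (0 : ℤ), mul_zero]
        intro p hp0
        have hJ : ¬ ((U : ℤ) - t ≤ Z p.2) := by
          intro hJ
          apply hp0
          unfold cw
          simp only
          rw [if_neg]
          intro h
          exact of_eq_false h hJ
        have h3 := hZ p.2
        unfold lb
        apply Int.ediv_eq_zero_of_lt
        · positivity
        · linarith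
    refine le_trans (sum_le_sum h1) ?_
    rw [← sum_filter, sum_const, nsmul_eq_mul]
    have hc : ((univ.image (fun p : Ω × Ω' => ((U : ℤ) - t ≤ Z p.2))).filter
        (fun a => a = True)).card ≤ 1 := by
      rw [card_le_one]
      intro a ha b hb
      rw [(mem_filter.1 ha).2, (mem_filter.1 hb).2]
    have hc' : ((((univ.image (fun p : Ω × Ω' => ((U : ℤ) - t ≤ Z p.2))).filter
        (fun a => a = True)).card : ℕ) : ℝ) ≤ 1 := by exact_mod_cast hc
    nlinarith
  have h2 := sum_le_sum key
  rw [sum_const, card_range, nsmul_eq_mul, ← mul_sum, sum_add_distrib, sum_const, card_range,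
    nsmul_eq_mul] at h2
  have h3 : mass w' (fun o => (U : ℤ) - t ≤ Z o) *
        ((∑ t' ∈ range U, Ent w (fun o => lb U t' (X o))) / U + Real.log 2) =
      (mass w' (fun o => (U : ℤ) - t ≤ Z o) *
        (∑ t' ∈ range U, Ent w (fun o => lb U t' (X o)) + U * Real.log 2)) / U := by
    field_simp
  rw [h3, le_div_iff₀ hUr]
  linarith

end Pool.Agent.Helper84.TR
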