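import Pool.Agent.Helper84.TR.Avg

/-!
# TR-15: counting the dithers that do not separate
-/

set_option autoImplicit false

open Finset

namespace Pool.Agent.Helper84.TR

variable {n : ℕ}

theorem lb_eq_lt (U t : ℕ) (hU : 0 < U) (x y : ℤ) (h : lb U t x = lb U t y) :
    |x - y| < (U : ℤ) := by
  unfold lb at h
  have hU' : (0 : ℤ) < U := by exact_mod_cast hU
  have h1 := Int.emod_add_mul_ediv (x + t) U
  have h2 := Int.emod_add_mul_ediv (y + t) U
  have h3 := Int.emod_nonneg (x + t) hU'.ne'
  have h4 := Int.emod_lt_of_pos (x + t) hU'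
  have h5 := Int.emod_nonneg (y + t) hU'.ne'
  have h6 := Int.emod_lt_of_pos (y + t) hU'
  rw [h] at h1
  rw [abs_lt]
  constructor <;> linarith

private theorem Sep_aux (U : ℕ) (hU : 0 < U) (x y : ℤ) (hxy : y ≤ x) :
    (((range U).filter (fun t => lb U t x = lb U t y)).card : ℝ) ≤
      U * Real.exp (-(|((x - y : ℤ) : ℝ)| / U)) := by
  have hU' : (0 : ℤ) < U := by exact_mod_cast hU
  have hUr : (0 : ℝ) < U := by exact_mod_cast hU
  by_cases hd : (U : ℤ) ≤ x - y
  · have he : (range U).filter (fun t => lb U t x = lb U t y) = ∅ := by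
      apply Finset.filter_eq_empty_iff.mpr
      intro t _ h
      have h1 := lb_eq_lt U t hU x y h
      have h2 := le_abs_self (x - y)
      linarith
    rw [he]
    simp only [card_empty, Nat.cast_zero]
    positivity
  · push Not at hd
    obtain ⟨d, hd'⟩ : ∃ d : ℕ, (d : ℤ) = x - y :=
      ⟨(x - y).toNat, Int.toNat_of_nonneg (by linarith)⟩
    have hdU : d < U := by omega
    have hcard : ((range U).filter (fun t => lb U t x = lb U t y)).card ≤
        (range (U - d)).card := by
      apply Finset.card_le_card_of_injOn (fun t : ℕ => ((y + (t : ℤ)) % (U : ℤ)).toNat)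
      · intro t ht
        simp only [coe_filter, mem_range, Set.mem_setOf_eq] at ht
        obtain ⟨ht1, ht2⟩ := ht
        unfold lb at ht2
        have h1 := Int.emod_add_mul_ediv (x + t) U
        have h2 := Int.emod_add_mul_ediv (y + t) U
        have h4 := Int.emod_lt_of_pos (x + t) hU'
        have h5 := Int.emod_nonneg (y + t) hU'.ne'
        rw [ht2] at h1
        simp only [coe_range, Set.mem_Iio]
        have h7 : (y + t) % (U : ℤ) + d = (x + t) % (U : ℤ) := by linarith
        omega
      · intro t ht t' ht' h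
        simp only [coe_filter, mem_range, Set.mem_setOf_eq] at ht ht'
        have h5 := Int.emod_nonneg (y + t) hU'.ne'
        have h6 := Int.emod_nonneg (y + t') hU'.ne'
        have h7 : (y + t) % (U : ℤ) = (y + t') % (U : ℤ) := by
          simp only at h
          omega
        have h8 : (t : ℤ) ≡ (t' : ℤ) [ZMOD (U : ℤ)] :=
          Int.ModEq.add_left_cancel' y h7
        have h9 : t ≡ t' [MOD U] := (Int.natCast_modEq_iff).mp h8
        exact Nat.ModEq.eq_of_lt_of_lt h9 ht.1 ht'.1
    rw [card_range] at hcard
    have hcr : (((range U).filter (fun t => lb U t x = lb U t y)).card : ℝ) ≤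
        (U : ℝ) - d := by
      calc (((range U).filter (fun t => lb U t x = lb U t y)).card : ℝ)
          ≤ ((U - d : ℕ) : ℝ) := by exact_mod_cast hcard
        _ = (U : ℝ) - d := by rw [Nat.cast_sub hdU.le]
    have habs : |((x - y : ℤ) : ℝ)| = d := by
      rw [← hd']
      simp
    rw [habs]
    have hexp := Real.add_one_le_exp (-((d : ℝ) / U))
    have hm := mul_le_mul_of_nonneg_left hexp hUr.le
    have : (U : ℝ) * (-((d : ℝ) / U) + 1) = U - d := by
      field_simp
      ring
    linarith

/-- labels of one column -/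
theorem lb_count (U : ℕ) (hU : 0 < U) (x y : ℤ) :
    (((range U).filter (fun t => lb U t x = lb U t y)).card : ℝ) ≤
      U * Real.exp (-(|((x - y : ℤ) : ℝ)| / U)) := by
  rcases le_total y x with h | h
  · exact Sep_aux U hU x y h
  · have h1 := Sep_aux U hU y x h
    have h2 : (range U).filter (fun t => lb U t x = lb U t y) =
        (range U).filter (fun t => lb U t y = lb U t x) := by
      apply Finset.filter_congr
      intro t _
      exact eq_comm
    have h3 : |((x - y : ℤ) : ℝ)| = |((y - x : ℤ) : ℝ)| := by
      push_cast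
      exact abs_sub_comm _ _
    rw [h2, h3]
    exact h1

/-- the probability that two vectors have equal labels in all columns -/
theorem sep_avg (U : ℕ → ℕ) (hU : ∀ q, 0 < U q) (x y : Fin n → ℤ) :
    avg U (fun θ => if ∀ q : Fin n, lb (U q) (θ q) (x q) = lb (U q) (θ q) (y q) then (1 : ℝ) else 0) ≤
      Real.exp (-∑ q : Fin n, |((x q - y q : ℤ) : ℝ)| / U q) := by
  have hUr : ∀ q : Fin n, (0 : ℝ) < U q := fun q => by exact_mod_cast hU q
  have h1 : (∑ θ : (q : Fin n) → Fin (U q),
      (if ∀ q : Fin n, lb (U q) (θ q) (x q) = lb (U q) (θ q) (y q) then (1 : ℝ) else 0)) =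
      ∏ q : Fin n, ∑ t : Fin (U q),
        (if lb (U q) t (x q) = lb (U q) t (y q) then (1 : ℝ) else 0) := by
    rw [Finset.prod_univ_sum, Fintype.piFinset_univ]
    apply Finset.sum_congr rfl
    intro θ _
    by_cases h : ∀ q : Fin n, lb (U q) (θ q) (x q) = lb (U q) (θ q) (y q)
    · rw [if_pos h]
      symm
      apply Finset.prod_eq_one
      intro q _
      rw [if_pos (h q)]
    · rw [if_neg h]
      push Not at h
      obtain ⟨q, hq⟩ := h
      symm
      apply Finset.prod_eq_zero (Finset.mem_univ q)
      rw [if_neg hq]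
  unfold avg
  rw [h1, ← Finset.prod_div_distrib, ← Finset.sum_neg_distrib, Real.exp_sum]
  apply Finset.prod_le_prod
  · intro q _
    apply div_nonneg
    · apply Finset.sum_nonneg
      intro t _
      split_ifs <;> norm_num
    · exact (hUr q).le
  · intro q _
    have h2 : (∑ t : Fin (U q), (if lb (U q) t (x q) = lb (U q) t (y q) then (1 : ℝ) else 0)) =
        (((range (U q)).filter (fun t => lb (U q) t (x q) = lb (U q) t (y q))).card : ℝ) := by
      rw [Fin.sum_univ_eq_sum_range
        (fun t => if lb (U q) t (x q) = lb (U q) t (y q) then (1 : ℝ) else 0) (U q)]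
      rw [Finset.sum_boole]
    rw [h2, div_le_iff₀ (hUr q)]
    have h3 := lb_count (U q) (hU q) (x q) (y q)
    rw [mul_comm]
    exact h3

end Pool.Agent.Helper84.TR
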