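import Pool.Agent.Helper84.TR.Event
import Pool.Agent.Helper84.TR.Num

/-!
# TR-8: the test `X + Z ≥ v + 2 m - 1` for the event `u ≤ Z`, `m = ⌈u / 4⌉`

`H(1[Z ≥ u] | S) ≤ H(J | D)`, `J = (u ≤ Z)`, `D = (v + 2 m - 1 ≤ S)`;
`CE w J D = phi (P(J, ¬D)) (P(¬J, ¬D)) + phi (P(J, D)) (P(¬J, D))`;
`J, ¬D` force `Z ≥ u` and `X ≤ v - m`; `¬J, D` force `Z ≥ m` or `X ≥ v + m` (`3 m ≤ u + 2`).
-/

set_option autoImplicit false

open Finset

namespace Pool.Agent.Helper84.TR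

open Pool.Agent.Helper15.BP

variable {Ω Ω' α β γ δ : Type*} [Fintype Ω] [Fintype Ω']

theorem test {w : Ω → ℝ} {w' : Ω' → ℝ} (hw : IsPr w) (hw' : IsPr w') (X : Ω → ℤ) (Z : Ω' → ℤ)
    (v : ℤ) (u m : ℕ) (hu : 1 ≤ u) (hm : m = (u + 3) / 4) :
    CE (prodW w w') (fun p => ((u : ℤ) ≤ Z p.2)) (fun p => X p.1 + Z p.2) ≤
      phi (mass w' (fun o => (u : ℤ) ≤ Z o) * mass w (fun o => X o ≤ v - m)) 1 +
      phi (mass w' (fun o => (u : ℤ) ≤ Z o))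
        (mass w' (fun o => (m : ℤ) ≤ Z o) + mass w (fun o => v + m ≤ X o)) := by
  have hW : IsPr (prodW w w') := hw.prod hw'
  have h3 : 3 * (m : ℤ) ≤ (u : ℤ) + 2 := by omega
  have h1 : CE (prodW w w') (fun p => ((u : ℤ) ≤ Z p.2)) (fun p => X p.1 + Z p.2) ≤
      CE (prodW w w') (fun p => ((u : ℤ) ≤ Z p.2)) (fun p => v + 2 * m - 1 ≤ X p.1 + Z p.2) :=
    CE_anti hW _ (fun o o' h => by
      have h' : X o.1 + Z o.2 = X o'.1 + Z o'.2 := h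
      show (v + 2 * (m : ℤ) - 1 ≤ X o.1 + Z o.2) = (v + 2 * (m : ℤ) - 1 ≤ X o'.1 + Z o'.2)
      rw [h'])
  refine h1.trans ?_
  rw [CE_event hW]
  refine add_le_add (phi_mono (mass_nonneg hW _) ?_ (mass_nonneg hW _) (mass_le_one hW _))
    (phi_mono (mass_nonneg hW _) ?_ (mass_nonneg hW _) ?_)
  · rw [mul_comm (mass w' _) (mass w _), ← mass_prod (fun o => X o ≤ v - m) (fun o => (u : ℤ) ≤ Z o)]
    refine mass_mono hW (fun o h => ?_)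
    obtain ⟨ha, hb⟩ := h
    exact ⟨by omega, ha⟩
  · rw [← mass_snd (w := w) (w' := w') hw (fun o => (u : ℤ) ≤ Z o)]
    exact mass_mono hW (fun o h => h.1)
  · rw [← mass_snd (w := w) (w' := w') hw (fun o => (m : ℤ) ≤ Z o),
      ← mass_fst (w := w) (w' := w') hw' (fun o => v + m ≤ X o)]
    refine (mass_mono hW (fun o h => ?_)).trans (mass_or_le hW _ _)
    obtain ⟨ha, hb⟩ := h
    by_contra hc
    have hc1 : ¬ ((m : ℤ) ≤ Z o.2) := fun h => hc (Or.inl h)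
    have hc2 : ¬ (v + (m : ℤ) ≤ X o.1) := fun h => hc (Or.inr h)
    omega

end Pool.Agent.Helper84.TR
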